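import Pool.Agent.H98.Coh
import Pool.Agent.SL3.Abstract

/-!
Vanishing of the cohomology of `SL_3(ℤ)` with values in traceless tensors.
-/

namespace Pool.Agent.H98

open Matrix CategoryTheory

section
variable {k : Type} [Field k]

variable (k) in
/-- cell modules as objects -/
noncomputable abbrev PR (d : ℕ) : Rep.{0} k Gam := Rep.of (k := k) (G := Gam) (X := P k d) (Prep k d)

variable (k) in
/-- the target -/
noncomputable abbrev TR : Rep.{0} k Gam := Rep.of (k := k) (G := Gam) (X := trl k) (mrep k)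

/-- a morphism from an equivariant map -/
noncomputable def mkHom {X Y : Rep.{0} k Gam} (f : X →ₗ[k] Y) (hf : ∀ g x, f (X.ρ g x) = Y.ρ g (f x)) :
    X ⟶ Y := ConcreteCategory.ofHom (C := Rep.{0} k Gam) ⟨f, fun g => LinearMap.ext fun x => hf g x⟩

/-- boundary morphisms -/
noncomputable def bdR (d : ℕ) : PR k d ⟶ PR k (d + 1) := mkHom (X := PR k d) (Y := PR k (d + 1)) (bdP d)
  (fun g z => bdP_comm d g z)

/-- augmentation morphism -/
noncomputable def augR : PR k 6 ⟶ Rep.trivial k Gam k :=
  mkHom (X := PR k 6) (Y := Rep.trivial k Gam k) augP (fun g z => augP_comm g z)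

/-- **Vanishing**: the cohomology of `SL_3(ℤ)` with coefficients in the traceless tensors in
`Sym²(k³) ⊗ (k³)*` is zero in every degree, when `6 ≠ 0` in `k`. -/
theorem vanish (h6 : (6 : k) ≠ 0) (n : ℕ) : Limits.IsZero (groupCohomology (TR k) n) := by
  have : Projective (PR k 6) := F6.projective (card_ne h6).1
  have : Projective (PR k 5) := F5.projective (card_ne h6).2.1
  have : Projective (PR k 4) := F4.projective (card_ne h6).2.2.1
  have : Projective (PR k 3) := F3.projective (card_ne h6).2.2.2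
  refine SL3.isZero_groupCohomology (P0 := PR k 6) (P1 := PR k 5) (P2 := PR k 4) (P3 := PR k 3)
    (e := augR) (d1 := bdR 5) (d2 := bdR 4) (d3 := bdR 3) augP_surj exact_aug
    (exact_bd (by norm_num)) (exact_bd (by norm_num)) inj_bd ?_ ?_ ?_ ?_ n
  · intro f _
    have hf : Eqv (mrep k) (f.hom.toLinearMap : P k 6 →ₗ[k] trl k) := fun g z => Rep.hom_comm_apply f g z
    have := h0 h6 hf
    apply Rep.hom_ext
    apply Representation.IntertwiningMap.ext
    exact this
  · intro f hz
    have hf : Eqv (mrep k) (f.hom.toLinearMap : P k 5 →ₗ[k] trl k) := fun g z => Rep.hom_comm_apply f g z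
    have hz' : (f.hom.toLinearMap : P k 5 →ₗ[k] trl k) ∘ₗ bdP 4 = 0 := by
      apply LinearMap.ext
      intro x
      exact congrArg (fun φ : PR k 4 ⟶ TR k => φ.hom x) hz
    have h := h1 h6 hf hz'
    refine ⟨0, ?_⟩
    rw [Limits.comp_zero]
    apply Rep.hom_ext
    apply Representation.IntertwiningMap.ext
    exact h
  · intro f hz
    have hf : Eqv (mrep k) (f.hom.toLinearMap : P k 4 →ₗ[k] trl k) := fun g z => Rep.hom_comm_apply f g z
    have hz' : (f.hom.toLinearMap : P k 4 →ₗ[k] trl k) ∘ₗ bdP 3 = 0 := by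
      apply LinearMap.ext
      intro x
      exact congrArg (fun φ : PR k 3 ⟶ TR k => φ.hom x) hz
    obtain ⟨g, hg, h⟩ := h2 h6 hf hz'
    refine ⟨mkHom (X := PR k 5) (Y := TR k) g hg, ?_⟩
    apply Rep.hom_ext
    apply Representation.IntertwiningMap.ext
    exact h.symm
  · intro f
    have hf : Eqv (mrep k) (f.hom.toLinearMap : P k 3 →ₗ[k] trl k) := fun g z => Rep.hom_comm_apply f g z
    obtain ⟨g, hg, h⟩ := h3 h6 hf
    refine ⟨mkHom (X := PR k 4) (Y := TR k) g hg, ?_⟩
    apply Rep.hom_ext
    apply Representation.IntertwiningMap.ext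
    exact h.symm

end

end Pool.Agent.H98
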