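import Pool.Agent.H98.Avg

/-!
The augmentation and exactness in degree zero.
-/

namespace Pool.Agent.H98

open Matrix

theorem sn_stab6 : ∀ s ∈ R6.stab, sn s (rp L6) = 1 := by decide +kernel

theorem sn_eq_of_smul_eq {g h : Gam} (e : g • rp L6 = h • rp L6) : sn g (rp L6) = sn h (rp L6) := by
  have hs : g⁻¹ * h ∈ R6.stab := by
    rw [R6.mem_stab, mul_smul]
    change g⁻¹ • h • rp L6 = rp L6
    rw [← e, inv_smul_smul]
  have h1 : h = g * (g⁻¹ * h) := by simp
  have h2 := sn_stab6 _ hs
  have h3 : (g⁻¹ * h) • rp L6 = rp L6 := R6.mem_stab.1 hs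
  rw [h1, sn_mul, h3, h2, mul_one]

section
variable (k : Type) [Field k]

open Classical in
/-- value of the augmentation on a generator -/
noncomputable def augv (σ : Finset Ray) : k :=
  if h : ∃ g : Gam, g • rp L6 = σ then ((((sn h.choose (rp L6)) : ℤˣ) : ℤ) : k) else 0

/-- the augmentation -/
noncomputable def aug : Ch k →ₗ[k] k := Finsupp.linearCombination k (augv k)

variable {k}

theorem augv_smul (g : Gam) : augv k (g • rp L6) = ((((sn g (rp L6)) : ℤˣ) : ℤ) : k) := by
  have hex : ∃ h : Gam, h • rp L6 = g • rp L6 := ⟨g, rfl⟩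
  unfold augv
  rw [dif_pos hex, sn_eq_of_smul_eq hex.choose_spec]

theorem aug_single (σ : Finset Ray) (x : k) : aug k (Finsupp.single σ x) = x * augv k σ := by
  unfold aug; rw [Finsupp.linearCombination_single, smul_eq_mul]

theorem augv_act (g : Gam) (σ : Finset Ray) :
    ((((sn g σ) : ℤˣ) : ℤ) : k) * augv k (g • σ) = augv k σ := by
  by_cases h : ∃ h : Gam, h • rp L6 = σ
  · obtain ⟨h, rfl⟩ := h
    rw [← mul_smul, augv_smul, augv_smul, sn_mul]
    push_cast
    rw [← mul_assoc, ← Int.cast_mul, sn_sq, Int.cast_one, one_mul]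
  · have h' : ¬ ∃ h : Gam, h • rp L6 = g • σ := by
      rintro ⟨h1, h2⟩
      exact h ⟨g⁻¹ * h1, by rw [mul_smul, h2, inv_smul_smul]⟩
    unfold augv
    rw [dif_neg h, dif_neg h', mul_zero]

theorem aug_ac (g : Gam) (z : Ch k) : aug k (ac k g z) = aug k z := by
  have : aug k ∘ₗ ac k g = aug k := by
    apply Finsupp.lhom_ext
    intro σ x
    rw [LinearMap.comp_apply, ac_single, aug_single, aug_single, ← augv_act g σ]
    rw [zsmul_eq_mul]; ring
  exact LinearMap.congr_fun this z

theorem aug_surj : Function.Surjective (fun z : {z : Ch k // OnDim 6 z} => aug k z.1) := by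
  intro x
  refine ⟨⟨Finsupp.single (rp L6) x, OnDim.single ⟨cell6, by decide +kernel⟩ x⟩, ?_⟩
  change aug k (Finsupp.single (rp L6) x) = x
  rw [aug_single]
  have := augv_smul (k := k) 1
  rw [one_smul, sn_one] at this
  rw [this]; simp

/-- boundary of a representative five-cell -/
theorem cof5_eq : cof (rp L5) = {vv ![1, 0, -1], vv ![1, -1, 1]} := by
  ext v
  rw [mem_cof5]
  simp [T5_6, or_comm]

/-- the two neighbours -/
def gA : Gam := mkG 1 (by decide +kernel)
def gB : Gam := mkG !![1, 0, 0; 0, 1, 1; 0, -1, 0] (by decide +kernel)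

theorem e1 : insert (vv ![1, 0, -1]) (rp L5) = gA • rp L6 := by decide +kernel
theorem e2 : insert (vv ![1, -1, 1]) (rp L5) = gB • rp L6 := by decide +kernel
theorem f1 : ep (vv ![1, 0, -1]) (rp L5) * sn gA (rp L6) =
    - (ep (vv ![1, -1, 1]) (rp L5) * sn gB (rp L6)) := by decide +kernel

theorem aug_bd_rep : aug k (bd k (Finsupp.single (rp L5) 1)) = 0 := by
  rw [bd_single]
  unfold bdGen
  have hne : vv ![1, 0, -1] ∉ ({vv ![1, -1, 1]} : Finset Ray) := by decide +kernel
  rw [cof5_eq, Finset.sum_insert hne, Finset.sum_singleton, map_add, aug_single, aug_single]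
  rw [e1, e2, augv_smul, augv_smul]
  have f2 : (((ep (vv ![1, 0, -1]) (rp L5) * sn gA (rp L6) : ℤˣ) : ℤ) : k) =
    (((- (ep (vv ![1, -1, 1]) (rp L5) * sn gB (rp L6)) : ℤˣ) : ℤ) : k) := by rw [f1]
  push_cast at f2
  simp only [zsmul_eq_mul, mul_one]
  rw [f2]; ring

theorem aug_bd {z : Ch k} (hz : OnDim 5 z) : aug k (bd k z) = 0 := by
  have h := Fam.eq_of_rep (M := k) (Representation.trivial k Gam k) F5 (f := aug k ∘ₗ bd k) (f' := 0) ?_ ?_ ?_ hz
  · simpa using h
  · intro g σ x _
    rw [LinearMap.comp_apply, LinearMap.comp_apply]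
    have := LinearMap.congr_fun (bd_ac (k := k) g) (Finsupp.single σ x)
    rw [LinearMap.comp_apply, LinearMap.comp_apply] at this
    rw [this, aug_ac]
    simp
  · intro g σ x _; simp
  · intro i
    exact aug_bd_rep (k := k)

theorem bd_six {z : Ch k} (hz : OnDim 6 z) : bd k z = 0 := by
  by_contra hne
  obtain ⟨σ, hσ⟩ := Finsupp.support_nonempty_iff.2 hne
  have h1 := hz.bd σ hσ
  have := h1.1.card_le
  rw [h1.2] at this
  omega

theorem cell_six {g : Gam} {σ : Finset Ray} (h : σ ⊆ Dc g) (hc : σ.card = 6) : σ = Dc g :=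
  Finset.eq_of_subset_of_card_le h (by rw [card_Dc, hc])

theorem exact_zero (z : Ch k) (hz : OnDim 6 z) (ha : aug k z = 0) :
    ∃ w : Ch k, OnDim 5 w ∧ bd k w = z := by
  have main : ∀ (n : ℕ) (g : Gam), mu g = n → ∀ z : Ch k, OnDim (5 + 1) z → aug k z = 0 →
      Below z g → (∃ σ ∈ z.support, IsTop g σ) → ∃ w : Ch k, OnDim 5 w ∧ bd k w = z := by
    intro n
    induction n using Nat.strong_induction_on with
    | _ n ih =>
      intro g hg z hz ha hb ⟨σ, hσ, htop⟩
      by_cases hj : ∃ j, lam g j < 0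
      · obtain ⟨j, hj⟩ := hj
        obtain ⟨w, hw, hw'⟩ := reduce hz (bd_six hz) hb hj
        by_cases h0 : z - bd k w = 0
        · exact ⟨w, hw, (sub_eq_zero.1 h0).symm⟩
        · obtain ⟨g1, hb1, τ, hτ, htop1⟩ := exists_top (hz.sub hw.bd) h0
          have hlt : ht g1 < ht g := hw' τ hτ g1 htop1.1
          obtain ⟨w', hw1, hw2⟩ := ih (mu g1) (by rw [← hg]; exact mu_lt hlt) g1 rfl (z - bd k w)
            (hz.sub hw.bd) (by rw [map_sub, ha, aug_bd hw, sub_zero]) hb1 ⟨τ, hτ, htop1⟩
          exact ⟨w + w', hw.add hw1, by rw [map_add, hw2]; abel⟩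
      · exfalso
        push Not at hj
        have hpos : ∀ j, 0 < lam g j := fun j => lt_of_le_of_ne (not_lt.1 (hj j)) (lam_ne g j).symm
        have hsupp : ∀ τ ∈ z.support, τ = Dc g := by
          intro τ hτ
          obtain ⟨h1, h2⟩ := hz τ hτ
          obtain ⟨g', hg'⟩ := isTop_exists h1
          have e1 : ht g' ≤ ht g := hb τ hτ g' hg'.1
          have e2 : ht g ≤ ht g' := min_of_pos hpos g'
          rw [cell_six hg'.1 h2]
          exact Dc_eq_of_ht (le_antisymm e1 e2)
        have hz1 : z = Finsupp.single (Dc g) (z (Dc g)) := by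
          ext τ
          by_cases hτ : τ = Dc g
          · rw [hτ, Finsupp.single_eq_same]
          · rw [Finsupp.single_eq_of_ne hτ]
            by_contra hne
            exact hτ (hsupp τ (Finsupp.mem_support_iff.2 hne))
        rw [hz1, aug_single, ← smul_rpL6, augv_smul] at ha
        have hu : ((((sn g (rp L6)) : ℤˣ) : ℤ) : k) ≠ 0 := by
          rcases Int.units_eq_one_or (sn g (rp L6)) with h | h <;> rw [h] <;> simp
        have h0 : z (Dc g) = 0 := by
          rw [← smul_rpL6]
          rcases mul_eq_zero.1 ha with h | h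
          · exact h
          · exact absurd h hu
        rw [h0, Finsupp.single_zero] at hz1
        rw [hz1] at hσ
        simp at hσ
  by_cases hz0 : z = 0
  · exact ⟨0, OnDim.zero 5, by rw [hz0, map_zero]⟩
  · obtain ⟨g1, hb1, hσ⟩ := exists_top hz hz0
    exact main (mu g1) g1 rfl z hz ha hb1 hσ

end

end Pool.Agent.H98
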