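import Pool.Agent.H98.Chains

/-!
`∂∂ = 0` and exactness of the cell complex in positive degrees.
-/

namespace Pool.Agent.H98

open Matrix

section
variable {k : Type} [Field k]

theorem OnDim.onCells {d : ℕ} {z : Ch k} (hz : OnDim d z) : OnCells z := fun σ h => (hz σ h).1

theorem bd_apply' {z : Ch k} {d : ℕ} (hz : OnDim d z) {τ ρ : Finset Ray} (hτ : IsCell τ) (hρ : ρ ⊆ τ) :
    bd k z ρ = ∑ v ∈ ρ, ((ep v (ρ.erase v) : ℤˣ) : ℤ) • z (ρ.erase v) := by
  by_cases h : IsCell ρ
  · exact bd_apply hz.onCells h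
  · have h1 : bd k z ρ = 0 := by
      by_contra hne
      exact h ((hz.bd) ρ (Finsupp.mem_support_iff.2 hne)).1
    rw [h1, Finset.sum_eq_zero]
    intro v _
    by_cases hz0 : z (ρ.erase v) = 0
    · rw [hz0, smul_zero]
    · exfalso
      apply h
      exact (hz _ (Finsupp.mem_support_iff.2 hz0)).1.mono hτ (Finset.erase_subset _ _) hρ

theorem bd_bd {z : Ch k} {d : ℕ} (hz : OnDim d z) : bd k (bd k z) = 0 := by
  ext τ
  rw [Finsupp.zero_apply]
  by_cases hτ : IsCell τ
  · rw [bd_apply hz.bd.onCells hτ]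
    have h1 : ∀ v ∈ τ, ((ep v (τ.erase v) : ℤˣ) : ℤ) • bd k z (τ.erase v) =
        ∑ w ∈ τ.erase v, ((ep v (τ.erase v) : ℤˣ) : ℤ) • (((ep w ((τ.erase v).erase w) : ℤˣ) : ℤ) •
          z ((τ.erase v).erase w)) := by
      intro v _
      rw [bd_apply' hz hτ (Finset.erase_subset _ _), Finset.smul_sum]
    rw [Finset.sum_congr rfl h1, Finset.sum_sigma']
    apply Finset.sum_involution (fun (a : (_ : Ray) × Ray) _ => (⟨a.2, a.1⟩ : (_ : Ray) × Ray))
    · rintro ⟨v, w⟩ hvw
      simp only [Finset.mem_sigma, Finset.mem_erase] at hvw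
      obtain ⟨hv, hwv, hw⟩ := hvw
      simp only
      set ρ := (τ.erase v).erase w with hρ
      have hρ2 : (τ.erase w).erase v = ρ := by rw [hρ, Finset.erase_right_comm]
      rw [hρ2]
      have hvρ : v ∉ ρ := by rw [hρ, Finset.mem_erase, Finset.mem_erase]; tauto
      have hwρ : w ∉ ρ := by rw [hρ, Finset.mem_erase]; tauto
      have e1 : τ.erase v = insert w ρ := by
        rw [hρ, Finset.insert_erase (Finset.mem_erase.2 ⟨hwv, hw⟩)]
      have e2 : τ.erase w = insert v ρ := by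
        rw [← hρ2, Finset.insert_erase (Finset.mem_erase.2 ⟨hwv.symm, hv⟩)]
      rw [e1, e2, ← mul_smul, ← mul_smul, ← add_smul]
      have h3 := ep_anti hvρ hwρ hwv.symm
      have h4 : ((ep v (insert w ρ) : ℤˣ) : ℤ) * ((ep w ρ : ℤˣ) : ℤ) =
          - (((ep w (insert v ρ) : ℤˣ) : ℤ) * ((ep v ρ : ℤˣ) : ℤ)) := by
        exact_mod_cast congrArg (fun u : ℤˣ => (u : ℤ)) h3
      rw [h4, neg_add_cancel, zero_smul]
    · rintro ⟨v, w⟩ hvw _ heq
      simp only [Finset.mem_sigma, Finset.mem_erase] at hvw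
      simp only [Sigma.mk.injEq, heq_eq_eq] at heq
      exact hvw.2.1 heq.1
    · rintro ⟨v, w⟩ hvw
      simp only [Finset.mem_sigma, Finset.mem_erase] at hvw ⊢
      tauto
    · rintro ⟨v, w⟩ _
      rfl
  · by_contra hne
    exact hτ ((hz.bd.bd) τ (Finsupp.mem_support_iff.2 hne)).1

/-- number of heights below that of `g` -/
noncomputable def mu (g : Gam) : ℕ := {x : Lam | x < ht g ∧ ∃ g', x = ht g'}.ncard

theorem mu_lt {g g' : Gam} (h : ht g' < ht g) : mu g' < mu g := by
  unfold mu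
  apply Set.ncard_lt_ncard
  · constructor
    · rintro x ⟨hx, hg⟩
      exact ⟨hx.trans h, hg⟩
    · intro hsub
      have := hsub (show ht g' ∈ {x : Lam | x < ht g ∧ ∃ g', x = ht g'} from ⟨h, g', rfl⟩)
      exact lt_irrefl _ this.1
  · apply (finite_below g).subset
    rintro x ⟨hx, hg⟩
    exact ⟨hx.le, hg⟩

/-- all cells of `z` lie at height at most that of `g` -/
def Below (z : Ch k) (g : Gam) : Prop := ∀ σ ∈ z.support, ∀ g', σ ⊆ Dc g' → ht g' ≤ ht g

/-- strictly below -/
def SBelow (z : Ch k) (g : Gam) : Prop := ∀ σ ∈ z.support, ∀ g', σ ⊆ Dc g' → ht g' < ht g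

/-- every nonzero chain has a highest top cone -/
theorem exists_top {z : Ch k} {d : ℕ} (hz : OnDim d z) (hne : z ≠ 0) :
    ∃ g, Below z g ∧ ∃ σ ∈ z.support, IsTop g σ := by
  classical
  have hne' : z.support.Nonempty := Finsupp.support_nonempty_iff.2 hne
  have hex : ∀ σ : Finset Ray, ∃ g, IsCell σ → IsTop g σ := by
    intro σ
    by_cases h : IsCell σ
    · obtain ⟨g, hg⟩ := isTop_exists h
      exact ⟨g, fun _ => hg⟩
    · exact ⟨1, fun h' => absurd h' h⟩
  choose tp htp using hex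
  obtain ⟨σ, hσ, hmax⟩ := Finset.exists_max_image z.support (fun σ => ht (tp σ)) hne'
  refine ⟨tp σ, ?_, σ, hσ, htp σ (hz σ hσ).1⟩
  intro τ hτ g' hg'
  exact ((htp τ (hz τ hτ).1).le hg').trans (hmax τ hτ)

/-- the elementary reduction: removing everything on top of `g` -/
theorem reduce {z : Ch k} {d : ℕ} (hz : OnDim (d + 1) z) (hcyc : bd k z = 0) {g : Gam}
    (hb : Below z g) {j : Fin 6} (hj : lam g j < 0) :
    ∃ w : Ch k, OnDim d w ∧ SBelow (z - bd k w) g := by
  classical
  set v0 := g • r j with hv0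
  set S := z.support.filter (fun σ => IsTop g σ ∧ v0 ∈ σ) with hS
  set w : Ch k := ∑ σ ∈ S, Finsupp.single (σ.erase v0)
    (((ep v0 (σ.erase v0) : ℤˣ) : ℤ) • z σ) with hw
  have hwtop : ∀ ρ ∈ w.support, IsTop g ρ ∧ ρ.card = d ∧ v0 ∉ ρ := by
    intro ρ hρ
    have h1 := Finsupp.support_finsetSum (s := S) (f := fun σ => Finsupp.single (σ.erase v0)
      (((ep v0 (σ.erase v0) : ℤˣ) : ℤ) • z σ)) hρ
    rw [Finset.mem_biUnion] at h1
    obtain ⟨σ, hσ, h2⟩ := h1
    have h3 := Finsupp.support_single_subset h2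
    rw [Finset.mem_singleton] at h3
    rw [hS, Finset.mem_filter] at hσ
    obtain ⟨hσ1, hσ2, hσ3⟩ := hσ
    rw [h3]
    refine ⟨hσ2.erase hj, ?_, Finset.notMem_erase _ _⟩
    rw [Finset.card_erase_of_mem hσ3, (hz σ hσ1).2]; rfl
  have hwdim : OnDim d w := fun ρ hρ => ⟨(hwtop ρ hρ).1.isCell, (hwtop ρ hρ).2.1⟩
  -- values of `w` on faces of cells over `g`
  have hwval : ∀ τ, IsTop g τ → v0 ∈ τ → w (τ.erase v0) = ((ep v0 (τ.erase v0) : ℤˣ) : ℤ) • z τ := by
    intro τ hτ hv
    rw [hw, Finsupp.finsetSum_apply]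
    by_cases hz0 : z τ = 0
    · rw [hz0, smul_zero, Finset.sum_eq_zero]
      intro σ hσ
      rw [Finsupp.single_eq_of_ne]
      intro hh
      rw [hS, Finset.mem_filter] at hσ
      have : σ = τ := by
        rw [← Finset.insert_erase hσ.2.2, ← hh, Finset.insert_erase hv]
      rw [this, Finsupp.mem_support_iff] at hσ
      exact hσ.1 hz0
    · rw [Finset.sum_eq_single τ]
      · rw [Finsupp.single_eq_same]
      · intro σ hσ hne
        rw [Finsupp.single_eq_of_ne]
        intro hh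
        apply hne
        rw [hS, Finset.mem_filter] at hσ
        rw [← Finset.insert_erase hσ.2.2, ← hh, Finset.insert_erase hv]
      · intro h
        exfalso; apply h
        rw [hS, Finset.mem_filter]
        exact ⟨Finsupp.mem_support_iff.2 hz0, hτ, hv⟩
  have hbw : Below (bd k w) g := by
    intro τ hτ g' hg'
    have hcell := (hwdim.bd τ hτ).1
    rw [Finsupp.mem_support_iff, bd_apply hwdim.onCells hcell] at hτ
    obtain ⟨v, hv, hne⟩ := Finset.exists_ne_zero_of_sum_ne_zero hτ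
    have hne' : w (τ.erase v) ≠ 0 := by
      intro h0; rw [h0, smul_zero] at hne; exact hne rfl
    exact ((hwtop _ (Finsupp.mem_support_iff.2 hne')).1.le ((Finset.erase_subset _ _).trans hg'))
  set z1 := z - bd k w with hz1
  have hz1dim : OnDim (d + 1) z1 := hz.sub hwdim.bd
  have hz1b : Below z1 g := by
    intro τ hτ g' hg'
    have := Finsupp.support_sub hτ
    rw [Finset.mem_union] at this
    rcases this with h | h
    · exact hb τ h g' hg'
    · exact hbw τ h g' hg'
  have hz1cyc : bd k z1 = 0 := by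
    rw [hz1, map_sub, hcyc, bd_bd hwdim, sub_zero]
  -- Claim A
  have hA : ∀ τ, IsTop g τ → v0 ∈ τ → z1 τ = 0 := by
    intro τ hτ hv
    rw [hz1, Finsupp.sub_apply, bd_apply hwdim.onCells hτ.isCell, Finset.sum_eq_single v0]
    · rw [hwval τ hτ hv, ← mul_smul, ep_sq, one_smul, sub_self]
    · intro v _ hne
      have : w (τ.erase v) = 0 := by
        by_contra h0
        exact (hwtop _ (Finsupp.mem_support_iff.2 h0)).2.2 (Finset.mem_erase.2 ⟨hne.symm, hv⟩)
      rw [this, smul_zero]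
    · intro h; exact absurd hv h
  -- Claim B
  have hB : ∀ τ, IsTop g τ → v0 ∉ τ → z1 τ = 0 := by
    intro τ hτ hv
    have hω : IsTop g (insert v0 τ) := hτ.insert j
    have h0 : bd k z1 (insert v0 τ) = 0 := by rw [hz1cyc]; rfl
    rw [bd_apply hz1dim.onCells hω.isCell, Finset.sum_eq_single v0] at h0
    · rw [Finset.erase_insert hv] at h0
      have := congrArg (fun x => ((ep v0 τ : ℤˣ) : ℤ) • x) h0
      simp only [← mul_smul, ep_sq, one_smul, smul_zero] at this
      exact this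
    · intro v hvτ hne
      have hz10 : z1 ((insert v0 τ).erase v) = 0 := by
        by_contra h1
        have hmem := Finsupp.mem_support_iff.2 h1
        have hsub : (insert v0 τ).erase v ⊆ Dc g := (Finset.erase_subset _ _).trans hω.1
        have htop : IsTop g ((insert v0 τ).erase v) :=
          isTop_of_max hsub (fun g' hg' => hz1b _ hmem g' hg')
        exact h1 (hA _ htop (Finset.mem_erase.2 ⟨hne.symm, Finset.mem_insert_self _ _⟩))
      rw [hz10, smul_zero]
    · intro h; exact absurd (Finset.mem_insert_self _ _) h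
  refine ⟨w, hwdim, ?_⟩
  intro τ hτ g' hg'
  rcases (hz1b τ hτ g' hg').lt_or_eq with h | h
  · exact h
  · exfalso
    have hD := Dc_eq_of_ht h
    have htop : IsTop g τ :=
      isTop_of_max (by rw [← hD]; exact hg') (fun g'' h'' => hz1b τ hτ g'' h'')
    rw [Finsupp.mem_support_iff] at hτ
    by_cases hv : v0 ∈ τ
    · exact hτ (hA τ htop hv)
    · exact hτ (hB τ htop hv)

/-- Exactness in positive degrees. -/
theorem exact_pos {d : ℕ} (hd : d + 1 < 6) (z : Ch k) (hz : OnDim (d + 1) z) (hcyc : bd k z = 0) :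
    ∃ w : Ch k, OnDim d w ∧ bd k w = z := by
  have main : ∀ (n : ℕ) (g : Gam), mu g = n → ∀ z : Ch k, OnDim (d + 1) z → bd k z = 0 →
      SBelow z g → ∃ w : Ch k, OnDim d w ∧ bd k w = z := by
    intro n
    induction n using Nat.strong_induction_on with
    | _ n ih =>
      intro g hg z hz hcyc hb
      by_cases hz0 : z = 0
      · exact ⟨0, OnDim.zero d, by rw [hz0, map_zero]⟩
      · obtain ⟨g1, hb1, σ, hσ, htop⟩ := exists_top hz hz0
        have hlt : ht g1 < ht g := hb σ hσ g1 htop.1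
        have hcard : σ.card < (Dc g1).card := by
          rw [card_Dc, (hz σ hσ).2]; exact hd
        obtain ⟨S, hS, hSσ⟩ := Finset.exists_mem_notMem_of_card_lt_card hcard
        obtain ⟨j, rfl⟩ := mem_Dc.1 hS
        have hj := htop.2 j hSσ
        obtain ⟨w, hw, hw'⟩ := reduce hz hcyc hb1 hj
        obtain ⟨w', hw1, hw2⟩ := ih (mu g1) (by rw [← hg]; exact mu_lt hlt) g1 rfl (z - bd k w)
          (hz.sub hw.bd) (by rw [map_sub, hcyc, bd_bd hw, sub_zero]) hw'
        exact ⟨w + w', hw.add hw1, by rw [map_add, hw2]; abel⟩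
  by_cases hz0 : z = 0
  · exact ⟨0, OnDim.zero d, by rw [hz0, map_zero]⟩
  · obtain ⟨g1, hb1, σ, hσ, htop⟩ := exists_top hz hz0
    have hcard : σ.card < (Dc g1).card := by
      rw [card_Dc, (hz σ hσ).2]; exact hd
    obtain ⟨S, hS, hSσ⟩ := Finset.exists_mem_notMem_of_card_lt_card hcard
    obtain ⟨j, rfl⟩ := mem_Dc.1 hS
    have hj := htop.2 j hSσ
    obtain ⟨w, hw, hw'⟩ := reduce hz hcyc hb1 hj
    obtain ⟨w', hw1, hw2⟩ := main (mu g1) g1 rfl (z - bd k w)
      (hz.sub hw.bd) (by rw [map_sub, hcyc, bd_bd hw, sub_zero]) hw'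
    exact ⟨w + w', hw.add hw1, by rw [map_add, hw2]; abel⟩

/-- Injectivity in top degree (cells with three rays). -/
theorem inj_top (z : Ch k) (hz : OnDim 3 z) (hcyc : bd k z = 0) : z = 0 := by
  obtain ⟨w, hw, h⟩ := exact_pos (d := 2) (by norm_num) z hz hcyc
  have : w = 0 := by
    by_contra hne
    obtain ⟨σ, hσ⟩ := Finsupp.support_nonempty_iff.2 hne
    have := (hw σ hσ).1.card_ge
    rw [(hw σ hσ).2] at this
    omega
  rw [← h, this, map_zero]

end

end Pool.Agent.H98
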