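import Pool.Agent.H98.Orbits
import Pool.Agent.H98.Exact

/-!
Averaging over transporters: equivariant maps out of the cell modules with prescribed values.
-/

namespace Pool.Agent.H98

open Matrix

section
variable {k : Type} [Field k] {M : Type} [AddCommGroup M] [Module k M] (ρ : Representation k Gam M)

/-- sign as an integer acting -/
noncomputable def val (D : RD) (m : M) (σ : Finset Ray) : M :=
  ∑ g ∈ D.tra σ, ((sn g (rp D.L) : ℤˣ) : ℤ) • ρ g m

/-- the averaged map -/
noncomputable def avg (D : RD) (m : M) : Ch k →ₗ[k] M := Finsupp.linearCombination k (val ρ D m)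

theorem avg_single (D : RD) (m : M) (σ : Finset Ray) (x : k) :
    avg ρ D m (Finsupp.single σ x) = x • val ρ D m σ := by
  unfold avg; rw [Finsupp.linearCombination_single]

theorem sn_sq (g : Gam) (σ : Finset Ray) : ((sn g σ : ℤˣ) : ℤ) * ((sn g σ : ℤˣ) : ℤ) = 1 := by
  rw [← Units.val_mul, Int.units_mul_self]; rfl

theorem val_smul (D : RD) (m : M) (h : Gam) (σ : Finset Ray) :
    val ρ D m (h • σ) = ((sn h σ : ℤˣ) : ℤ) • ρ h (val ρ D m σ) := by
  unfold val
  rw [D.tra_smul, Finset.sum_image (fun a _ b _ hab => mul_left_cancel hab), map_sum, Finset.smul_sum]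
  apply Finset.sum_congr rfl
  intro g hg
  rw [D.mem_tra] at hg
  rw [sn_mul, hg, map_mul, map_zsmul, smul_smul]
  push_cast
  rfl

theorem avg_ac (D : RD) (m : M) (h : Gam) (z : Ch k) : avg ρ D m (ac k h z) = ρ h (avg ρ D m z) := by
  have : avg ρ D m ∘ₗ ac k h = ρ h ∘ₗ avg ρ D m := by
    apply Finsupp.lhom_ext
    intro σ x
    rw [LinearMap.comp_apply, LinearMap.comp_apply, ac_single, avg_single, avg_single, val_smul,
      map_smul, smul_assoc, smul_comm x, smul_smul, sn_sq, one_smul]
  exact LinearMap.congr_fun this z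

theorem val_zero_of (D : RD) (m : M) {σ : Finset Ray} (h : ¬ ∃ g : Gam, g • rp D.L = σ) :
    val ρ D m σ = 0 := by
  unfold val
  rw [show D.tra σ = ∅ from ?_, Finset.sum_empty]
  rw [Finset.eq_empty_iff_forall_notMem]
  intro g hg
  exact h ⟨g, D.mem_tra.1 hg⟩

/-- twisted invariance of a vector under a stabiliser -/
def Inv (D : RD) (m : M) : Prop := ∀ s ∈ D.stab, ((sn s (rp D.L) : ℤˣ) : ℤ) • ρ s m = m

theorem val_rep (D : RD) {m : M} (hm : Inv ρ D m) : val ρ D m (rp D.L) = (D.S.length : k) • m := by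
  unfold val
  have h1 : D.tra (rp D.L) = D.stab := by
    have := D.tra_eq 1
    rw [one_smul] at this
    rw [this]; simp
  rw [h1, Finset.sum_congr rfl (fun s hs => hm s hs), Finset.sum_const, D.card_stab]
  exact (Nat.cast_smul_eq_nsmul k _ _).symm

theorem val_inv (D : RD) (m : M) : Inv ρ D (val ρ D m (rp D.L)) := by
  intro s hs
  have := val_smul ρ D m s (rp D.L)
  rw [D.mem_stab.1 hs] at this
  exact this.symm

end

/-- a family of representatives of the cells with `d` rays -/
structure Fam (ι : Type) [Fintype ι] [DecidableEq ι] (d : ℕ) where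
  D : ι → RD
  card : ∀ i, (rp (D i).L).card = d
  ex : ∀ σ, IsCell σ → σ.card = d → ∃ i, ∃ g : Gam, σ = g • rp (D i).L
  disj : ∀ i j, ∀ g : Gam, g • rp (D i).L = rp (D j).L → i = j

def F6 : Fam Unit 6 where
  D := fun _ => R6
  card := fun _ => by decide +kernel
  ex := fun σ h hc => ⟨(), orbit6 h hc⟩
  disj := fun _ _ _ _ => rfl

def F5 : Fam Unit 5 where
  D := fun _ => R5
  card := fun _ => by decide +kernel
  ex := fun σ h hc => ⟨(), orbit5 h hc⟩
  disj := fun _ _ _ _ => rfl

def F4 : Fam Bool 4 where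
  D := fun b => bif b then R4c else R4p
  card := fun b => by cases b <;> decide +kernel
  ex := fun σ h hc => by
    rcases orbit4 h hc with h | h
    · exact ⟨true, h⟩
    · exact ⟨false, h⟩
  disj := fun i j g h => by
    cases i <;> cases j
    · rfl
    · exact absurd h (not_same_orbit g)
    · exfalso
      apply not_same_orbit g⁻¹
      have h' : g • rp L4c = rp L4p := h
      rw [← h', inv_smul_smul]
    · rfl

def F3 : Fam Unit 3 where
  D := fun _ => R3
  card := fun _ => by decide +kernel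
  ex := fun σ h hc => ⟨(), orbit3 h hc⟩
  disj := fun _ _ _ _ => rfl

section
variable {k : Type} [Field k] {M : Type} [AddCommGroup M] [Module k M] (ρ : Representation k Gam M)
variable {ι : Type} [Fintype ι] [DecidableEq ι] {d : ℕ} (F : Fam ι d)

/-- cell with `d` rays -/
def CellD (d : ℕ) (σ : Finset Ray) : Prop := IsCell σ ∧ σ.card = d

theorem Fam.cell (i : ι) : CellD d (rp (F.D i).L) := ⟨(F.D i).cell, F.card i⟩

/-- the equivariant map with prescribed (not necessarily invariant) values at representatives,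
averaged. -/
noncomputable def Fam.ext (m : ι → M) : Ch k →ₗ[k] M :=
  ∑ i, ((((F.D i).S.length : k))⁻¹) • avg ρ (F.D i) (m i)

theorem Fam.ext_ac (m : ι → M) (h : Gam) (z : Ch k) : F.ext ρ m (ac k h z) = ρ h (F.ext ρ m z) := by
  unfold Fam.ext
  simp only [LinearMap.sum_apply, LinearMap.smul_apply, avg_ac, map_sum, map_smul]

theorem Fam.ext_single (m : ι → M) (i : ι) (g : Gam) (x : k) :
    F.ext ρ m (Finsupp.single (g • rp (F.D i).L) x) =
      ((((F.D i).S.length : k))⁻¹ * x) • val ρ (F.D i) (m i) (g • rp (F.D i).L) := by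
  unfold Fam.ext
  rw [LinearMap.sum_apply, Finset.sum_eq_single i]
  · rw [LinearMap.smul_apply, avg_single, smul_smul]
  · intro j _ hj
    rw [LinearMap.smul_apply, avg_single, val_zero_of, smul_zero, smul_zero]
    rintro ⟨g', hg'⟩
    apply hj
    apply F.disj j i (g⁻¹ * g')
    rw [mul_smul, hg', inv_smul_smul]
  · intro h; exact absurd (Finset.mem_univ i) h

theorem Fam.ext_rep (m : ι → M) (hm : ∀ i, Inv ρ (F.D i) (m i))
    (hN : ∀ i, ((F.D i).S.length : k) ≠ 0) (i : ι) :
    F.ext ρ m (Finsupp.single (rp (F.D i).L) 1) = m i := by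
  have := F.ext_single ρ m i 1 (1 : k)
  rw [one_smul] at this
  rw [this, val_rep ρ (F.D i) (hm i), mul_one, smul_smul, inv_mul_cancel₀ (hN i), one_smul]

/-- an equivariant function on chains with `d` rays is determined by its values at
representatives -/
theorem Fam.eq_of_rep {f f' : Ch k →ₗ[k] M}
    (hf : ∀ (g : Gam) (σ : Finset Ray) (x : k), CellD d σ → f (ac k g (Finsupp.single σ x)) = ρ g (f (Finsupp.single σ x)))
    (hf' : ∀ (g : Gam) (σ : Finset Ray) (x : k), CellD d σ → f' (ac k g (Finsupp.single σ x)) = ρ g (f' (Finsupp.single σ x)))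
    (h : ∀ i, f (Finsupp.single (rp (F.D i).L) 1) = f' (Finsupp.single (rp (F.D i).L) 1))
    {z : Ch k} (hz : OnDim d z) : f z = f' z := by
  have hsum : z = ∑ σ ∈ z.support, Finsupp.single σ (z σ) := (Finsupp.sum_single z).symm
  rw [hsum, map_sum, map_sum]
  apply Finset.sum_congr rfl
  intro σ hσ
  obtain ⟨h1, h2⟩ := hz σ hσ
  obtain ⟨i, g, hg⟩ := F.ex σ h1 h2
  have e1 : Finsupp.single σ (z σ) =
      z σ • ((((sn g (rp (F.D i).L) : ℤˣ) : ℤ)) • ac k g (Finsupp.single (rp (F.D i).L) (1 : k))) := by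
    rw [ac_single, Finsupp.smul_single, smul_smul, sn_sq, one_smul, Finsupp.smul_single, ← hg,
      smul_eq_mul, mul_one]
  rw [e1, map_smul f, map_smul f', map_zsmul f, map_zsmul f', hf g _ _ (F.cell i), hf' g _ _ (F.cell i), h i]

end

/-- the order condition -/
theorem card_ne {k : Type} [Field k] (h6 : (6 : k) ≠ 0) :
    (∀ i, ((F6.D i).S.length : k) ≠ 0) ∧ (∀ i, ((F5.D i).S.length : k) ≠ 0) ∧
    (∀ i, ((F4.D i).S.length : k) ≠ 0) ∧ (∀ i, ((F3.D i).S.length : k) ≠ 0) := by
  have h2 : (2 : k) ≠ 0 := by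
    intro h; apply h6
    have : (6 : k) = 2 * 3 := by norm_num
    rw [this, h, zero_mul]
  have h3 : (3 : k) ≠ 0 := by
    intro h; apply h6
    have : (6 : k) = 2 * 3 := by norm_num
    rw [this, h, mul_zero]
  have e24 : ((24 : ℕ) : k) ≠ 0 := by
    have : ((24 : ℕ) : k) = 2 * 2 * 2 * 3 := by norm_num
    rw [this]
    exact mul_ne_zero (mul_ne_zero (mul_ne_zero h2 h2) h2) h3
  have e8 : ((8 : ℕ) : k) ≠ 0 := by
    have : ((8 : ℕ) : k) = 2 * 2 * 2 := by norm_num
    rw [this]
    exact mul_ne_zero (mul_ne_zero h2 h2) h2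
  have e12 : ((12 : ℕ) : k) ≠ 0 := by
    have : ((12 : ℕ) : k) = 2 * 2 * 3 := by norm_num
    rw [this]
    exact mul_ne_zero (mul_ne_zero h2 h2) h3
  refine ⟨fun _ => ?_, fun _ => ?_, fun i => ?_, fun _ => ?_⟩
  · have : (F6.D ()).S.length = 24 := by decide +kernel
    rw [show ((F6.D _).S.length) = 24 from this]; exact e24
  · have : (F5.D ()).S.length = 8 := by decide +kernel
    rw [show ((F5.D _).S.length) = 8 from this]; exact e8
  · cases i
    · have : (F4.D false).S.length = 12 := by decide +kernel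
      rw [this]; exact e12
    · have : (F4.D true).S.length = 24 := by decide +kernel
      rw [this]; exact e24
  · have : (F3.D ()).S.length = 24 := by decide +kernel
    rw [show ((F3.D _).S.length) = 24 from this]; exact e24

end Pool.Agent.H98
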