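import Pool.Agent.H98.Heights

/-!
Cells: subsets of perfect cones containing a frame.  Top cones of cells.
-/

namespace Pool.Agent.H98

open Matrix

instance : SMul Gam (Finset Ray) := ⟨fun g σ => σ.image (fun S => g • S)⟩

theorem fsmul_def (g : Gam) (σ : Finset Ray) : g • σ = σ.image (fun S => g • S) := rfl

instance : MulAction Gam (Finset Ray) where
  one_smul σ := by rw [fsmul_def]; simp
  mul_smul g h σ := by
    rw [fsmul_def, fsmul_def, fsmul_def, Finset.image_image]
    congr 1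
    funext S
    exact mul_smul g h S

theorem mem_fsmul {g : Gam} {σ : Finset Ray} {S : Ray} : S ∈ g • σ ↔ g⁻¹ • S ∈ σ := by
  rw [fsmul_def, Finset.mem_image]
  constructor
  · rintro ⟨T, hT, rfl⟩; rwa [inv_smul_smul]
  · intro h; exact ⟨_, h, smul_inv_smul g S⟩

theorem smul_mem_fsmul {g : Gam} {σ : Finset Ray} {S : Ray} : g • S ∈ g • σ ↔ S ∈ σ := by
  rw [mem_fsmul, inv_smul_smul]

theorem card_fsmul (g : Gam) (σ : Finset Ray) : (g • σ).card = σ.card := by
  rw [fsmul_def, Finset.card_image_of_injective _ (MulAction.injective g)]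

theorem smul_Dc (g h : Gam) : g • Dc h = Dc (g * h) := by
  unfold Dc
  rw [fsmul_def, Finset.image_image]
  congr 1
  funext i
  exact (mul_smul g h (r i)).symm

theorem fsmul_subset {g : Gam} {σ τ : Finset Ray} (h : σ ⊆ τ) : g • σ ⊆ g • τ := by
  rw [fsmul_def, fsmul_def]; exact Finset.image_subset_image h

/-- frames -/
def frame (h : Gam) : Finset Ray := {h • r 0, h • r 1, h • r 2}

theorem smul_frame (g h : Gam) : g • frame h = frame (g * h) := by
  unfold frame
  rw [fsmul_def]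
  simp [Finset.image_insert, mul_smul]

theorem card_frame (h : Gam) : (frame h).card = 3 := by
  unfold frame
  rw [Finset.card_insert_of_notMem, Finset.card_insert_of_notMem, Finset.card_singleton]
  · simp; intro hh; exact absurd (r_inj hh) (by decide)
  · simp; constructor
    · intro hh; exact absurd (r_inj hh) (by decide)
    · intro hh; exact absurd (r_inj hh) (by decide)

/-- Cells: subsets of a perfect cone containing a frame. -/
def IsCell (σ : Finset Ray) : Prop := (∃ g, σ ⊆ Dc g) ∧ ∃ h, frame h ⊆ σ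

theorem IsCell.smul {σ : Finset Ray} (h : IsCell σ) (g : Gam) : IsCell (g • σ) := by
  obtain ⟨⟨g', h1⟩, ⟨h', h2⟩⟩ := h
  exact ⟨⟨g * g', by rw [← smul_Dc]; exact fsmul_subset h1⟩,
    ⟨g * h', by rw [← smul_frame]; exact fsmul_subset h2⟩⟩

theorem isCell_smul_iff {σ : Finset Ray} {g : Gam} : IsCell (g • σ) ↔ IsCell σ := by
  constructor
  · intro h; have := h.smul g⁻¹; rwa [inv_smul_smul] at this
  · intro h; exact h.smul g

theorem IsCell.mono {σ τ ω : Finset Ray} (h : IsCell σ) (h' : IsCell ω) (h1 : σ ⊆ τ) (h2 : τ ⊆ ω) :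
    IsCell τ := by
  obtain ⟨_, ⟨f, hf⟩⟩ := h
  obtain ⟨⟨g, hg⟩, _⟩ := h'
  exact ⟨⟨g, h2.trans hg⟩, ⟨f, hf.trans h1⟩⟩

theorem IsCell.card_ge {σ : Finset Ray} (h : IsCell σ) : 3 ≤ σ.card := by
  obtain ⟨_, ⟨f, hf⟩⟩ := h
  rw [← card_frame f]; exact Finset.card_le_card hf

theorem IsCell.card_le {σ : Finset Ray} (h : IsCell σ) : σ.card ≤ 6 := by
  obtain ⟨⟨g, hg⟩, _⟩ := h
  rw [← card_Dc g]; exact Finset.card_le_card hg

theorem isCell_Dc (g : Gam) : IsCell (Dc g) := by
  refine ⟨⟨g, subset_rfl⟩, ⟨g, ?_⟩⟩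
  intro S hS
  unfold frame at hS
  simp only [Finset.mem_insert, Finset.mem_singleton] at hS
  rcases hS with rfl | rfl | rfl <;> exact mem_Dc.2 ⟨_, rfl⟩

/-- `g` is a top cone of `σ`. -/
def IsTop (g : Gam) (σ : Finset Ray) : Prop := σ ⊆ Dc g ∧ ∀ i, g • r i ∉ σ → lam g i < 0

theorem IsTop.isCell {g : Gam} {σ : Finset Ray} (h : IsTop g σ) : IsCell σ := by
  classical
  refine ⟨⟨g, h.1⟩, ?_⟩
  set I : Finset (Fin 6) := Finset.univ.filter (fun i => g • r i ∉ σ) with hI
  have h1 : ∀ j, ¬ cut j ⊆ I := no_cut g (fun i hi => h.2 i (by simpa [hI] using hi))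
  obtain ⟨j, hj⟩ := exists_tree I h1
  refine ⟨g * tr j, ?_⟩
  rw [← smul_frame]
  intro S hS
  rw [mem_fsmul] at hS
  have h2 : ∃ i : Fin 6, (i = 0 ∨ i = 1 ∨ i = 2) ∧ g⁻¹ • S = tr j • r i := by
    unfold frame at hS
    simp only [Finset.mem_insert, Finset.mem_singleton] at hS
    rcases hS with h | h | h
    · exact ⟨0, by simp, h⟩
    · exact ⟨1, by simp, h⟩
    · exact ⟨2, by simp, h⟩
  obtain ⟨i, hi, h3⟩ := h2
  obtain ⟨l, hl, h4⟩ := tr_spec j i hi
  rw [h4] at h3
  have h5 : l ∉ I := fun hlI => (Finset.disjoint_left.1 hj) hl hlI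
  have h6 : g • r l ∈ σ := by
    by_contra hcon
    exact h5 (by simp [hI, hcon])
  rw [← h3, smul_inv_smul] at h6
  exact h6

theorem term_nonneg {n : ℤ} {x : Lam} (hn : 0 ≤ n) (hx : 0 ≤ x) : 0 ≤ n • x := zsmul_nonneg hx hn

theorem term_nonpos {n : ℤ} {x : Lam} (hn : 0 ≤ n) (hx : x ≤ 0) : n • x ≤ 0 := by
  have := term_nonneg hn (neg_nonneg.2 hx)
  rw [zsmul_neg] at this
  exact neg_nonneg.1 this

theorem IsTop.le {g g' : Gam} {σ : Finset Ray} (h : IsTop g σ) (h' : σ ⊆ Dc g') : ht g' ≤ ht g := by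
  rw [← sub_nonpos, ht_sub]
  apply Finset.sum_nonpos
  intro i _
  by_cases hi : g • r i ∈ σ
  · rw [Q_of_mem (h' hi)]; simp
  · exact term_nonpos (sub_nonneg.2 (Q_r_pos g g' i)) (h.2 i hi).le

theorem IsTop.unique {g g' : Gam} {σ : Finset Ray} (h : IsTop g σ) (h' : σ ⊆ Dc g')
    (he : ht g' = ht g) : Dc g = Dc g' := by
  apply Dc_eq_of_Q
  intro i
  by_cases hi : g • r i ∈ σ
  · exact Q_of_mem (h' hi)
  · have h0 : ∑ i, (Q g' (g • r i) - 1) • lam g i = 0 := by rw [← ht_sub, he, sub_self]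
    have hle : ∀ i ∈ Finset.univ, (Q g' (g • r i) - 1) • lam g i ≤ 0 := by
      intro i _
      by_cases hi : g • r i ∈ σ
      · rw [Q_of_mem (h' hi)]; simp
      · exact term_nonpos (sub_nonneg.2 (Q_r_pos g g' i)) (h.2 i hi).le
    have h1 := (Finset.sum_eq_zero_iff_of_nonpos hle).1 h0 i (Finset.mem_univ i)
    by_contra hne
    have hpos : 0 < Q g' (g • r i) - 1 := by
      have := Q_r_pos g g' i
      omega
    have : (Q g' (g • r i) - 1) • lam g i < 0 := by
      have := zsmul_pos (neg_pos.2 (h.2 i hi)) hpos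
      rw [zsmul_neg] at this
      exact neg_pos.1 this
    rw [h1] at this
    exact lt_irrefl _ this

theorem IsTop.unique' {g g' : Gam} {σ : Finset Ray} (h : IsTop g σ) (h' : IsTop g' σ) :
    Dc g = Dc g' :=
  h.unique h'.1 (le_antisymm (h.le h'.1) (h'.le h.1))

/-- Heights of cones containing a fixed frame form a finite set. -/
theorem finite_frame (f : Gam) : {x : Lam | ∃ g, frame f ⊆ Dc g ∧ x = ht g}.Finite := by
  have hfin : (Set.Icc (fun _ => 1 : Fin 6 → ℤ) (fun _ => 3)).Finite := Set.finite_Icc _ _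
  apply (hfin.image (fun c : Fin 6 → ℤ => ht f + ∑ i, (c i - 1) • lam f i)).subset
  rintro x ⟨g, hg, rfl⟩
  refine ⟨fun i => Q g (f • r i), ?_, ?_⟩
  · have h0 : Q g (f • r 0) = 1 := Q_of_mem (hg (by unfold frame; simp))
    have h1 : Q g (f • r 1) = 1 := Q_of_mem (hg (by unfold frame; simp))
    have h2 : Q g (f • r 2) = 1 := Q_of_mem (hg (by unfold frame; simp))
    have hp : ∀ i, 1 ≤ Q g (f • r i) := fun i => Q_r_pos f g i
    have par : ∀ (a b : Fin 3 → ℤ), Q g (f • vv (a - b)) =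
        2 * (Q g (f • vv a) + Q g (f • vv b)) - Q g (f • vv (a + b)) := by
      intro a b
      have e : vv (a - b) + vv (a + b) = (2 : ℤ) • vv a + (2 : ℤ) • vv b := by
        apply Ray.ext'
        intro i j
        rw [mat_add, mat_add, mat_zsmul, mat_zsmul]
        simp only [vv_mat, Matrix.add_apply, Matrix.vecMulVec_apply, Matrix.smul_apply,
          Pi.add_apply, Pi.sub_apply, smul_eq_mul]
        ring
      have e2 := congrArg (fun S => Q g (f • S)) e
      simp only [smul_add, smul_zsmul', Q_add, Q_zsmul] at e2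
      linarith
    have hb : ∀ (i a b : Fin 6), w i = w a - w b → w a + w b ≠ 0 → Q g (f • r a) = 1 →
        Q g (f • r b) = 1 → Q g (f • r i) ≤ 3 := by
      intro i a b hw hne ha hb
      have e := par (w a) (w b)
      rw [← hw] at e
      have hpos : 1 ≤ Q g (f • vv (w a + w b)) := by
        rw [smul_vv]; exact Q_vv_pos _ (mulVec_ne hne)
      have e1 : Q g (f • vv (w i)) = Q g (f • r i) := rfl
      have e2 : Q g (f • vv (w a)) = Q g (f • r a) := rfl
      have e3 : Q g (f • vv (w b)) = Q g (f • r b) := rfl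
      rw [e1, e2, e3, ha, hb] at e
      linarith
    rw [Set.mem_Icc]
    refine ⟨fun i => hp i, fun i => ?_⟩
    fin_cases i
    · change Q g (f • r 0) ≤ 3; rw [h0]; norm_num
    · change Q g (f • r 1) ≤ 3; rw [h1]; norm_num
    · change Q g (f • r 2) ≤ 3; rw [h2]; norm_num
    · exact hb 3 0 1 (by decide) (by decide) h0 h1
    · exact hb 4 1 2 (by decide) (by decide) h1 h2
    · exact hb 5 0 2 (by decide) (by decide) h0 h2
  · simp only
    rw [← ht_sub]; abel

theorem isTop_exists {σ : Finset Ray} (h : IsCell σ) : ∃ g, IsTop g σ := by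
  obtain ⟨⟨g0, hg0⟩, ⟨f, hf⟩⟩ := h
  have hfin : {x : Lam | ∃ g, σ ⊆ Dc g ∧ x = ht g}.Finite := by
    apply (finite_frame f).subset
    rintro x ⟨g, hg, rfl⟩
    exact ⟨g, hf.trans hg, rfl⟩
  obtain ⟨x, hx, hmax⟩ := Set.exists_max_image _ id hfin ⟨ht g0, g0, hg0, rfl⟩
  obtain ⟨g, hg, rfl⟩ := hx
  refine ⟨g, hg, ?_⟩
  intro i hi
  have hsub : σ ⊆ Dc (g * fl i) := by
    intro S hS
    obtain ⟨l, rfl⟩ := mem_Dc.1 (hg hS)
    have hl : l ≠ i := by rintro rfl; exact hi hS
    rw [← smul_Dc, smul_mem_fsmul]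
    exact fl_spec i l hl
  have h1 : ht (g * fl i) ≤ ht g := hmax _ ⟨g * fl i, hsub, rfl⟩
  have h2 : ht (g * fl i) - ht g = (Q (g * fl i) (g • r i) - 1) • lam g i := by
    rw [ht_sub]
    apply Finset.sum_eq_single i
    · intro l _ hl
      have : Q (g * fl i) (g • r l) = 1 := by
        apply Q_of_mem
        rw [← smul_Dc, smul_mem_fsmul]
        exact fl_spec i l hl
      rw [this]; simp
    · simp
  have h3 : 0 < Q (g * fl i) (g • r i) - 1 := by
    have e1 := Q_r_pos g (g * fl i) i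
    have e2 : Q (g * fl i) (g • r i) ≠ 1 := by
      rw [smul_r_eq]
      apply Q_ne_one_of_not_mem
      rw [← smul_r_eq, ← smul_Dc, smul_mem_fsmul]
      exact fl_not_mem i
    omega
  rw [← sub_nonpos, h2] at h1
  rcases lt_trichotomy (lam g i) 0 with h4 | h4 | h4
  · exact h4
  · exact absurd h4 (lam_ne g i)
  · exact absurd (zsmul_pos h4 h3) (not_lt.2 h1)

/-- Heights below a given one form a finite set. -/
theorem finite_below (g0 : Gam) : {x : Lam | x ≤ ht g0 ∧ ∃ g, x = ht g}.Finite := by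
  set N := Q g0 (A 0) with hN
  have hfin : (Set.Icc (fun _ => 1 : Fin 6 → ℤ) (fun _ => 2 * N)).Finite := Set.finite_Icc _ _
  apply (hfin.image (fun c : Fin 6 → ℤ => toLex (fun k => if k = 0 then c 0 + c 1 + c 2 else c k))).subset
  rintro x ⟨hx, g, rfl⟩
  refine ⟨fun i => Q g (r i), ?_, ?_⟩
  · have hle : Q g (A 0) ≤ N := by
      by_contra hcon
      push Not at hcon
      have : ht g0 < ht g := ⟨0, fun j hj => absurd hj (Fin.not_lt_zero j), hcon⟩
      exact absurd this (not_lt.2 hx)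
    have hp : ∀ i, 1 ≤ Q g (r i) := fun i => by
      have := Q_r_pos 1 g i
      rwa [one_smul] at this
    have hA : Q g (A 0) = Q g (r 0) + Q g (r 1) + Q g (r 2) := by
      unfold A; rw [if_pos rfl, Q_add, Q_add]
    have p0 := hp 0
    have p1 := hp 1
    have p2 := hp 2
    have par : ∀ (a b : Fin 3 → ℤ), Q g (vv (a - b)) =
        2 * (Q g (vv a) + Q g (vv b)) - Q g (vv (a + b)) := by
      intro a b
      have e : vv (a - b) + vv (a + b) = (2 : ℤ) • vv a + (2 : ℤ) • vv b := by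
        apply Ray.ext'
        intro i j
        rw [mat_add, mat_add, mat_zsmul, mat_zsmul]
        simp only [vv_mat, Matrix.add_apply, Matrix.vecMulVec_apply, Matrix.smul_apply,
          Pi.add_apply, Pi.sub_apply, smul_eq_mul]
        ring
      have e2 := congrArg (fun S => Q g S) e
      simp only [Q_add, Q_zsmul] at e2
      linarith
    have hb : ∀ (i a b : Fin 6), w i = w a - w b → w a + w b ≠ 0 →
        Q g (r a) + Q g (r b) ≤ N → Q g (r i) ≤ 2 * N := by
      intro i a b hw hne hab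
      have e := par (w a) (w b)
      rw [← hw] at e
      have hpos : 1 ≤ Q g (vv (w a + w b)) := Q_vv_pos _ hne
      have e1 : Q g (vv (w i)) = Q g (r i) := rfl
      have e2 : Q g (vv (w a)) = Q g (r a) := rfl
      have e3 : Q g (vv (w b)) = Q g (r b) := rfl
      rw [e1, e2, e3] at e
      linarith
    rw [Set.mem_Icc]
    refine ⟨fun i => hp i, fun i => ?_⟩
    fin_cases i
    · change Q g (r 0) ≤ 2 * N; linarith
    · change Q g (r 1) ≤ 2 * N; linarith
    · change Q g (r 2) ≤ 2 * N; linarith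
    · exact hb 3 0 1 (by decide) (by decide) (by linarith)
    · exact hb 4 1 2 (by decide) (by decide) (by linarith)
    · exact hb 5 0 2 (by decide) (by decide) (by linarith)
  · change toLex _ = toLex _
    congr 1
    funext k
    unfold A
    by_cases hk : k = 0
    · subst hk; simp [Q_add]
    · simp [hk]

/-- No descending rays: unique minimum. -/
theorem min_of_pos {g : Gam} (h : ∀ i, 0 < lam g i) (g' : Gam) : ht g ≤ ht g' := by
  rw [← sub_nonneg, ht_sub]
  apply Finset.sum_nonneg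
  intro i _
  exact term_nonneg (sub_nonneg.2 (Q_r_pos g g' i)) (h i).le

theorem Dc_eq_of_ht {g g' : Gam} (h : ht g = ht g') : Dc g = Dc g' := by
  have h1 : ∀ k, Q g (A k) = Q g' (A k) := fun k => congrFun (congrArg ofLex h) k
  have hr : ∀ k, Q g (r k) = Q g' (r k) := by
    have hk : ∀ k, k ≠ 0 → Q g (r k) = Q g' (r k) := by
      intro k hk
      have := h1 k
      unfold A at this
      rwa [if_neg hk] at this
    intro k
    by_cases hk0 : k = 0
    · subst hk0
      have := h1 0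
      unfold A at this
      rw [if_pos rfl, Q_add, Q_add, Q_add, Q_add, hk 1 (by decide), hk 2 (by decide)] at this
      linarith
    · exact hk k hk0
  apply Dc_eq_of_Q
  intro i
  have hs := sym_eq ((r_sym i).smul g)
  rw [hs, Q_sum]
  simp only [Q_zsmul]
  have : ∑ x, dl x (g • r i) * Q g' (r x) = Q g (g • r i) := by
    conv_rhs => rw [hs]
    rw [Q_sum]; simp only [Q_zsmul, hr]
  rw [this, Q_self]

end Pool.Agent.H98
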