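import Pool.Agent.H98.Signs

/-!
The chain complex of cells: boundary, equivariance, exactness.
-/

namespace Pool.Agent.H98

open Matrix

/-! ### top cones revisited -/

theorem isTop_of_max {σ : Finset Ray} {g : Gam} (hg : σ ⊆ Dc g)
    (hmax : ∀ g', σ ⊆ Dc g' → ht g' ≤ ht g) : IsTop g σ := by
  refine ⟨hg, ?_⟩
  intro i hi
  have hsub : σ ⊆ Dc (g * fl i) := by
    intro S hS
    obtain ⟨l, rfl⟩ := mem_Dc.1 (hg hS)
    have hl : l ≠ i := by rintro rfl; exact hi hS
    rw [← smul_Dc, smul_mem_fsmul]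
    exact fl_spec i l hl
  have h1 : ht (g * fl i) ≤ ht g := hmax _ hsub
  have h2 : ht (g * fl i) - ht g = (Q (g * fl i) (g • r i) - 1) • lam g i := by
    rw [ht_sub]
    apply Finset.sum_eq_single i
    · intro l _ hl
      have : Q (g * fl i) (g • r l) = 1 := by
        apply Q_of_mem
        rw [← smul_Dc, smul_mem_fsmul]
        exact fl_spec i l hl
      rw [this]; simp
    · simp
  have h3 : 0 < Q (g * fl i) (g • r i) - 1 := by
    have e1 := Q_r_pos g (g * fl i) i
    have e2 : Q (g * fl i) (g • r i) ≠ 1 := by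
      rw [smul_r_eq]
      apply Q_ne_one_of_not_mem
      rw [← smul_r_eq, ← smul_Dc, smul_mem_fsmul]
      exact fl_not_mem i
    omega
  rw [← sub_nonpos, h2] at h1
  rcases lt_trichotomy (lam g i) 0 with h4 | h4 | h4
  · exact h4
  · exact absurd h4 (lam_ne g i)
  · exact absurd (zsmul_pos h4 h3) (not_lt.2 h1)

/-- if the height of a cone containing `σ` equals that of a top cone, it is a top cone -/
theorem IsTop.of_ge {σ : Finset Ray} {g g' : Gam} (h : IsTop g σ) (hg' : σ ⊆ Dc g')
    (hle : ht g ≤ ht g') : IsTop g' σ := by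
  apply isTop_of_max hg'
  intro g'' h''
  exact (h.le h'').trans hle

/-- erasing a descending ray keeps the top cone -/
theorem IsTop.erase {σ : Finset Ray} {g : Gam} (h : IsTop g σ) {j : Fin 6} (hj : lam g j < 0) :
    IsTop g (σ.erase (g • r j)) := by
  refine ⟨(Finset.erase_subset _ _).trans h.1, ?_⟩
  intro i hi
  by_cases hij : g • r i = g • r j
  · have : i = j := smul_r_inj g hij
    rw [this]; exact hj
  · apply h.2
    intro hh
    exact hi (Finset.mem_erase.2 ⟨hij, hh⟩)

theorem IsTop.insert {σ : Finset Ray} {g : Gam} (h : IsTop g σ) (j : Fin 6) :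
    IsTop g (insert (g • r j) σ) := by
  refine ⟨Finset.insert_subset (mem_Dc.2 ⟨j, rfl⟩) h.1, ?_⟩
  intro i hi
  apply h.2
  intro hh
  exact hi (Finset.mem_insert_of_mem hh)

/-! ### finiteness of cofaces -/

theorem finite_cones (f : Gam) : {D : Finset Ray | ∃ g, frame f ⊆ Dc g ∧ D = Dc g}.Finite := by
  classical
  let F : Lam → Finset Ray := fun x => if h : ∃ g, ht g = x then Dc h.choose else ∅
  apply ((finite_frame f).image F).subset
  rintro D ⟨g, hg, rfl⟩
  refine ⟨ht g, ⟨g, hg, rfl⟩, ?_⟩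
  have hex : ∃ g', ht g' = ht g := ⟨g, rfl⟩
  change (if h : ∃ g', ht g' = ht g then Dc h.choose else ∅) = Dc g
  rw [dif_pos hex]
  exact Dc_eq_of_ht hex.choose_spec

theorem finite_cof {σ : Finset Ray} (h : IsCell σ) : {v : Ray | v ∉ σ ∧ IsCell (insert v σ)}.Finite := by
  obtain ⟨_, ⟨f, hf⟩⟩ := h
  have : (⋃ D ∈ {D : Finset Ray | ∃ g, frame f ⊆ Dc g ∧ D = Dc g}, (D : Set Ray)).Finite :=
    (finite_cones f).biUnion (fun D _ => D.finite_toSet)
  apply this.subset
  rintro v ⟨_, ⟨⟨g, hg⟩, _⟩⟩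
  simp only [Set.mem_iUnion]
  refine ⟨Dc g, ⟨g, hf.trans ((Finset.subset_insert _ _).trans hg), rfl⟩, ?_⟩
  exact hg (Finset.mem_insert_self _ _)

open Classical in
/-- rays that can be added to a cell -/
noncomputable def cof (σ : Finset Ray) : Finset Ray :=
  if h : IsCell σ then (finite_cof h).toFinset else ∅

theorem mem_cof {σ : Finset Ray} {v : Ray} : v ∈ cof σ ↔ IsCell σ ∧ v ∉ σ ∧ IsCell (insert v σ) := by
  unfold cof
  by_cases h : IsCell σ
  · rw [dif_pos h]; simp [h]
  · rw [dif_neg h]; simp [h]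

theorem cof_smul (g : Gam) (σ : Finset Ray) : cof (g • σ) = g • cof σ := by
  ext v
  rw [mem_fsmul, mem_cof, mem_cof, isCell_smul_iff, mem_fsmul]
  have : insert v (g • σ) = g • insert (g⁻¹ • v) σ := by rw [smul_insert', smul_inv_smul]
  rw [this, isCell_smul_iff]

section
variable (k : Type) [Field k]

/-- ambient chain module -/
abbrev Ch := Finset Ray →₀ k

variable {k}

/-- boundary on a generator -/
noncomputable def bdGen (σ : Finset Ray) (x : k) : Ch k :=
  ∑ v ∈ cof σ, Finsupp.single (insert v σ) (((ep v σ : ℤˣ) : ℤ) • x)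

variable (k) in
/-- the boundary operator -/
noncomputable def bd : Ch k →ₗ[k] Ch k :=
  Finsupp.lsum k (fun σ => ∑ v ∈ cof σ, (((ep v σ : ℤˣ) : ℤ)) • Finsupp.lsingle (insert v σ))

theorem bd_single (σ : Finset Ray) (x : k) : bd k (Finsupp.single σ x) = bdGen σ x := by
  unfold bd bdGen
  simp only [Finsupp.lsum_single, LinearMap.sum_apply, LinearMap.smul_apply, Finsupp.lsingle_apply]
  apply Finset.sum_congr rfl
  intro v _
  rw [Finsupp.smul_single]

variable (k) in
/-- the action -/
noncomputable def ac (g : Gam) : Ch k →ₗ[k] Ch k :=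
  Finsupp.lsum k (fun σ => (((sn g σ : ℤˣ) : ℤ)) • Finsupp.lsingle (g • σ))

theorem ac_single (g : Gam) (σ : Finset Ray) (x : k) :
    ac k g (Finsupp.single σ x) = Finsupp.single (g • σ) (((sn g σ : ℤˣ) : ℤ) • x) := by
  unfold ac
  simp only [Finsupp.lsum_single, LinearMap.smul_apply, Finsupp.lsingle_apply, Finsupp.smul_single]

theorem ac_one : ac k 1 = LinearMap.id := by
  apply Finsupp.lhom_ext
  intro σ x
  rw [ac_single, sn_one, one_smul]; simp

theorem ac_mul (g h : Gam) : ac k (g * h) = ac k g ∘ₗ ac k h := by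
  apply Finsupp.lhom_ext
  intro σ x
  rw [LinearMap.comp_apply, ac_single, ac_single, ac_single, sn_mul, mul_smul]
  congr 1
  push_cast
  rw [mul_smul]

theorem bd_ac (g : Gam) : bd k ∘ₗ ac k g = ac k g ∘ₗ bd k := by
  apply Finsupp.lhom_ext
  intro σ x
  rw [LinearMap.comp_apply, LinearMap.comp_apply, ac_single, bd_single, bd_single]
  unfold bdGen
  rw [map_sum, cof_smul, fsmul_def g (cof σ),
    Finset.sum_image (fun a _ b _ hab => MulAction.injective g hab)]
  apply Finset.sum_congr rfl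
  intro v hv
  rw [ac_single, smul_insert']
  congr 1
  have hv' : v ∉ σ := (mem_cof.1 hv).2.1
  have := sn_ep g hv'
  have h2 : (((sn g (insert v σ) : ℤˣ) : ℤ)) * ((ep v σ : ℤˣ) : ℤ) =
      ((sn g σ : ℤˣ) : ℤ) * ((ep (g • v) (g • σ) : ℤˣ) : ℤ) := by
    exact_mod_cast congrArg (fun u : ℤˣ => (u : ℤ)) this
  rw [← mul_smul, ← mul_smul, h2, mul_comm]

theorem ep_sq (v : Ray) (σ : Finset Ray) : ((ep v σ : ℤˣ) : ℤ) * ((ep v σ : ℤˣ) : ℤ) = 1 := by
  rw [← Units.val_mul, Int.units_mul_self]; rfl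

/-- chains supported on cells -/
def OnCells (z : Ch k) : Prop := ∀ σ ∈ z.support, IsCell σ

/-- chains supported on cells with `d` rays -/
def OnDim (d : ℕ) (z : Ch k) : Prop := ∀ σ ∈ z.support, IsCell σ ∧ σ.card = d

theorem OnDim.zero (d : ℕ) : OnDim d (0 : Ch k) := by intro σ h; simp at h

theorem OnDim.add {d : ℕ} {z w : Ch k} (hz : OnDim d z) (hw : OnDim d w) : OnDim d (z + w) := by
  classical
  intro σ h
  have := Finsupp.support_add h
  rw [Finset.mem_union] at this
  rcases this with h | h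
  · exact hz σ h
  · exact hw σ h

theorem OnDim.neg {d : ℕ} {z : Ch k} (hz : OnDim d z) : OnDim d (-z) := by
  intro σ h
  rw [Finsupp.support_neg] at h
  exact hz σ h

theorem OnDim.sub {d : ℕ} {z w : Ch k} (hz : OnDim d z) (hw : OnDim d w) : OnDim d (z - w) := by
  rw [sub_eq_add_neg]; exact hz.add hw.neg

theorem OnDim.sum {ι : Type*} {d : ℕ} {s : Finset ι} {f : ι → Ch k} (h : ∀ i ∈ s, OnDim d (f i)) :
    OnDim d (∑ i ∈ s, f i) := by
  classical
  induction s using Finset.induction_on with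
  | empty => simp; exact OnDim.zero d
  | insert a s ha ih =>
    rw [Finset.sum_insert ha]
    exact (h a (Finset.mem_insert_self _ _)).add (ih fun i hi => h i (Finset.mem_insert_of_mem hi))

theorem OnDim.single {d : ℕ} {σ : Finset Ray} (h : IsCell σ ∧ σ.card = d) (x : k) :
    OnDim d (Finsupp.single σ x) := by
  intro τ hτ
  have := Finsupp.support_single_subset hτ
  rw [Finset.mem_singleton] at this
  rw [this]; exact h

theorem OnDim.bd {d : ℕ} {z : Ch k} (hz : OnDim d z) : OnDim (d + 1) (bd k z) := by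
  have : z = ∑ σ ∈ z.support, Finsupp.single σ (z σ) := (Finsupp.sum_single z).symm
  rw [this, map_sum]
  apply OnDim.sum
  intro σ hσ
  rw [bd_single]
  unfold bdGen
  apply OnDim.sum
  intro v hv
  obtain ⟨h1, h2, h3⟩ := mem_cof.1 hv
  apply OnDim.single
  refine ⟨h3, ?_⟩
  rw [Finset.card_insert_of_notMem h2, (hz σ hσ).2]

theorem OnDim.ac {d : ℕ} {z : Ch k} (hz : OnDim d z) (g : Gam) : OnDim d (ac k g z) := by
  have : z = ∑ σ ∈ z.support, Finsupp.single σ (z σ) := (Finsupp.sum_single z).symm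
  rw [this, map_sum]
  apply OnDim.sum
  intro σ hσ
  rw [ac_single]
  exact OnDim.single ⟨(hz σ hσ).1.smul g, by rw [card_fsmul, (hz σ hσ).2]⟩ _

/-- coefficient formula for the boundary -/
theorem bd_apply {z : Ch k} (hz : OnCells z) {τ : Finset Ray} (hτ : IsCell τ) :
    bd k z τ = ∑ v ∈ τ, ((ep v (τ.erase v) : ℤˣ) : ℤ) • z (τ.erase v) := by
  have hsum : z = ∑ σ ∈ z.support, Finsupp.single σ (z σ) := (Finsupp.sum_single z).symm
  have hR : ∀ v, z (τ.erase v) = ∑ σ ∈ z.support, Finsupp.single σ (z σ) (τ.erase v) := by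
    intro v
    conv_lhs => rw [hsum]
    rw [Finsupp.finsetSum_apply]
  conv_lhs => rw [hsum]
  rw [map_sum, Finsupp.finsetSum_apply]
  simp only [hR, Finset.smul_sum]
  rw [Finset.sum_comm]
  apply Finset.sum_congr rfl
  intro σ hσ
  have hcell := hz σ hσ
  rw [bd_single]
  unfold bdGen
  rw [Finsupp.finsetSum_apply]
  -- both sums have at most one nonzero term
  by_cases hex : ∃ v, v ∉ σ ∧ insert v σ = τ
  · obtain ⟨v, hv, hvτ⟩ := hex
    have hvτ' : v ∈ τ := by rw [← hvτ]; exact Finset.mem_insert_self _ _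
    have her : τ.erase v = σ := by rw [← hvτ, Finset.erase_insert hv]
    rw [Finset.sum_eq_single v, Finset.sum_eq_single v]
    · rw [her, hvτ, Finsupp.single_eq_same, Finsupp.single_eq_same]
    · intro u hu huv
      rw [Finsupp.single_eq_of_ne, smul_zero]
      intro hh
      have : v ∈ τ.erase u := Finset.mem_erase.2 ⟨huv.symm, hvτ'⟩
      rw [hh] at this
      exact hv this
    · intro h; exact absurd hvτ' h
    · intro u hu huv
      rw [Finsupp.single_eq_of_ne]
      intro hh
      have : v ∈ insert u σ := by rw [← hh]; exact hvτ'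
      rcases Finset.mem_insert.1 this with h | h
      · exact huv h.symm
      · exact hv h
    · intro h
      exact absurd (mem_cof.2 ⟨hcell, hv, by rw [hvτ]; exact hτ⟩) h
  · rw [Finset.sum_eq_zero, Finset.sum_eq_zero]
    · intro u hu
      rw [Finsupp.single_eq_of_ne, smul_zero]
      intro hh
      apply hex
      exact ⟨u, by rw [← hh]; exact Finset.notMem_erase _ _, by rw [← hh, Finset.insert_erase hu]⟩
    · intro u hu
      rw [Finsupp.single_eq_of_ne]
      intro hh
      exact hex ⟨u, (mem_cof.1 hu).2.1, hh.symm⟩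

end

end Pool.Agent.H98
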