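import Pool.Agent.H98.InvS

/-!
Exactness of the complex of equivariant maps into traceless tensors.
-/

namespace Pool.Agent.H98

open Matrix

/-- the signed list describes the cofaces -/
def OkT (W : WL) (T : List (Vec × Mat)) (L L' : List Vec) : Prop :=
  W.map (fun t => (t.1, t.2.1)) =
    T.map (fun e => (((ep (vv e.1) (rp L) * sn (toG e.2) (rp L') : ℤˣ) : ℤ), e.2))

theorem okT4c_5 : OkT WT4c_5 T4c_5 L4c L5 := by unfold OkT; decide +kernel
theorem okT4p_5 : OkT WT4p_5 T4p_5 L4p L5 := by unfold OkT; decide +kernel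
theorem okT3_4c : OkT WT3_4c T3_4c L3 L4c := by unfold OkT; decide +kernel
theorem okT3_4p : OkT WT3_4p T3_4p L3 L4p := by unfold OkT; decide +kernel

theorem nd4c : (T4c_5.map (fun e => vv e.1)).Nodup := by decide +kernel
theorem nd4p : (T4p_5.map (fun e => vv e.1)).Nodup := by decide +kernel
theorem nd3 : ((T3_4c ++ T3_4p).map (fun e => vv e.1)).Nodup := by decide +kernel

section
variable {k : Type} [Field k]

theorem hzs {M : Type} [AddCommGroup M] [Module k M] {d : ℕ} (f : P k d →ₗ[k] M) (n : ℤ) (x : P k d) :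
    f (n • x) = n • f x := map_zsmul f n x

open Classical in
/-- total version of the generator -/
noncomputable def gen' (k : Type) [Field k] (d : ℕ) (σ : Finset Ray) : P k d :=
  if h : CellD d σ then gen h 1 else 0

theorem gen'_pos {d : ℕ} {σ : Finset Ray} (h : CellD d σ) : gen' k d σ = gen h 1 := by
  unfold gen'; rw [dif_pos h]

theorem bdP_gen {d : ℕ} {σ : Finset Ray} (h : CellD d σ) :
    bdP d (gen h (1 : k)) = ∑ v ∈ cof σ, ((ep v σ : ℤˣ) : ℤ) • gen' k (d + 1) (insert v σ) := by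
  apply Subtype.ext
  rw [bdP_coe, gen_coe, bd_single, AddSubmonoidClass.coe_finsetSum]
  unfold bdGen
  apply Finset.sum_congr rfl
  intro v hv
  obtain ⟨_, h2, h3⟩ := mem_cof.1 hv
  have h4 : CellD (d + 1) (insert v σ) := ⟨h3, by rw [Finset.card_insert_of_notMem h2, h.2]⟩
  rw [gen'_pos h4, ← Finsupp.smul_single]
  rfl

theorem sum_cof {σ : Finset Ray} {T : List (Vec × Mat)} (hT : ∀ v, v ∈ cof σ ↔ ∃ e ∈ T, v = vv e.1)
    (hn : (T.map (fun e => vv e.1)).Nodup) {X : Type} [AddCommMonoid X] (F : Ray → X) :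
    ∑ v ∈ cof σ, F v = (T.map (fun e => F (vv e.1))).sum := by
  have h1 : cof σ = (T.map (fun e => vv e.1)).toFinset := by
    ext v
    rw [hT, List.mem_toFinset, List.mem_map]
    constructor
    · rintro ⟨e, he, rfl⟩; exact ⟨e, he, rfl⟩
    · rintro ⟨e, he, rfl⟩; exact ⟨e, he, rfl⟩
  rw [h1, List.sum_toFinset _ hn, List.map_map]
  rfl

/-- a partial coboundary -/
theorem part_sum {d : ℕ} {f : P k (d + 1) →ₗ[k] trl k} (hf : Eqv (mrep k) f) {W : WL}
    {T : List (Vec × Mat)} {L L' : List Vec} (ok : OkT W T L L')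
    (hT : ∀ e ∈ T, e.2.det = 1 ∧ vv e.1 ∉ rp L ∧ insert (vv e.1) (rp L) = mact e.2 L')
    (h' : CellD (d + 1) (rp L')) :
    (T.map (fun e => ((ep (vv e.1) (rp L) : ℤˣ) : ℤ) • f (gen' k (d + 1) (insert (vv e.1) (rp L))))).sum =
      opW k W (f (gen h' 1)) := by
  rw [opW_eq]
  unfold OkT at ok
  have h2 := congrArg (List.map (fun t : ℤ × Mat => t.1 • (mrep k (toG t.2)) (f (gen h' 1)))) ok
  rw [List.map_map, List.map_map] at h2
  refine Eq.trans ?_ (congrArg List.sum h2.symm)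
  congr 1
  apply List.map_congr_left
  intro e he
  obtain ⟨h3, _, h5⟩ := hT e he
  have h6 : insert (vv e.1) (rp L) = toG e.2 • rp L' := by rw [h5, toG_mk h3, smul_rp h3]
  simp only [Function.comp_apply]
  rw [h6, gen'_pos (h'.smul (toG e.2)), gen_smul, hzs, hf, smul_smul]
  push_cast
  rfl

theorem c4c : CellD 4 (rp L4c) := F4.cell true
theorem c4p : CellD 4 (rp L4p) := F4.cell false
theorem c5 : CellD 5 (rp L5) := F5.cell ()
theorem c3 : CellD 3 (rp L3) := F3.cell ()

theorem cob4c {f : P k 5 →ₗ[k] trl k} (hf : Eqv (mrep k) f) :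
    f (bdP 4 (gen c4c 1)) = opW k WT4c_5 (f (gen c5 1)) := by
  rw [bdP_gen c4c, sum_cof (fun v => mem_cof4c) nd4c, map_list_sum, List.map_map]
  rw [← part_sum hf okT4c_5 T4c_5_spec c5]
  congr 1
  apply List.map_congr_left
  intro e _
  exact hzs f _ _

theorem cob4p {f : P k 5 →ₗ[k] trl k} (hf : Eqv (mrep k) f) :
    f (bdP 4 (gen c4p 1)) = opW k WT4p_5 (f (gen c5 1)) := by
  rw [bdP_gen c4p, sum_cof (fun v => mem_cof4p) nd4p, map_list_sum, List.map_map]
  rw [← part_sum hf okT4p_5 T4p_5_spec c5]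
  congr 1
  apply List.map_congr_left
  intro e _
  exact hzs f _ _

theorem cob3 {f : P k 4 →ₗ[k] trl k} (hf : Eqv (mrep k) f) :
    f (bdP 3 (gen c3 1)) = opW k WT3_4c (f (gen c4c 1)) + opW k WT3_4p (f (gen c4p 1)) := by
  have hm : ∀ v, v ∈ cof (rp L3) ↔ ∃ e ∈ T3_4c ++ T3_4p, v = vv e.1 := by
    intro v
    rw [mem_cof3]
    constructor
    · rintro (⟨e, he, h⟩ | ⟨e, he, h⟩)
      · exact ⟨e, List.mem_append_left _ he, h⟩
      · exact ⟨e, List.mem_append_right _ he, h⟩
    · rintro ⟨e, he, h⟩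
      rcases List.mem_append.1 he with he | he
      · left; exact ⟨e, he, h⟩
      · right; exact ⟨e, he, h⟩
  rw [bdP_gen c3, sum_cof hm nd3, map_list_sum, List.map_map, List.map_append, List.sum_append]
  rw [← part_sum hf okT3_4c T3_4c_spec c4c, ← part_sum hf okT3_4p T3_4p_spec c4p]
  congr 1
  · congr 1
    apply List.map_congr_left
    intro e _
    exact hzs f _ _
  · congr 1
    apply List.map_congr_left
    intro e _
    exact hzs f _ _

/-! ### the four statements -/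

theorem two_ne (h6 : (6 : k) ≠ 0) : (2 : k) ≠ 0 := by
  intro h; apply h6
  have : (6 : k) = 2 * 3 := by norm_num
  rw [this, h, zero_mul]

theorem castT_ne {x : trl ℤ} {l i j : Fin 3} (h : (((x : Ten ℤ) l i j : ℤ) : k) ≠ 0) : castT k x ≠ 0 := by
  intro h0
  apply h
  have := congrArg (fun y : trl k => (y : Ten k) l i j) h0
  exact this

theorem nc_ne (h6 : (6 : k) ≠ 0) : castT k nc ≠ 0 := by
  have h : (nc : Ten ℤ) 0 0 0 = 2 := by decide +kernel
  apply castT_ne (l := 0) (i := 0) (j := 0)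
  rw [h]
  exact_mod_cast two_ne h6

theorem h0 (h6 : (6 : k) ≠ 0) {f : P k 6 →ₗ[k] trl k} (hf : Eqv (mrep k) f) : f = 0 := by
  apply F6.hom_ext hf (f' := 0) (fun g z => by simp)
  intro i
  exact inv6 h6 (F6.inv_of_hom hf i)

theorem h1 (h6 : (6 : k) ≠ 0) {f : P k 5 →ₗ[k] trl k} (hf : Eqv (mrep k) f)
    (hz : f ∘ₗ bdP 4 = 0) : f = 0 := by
  obtain ⟨a, b, hab⟩ := inv5 h6 (F5.inv_of_hom hf ())
  change f (gen c5 1) = _ at hab
  have e1 : f (bdP 4 (gen c4c 1)) = 0 := LinearMap.congr_fun hz _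
  have e2 : f (bdP 4 (gen c4p 1)) = 0 := LinearMap.congr_fun hz _
  rw [cob4c hf, hab, map_add, map_smul, map_smul, ← opW_cast, ← opW_cast, o1, o2, castT_zsmul,
    smul_smul, ← add_smul] at e1
  rw [cob4p hf, hab, map_add, map_smul, map_smul, ← opW_cast, ← opW_cast, o3, o4, map_add, castT_zsmul,
    castT_zsmul, castT_zsmul] at e2
  have e3 := (smul_eq_zero.1 e1).resolve_right (nc_ne h6)
  have v1 : (na : Ten ℤ) 2 2 2 = 0 := by decide +kernel
  have v2 : (nb : Ten ℤ) 2 2 2 = 2 := by decide +kernel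
  have e4 := congrArg (fun y : trl k => (y : Ten k) 2 2 2) e2
  change a * (((2 : ℤ) : k) * (((na : Ten ℤ) 2 2 2 : ℤ) : k)) + b * ((((4 : ℤ) : k) * (((na : Ten ℤ) 2 2 2 : ℤ) : k)) +
    (((-6 : ℤ) : k) * (((nb : Ten ℤ) 2 2 2 : ℤ) : k))) = 0 at e4
  rw [v1, v2] at e4
  push_cast at e3 e4
  have hb : b = 0 := by
    have h5 : (6 : k) * 2 * b = 0 := by linear_combination (-1) * e4
    rcases mul_eq_zero.1 h5 with h | h
    · exact absurd h (mul_ne_zero h6 (two_ne h6))
    · exact h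
  have ha : a = 0 := by rw [hb] at e3; linear_combination e3
  apply F5.hom_ext hf (f' := 0) (fun g z => by simp)
  intro i
  change f (gen c5 1) = 0
  rw [hab, ha, hb, zero_smul, zero_smul, add_zero]

theorem n3_ne : castT k n3 ≠ 0 := by
  have h : (n3 : Ten ℤ) 0 1 2 = 1 := by decide +kernel
  apply castT_ne (l := 0) (i := 1) (j := 2)
  rw [h]; simp

theorem h2 (h6 : (6 : k) ≠ 0) {f : P k 4 →ₗ[k] trl k} (hf : Eqv (mrep k) f)
    (hz : f ∘ₗ bdP 3 = 0) : ∃ g : P k 5 →ₗ[k] trl k, Eqv (mrep k) g ∧ g ∘ₗ bdP 4 = f := by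
  obtain ⟨c, hc⟩ := inv4c h6 (F4.inv_of_hom hf true)
  obtain ⟨a, b, hab⟩ := inv4p h6 (F4.inv_of_hom hf false)
  change f (gen c4c 1) = _ at hc
  change f (gen c4p 1) = _ at hab
  have e1 : f (bdP 3 (gen c3 1)) = 0 := LinearMap.congr_fun hz _
  rw [cob3 hf, hc, hab, map_smul, map_add, map_smul, map_smul, ← opW_cast, ← opW_cast, ← opW_cast,
    o5, o6, o7, map_zero, smul_zero, add_zero, castT_zsmul, castT_zsmul, smul_smul, smul_smul,
    ← add_smul] at e1
  have e2 := (smul_eq_zero.1 e1).resolve_right n3_ne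
  push_cast at e2
  have h2ne := two_ne h6
  have ha : a = 2 * c := by
    have : (2 : k) * (a - 2 * c) = 0 := by linear_combination (-1) * e2
    have := (mul_eq_zero.1 this).resolve_left h2ne
    linear_combination this
  set β : k := -b / 6 with hβ
  have hβ' : (-6) * β = b := by rw [hβ]; field_simp
  set α : k := c - 2 * β with hα
  have hinv : Inv (mrep k) R5 (α • castT k n50 + β • castT k n51) :=
    Inv.add (Inv.smul iv50 α) (Inv.smul iv51 β)
  refine ⟨F5.lift (mrep k) (fun _ => α • castT k n50 + β • castT k n51), F5.lift_eqv _, ?_⟩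
  have hval : F5.lift (mrep k) (fun _ => α • castT k n50 + β • castT k n51) (gen c5 1) =
      α • castT k n50 + β • castT k n51 :=
    F5.lift_gen_inv (fun _ => α • castT k n50 + β • castT k n51) () hinv ((card_ne h6).2.1 ())
  set g := F5.lift (mrep k) (fun _ => α • castT k n50 + β • castT k n51) with hg
  have hge : Eqv (mrep k) g := F5.lift_eqv _
  apply F4.hom_ext (ρ := mrep k) _ hf
  · intro i
    cases i
    · change g (bdP 4 (gen c4p 1)) = f (gen c4p 1)
      rw [cob4p hge, hval, hab, map_add, map_smul, map_smul, ← opW_cast, ← opW_cast, o3, o4, map_add,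
        castT_zsmul, castT_zsmul, castT_zsmul, ha, hα]
      rw [← hβ']
      push_cast
      module
    · change g (bdP 4 (gen c4c 1)) = f (gen c4c 1)
      rw [cob4c hge, hval, hc, map_add, map_smul, map_smul, ← opW_cast, ← opW_cast, o1, o2, castT_zsmul, hα]
      push_cast
      module
  · intro g' z
    rw [LinearMap.comp_apply, LinearMap.comp_apply, bdP_comm, hge]

theorem h3 (h6 : (6 : k) ≠ 0) {f : P k 3 →ₗ[k] trl k} (hf : Eqv (mrep k) f) :
    ∃ g : P k 4 →ₗ[k] trl k, Eqv (mrep k) g ∧ g ∘ₗ bdP 3 = f := by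
  obtain ⟨t, ht⟩ := inv3 h6 (F3.inv_of_hom hf ())
  change f (gen c3 1) = _ at ht
  have h2ne := two_ne h6
  have h4ne : (4 : k) ≠ 0 := by
    have : (4 : k) = 2 * 2 := by norm_num
    rw [this]; exact mul_ne_zero h2ne h2ne
  set mm : Bool → trl k := fun b => bif b then (t / 4) • castT k nc else 0 with hmm
  have hi : ∀ b, Inv (mrep k) (F4.D b) (mm b) := by
    intro b
    cases b
    · intro s _; simp [hmm]
    · exact Inv.smul ivc (t / 4)
  refine ⟨F4.lift (mrep k) mm, F4.lift_eqv _, ?_⟩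
  have hv1 : F4.lift (mrep k) mm (gen c4c 1) = (t / 4) • castT k nc :=
    F4.lift_gen_inv mm true (hi true) ((card_ne h6).2.2.1 true)
  have hv2 : F4.lift (mrep k) mm (gen c4p 1) = 0 :=
    F4.lift_gen_inv mm false (hi false) ((card_ne h6).2.2.1 false)
  set g := F4.lift (mrep k) mm with hg
  have hge : Eqv (mrep k) g := F4.lift_eqv _
  apply F3.hom_ext (ρ := mrep k) _ hf
  · intro i
    change g (bdP 3 (gen c3 1)) = f (gen c3 1)
    rw [cob3 hge, hv1, hv2, ht, map_zero, add_zero, map_smul, ← opW_cast, o5, castT_zsmul, smul_smul]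
    congr 1
    push_cast
    field_simp
  · intro g' z
    rw [LinearMap.comp_apply, LinearMap.comp_apply, bdP_comm, hge]

end

end Pool.Agent.H98
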