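import Pool.Agent.H98.Module
import Pool.Agent.H98.Aug

/-!
Explicit data: signed lists of group elements, basis tensors, invariant tensors.
-/

namespace Pool.Agent.H98

open Matrix

abbrev Mat := Matrix (Fin 3) (Fin 3) ℤ
abbrev WL := List (ℤ × Mat × Mat)
abbrev SP := List (ℤ × Fin 3 × Fin 3 × Fin 3)

def W6 : WL :=
  [(1, !![-1, -1, -1; 0, 0, 1; 0, 1, 0], !![-1, -1, -1; 0, 0, 1; 0, 1, 0]),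
    (1, !![-1, -1, -1; 0, 1, 0; 1, 0, 0], !![0, 0, 1; 0, 1, 0; -1, -1, -1]),
    (1, !![-1, -1, -1; 1, 0, 0; 0, 0, 1], !![0, 1, 0; -1, -1, -1; 0, 0, 1]),
    (1, !![-1, 0, 0; 0, -1, 0; 1, 1, 1], !![-1, 0, 0; 0, -1, 0; 1, 1, 1]),
    (1, !![-1, 0, 0; 0, 0, -1; 0, -1, 0], !![-1, 0, 0; 0, 0, -1; 0, -1, 0]),
    (1, !![-1, 0, 0; 1, 1, 1; 0, 0, -1], !![-1, 0, 0; 1, 1, 1; 0, 0, -1]),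
    (1, !![0, -1, 0; -1, 0, 0; 0, 0, -1], !![0, -1, 0; -1, 0, 0; 0, 0, -1]),
    (1, !![0, -1, 0; 0, 0, -1; 1, 1, 1], !![1, 1, 1; -1, 0, 0; 0, -1, 0]),
    (1, !![0, -1, 0; 1, 1, 1; -1, 0, 0], !![0, 0, -1; -1, 0, 0; 1, 1, 1]),
    (1, !![0, 0, -1; -1, 0, 0; 1, 1, 1], !![0, -1, 0; 1, 1, 1; -1, 0, 0]),
    (1, !![0, 0, -1; 0, -1, 0; -1, 0, 0], !![0, 0, -1; 0, -1, 0; -1, 0, 0]),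
    (1, !![0, 0, -1; 1, 1, 1; 0, -1, 0], !![1, 1, 1; 0, 0, -1; -1, 0, 0]),
    (1, !![0, 0, 1; -1, -1, -1; 1, 0, 0], !![0, 0, 1; -1, -1, -1; 1, 0, 0]),
    (1, !![0, 0, 1; 0, 1, 0; -1, -1, -1], !![-1, -1, -1; 0, 1, 0; 1, 0, 0]),
    (1, !![0, 0, 1; 1, 0, 0; 0, 1, 0], !![0, 1, 0; 0, 0, 1; 1, 0, 0]),
    (1, !![0, 1, 0; -1, -1, -1; 0, 0, 1], !![-1, -1, -1; 1, 0, 0; 0, 0, 1]),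
    (1, !![0, 1, 0; 0, 0, 1; 1, 0, 0], !![0, 0, 1; 1, 0, 0; 0, 1, 0]),
    (1, !![0, 1, 0; 1, 0, 0; -1, -1, -1], !![0, 1, 0; 1, 0, 0; -1, -1, -1]),
    (1, !![1, 0, 0; -1, -1, -1; 0, 1, 0], !![1, 0, 0; 0, 0, 1; -1, -1, -1]),
    (1, !![1, 0, 0; 0, 0, 1; -1, -1, -1], !![1, 0, 0; -1, -1, -1; 0, 1, 0]),
    (1, !![1, 0, 0; 0, 1, 0; 0, 0, 1], !![1, 0, 0; 0, 1, 0; 0, 0, 1]),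
    (1, !![1, 1, 1; -1, 0, 0; 0, -1, 0], !![0, -1, 0; 0, 0, -1; 1, 1, 1]),
    (1, !![1, 1, 1; 0, -1, 0; 0, 0, -1], !![1, 1, 1; 0, -1, 0; 0, 0, -1]),
    (1, !![1, 1, 1; 0, 0, -1; -1, 0, 0], !![0, 0, -1; 1, 1, 1; 0, -1, 0])]

def W5 : WL :=
  [(-1, !![-1, 0, 0; 0, -1, -1; 0, 0, 1], !![-1, 0, 0; 0, -1, -1; 0, 0, 1]),
    (1, !![-1, 0, 0; 1, 1, 1; 0, 0, -1], !![-1, 0, 0; 1, 1, 1; 0, 0, -1]),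
    (1, !![0, 0, -1; 0, -1, 0; -1, 0, 0], !![0, 0, -1; 0, -1, 0; -1, 0, 0]),
    (-1, !![0, 0, -1; 0, 1, 1; 1, 0, 0], !![0, 0, 1; 1, 1, 0; -1, 0, 0]),
    (1, !![0, 0, 1; -1, -1, -1; 1, 0, 0], !![0, 0, 1; -1, -1, -1; 1, 0, 0]),
    (-1, !![0, 0, 1; 1, 1, 0; -1, 0, 0], !![0, 0, -1; 0, 1, 1; 1, 0, 0]),
    (-1, !![1, 0, 0; -1, -1, 0; 0, 0, -1], !![1, 0, 0; -1, -1, 0; 0, 0, -1]),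
    (1, !![1, 0, 0; 0, 1, 0; 0, 0, 1], !![1, 0, 0; 0, 1, 0; 0, 0, 1])]

def W4c : WL :=
  [(1, !![-1, 0, 0; -1, 0, 1; -1, 1, 0], !![-1, 0, 0; -1, 0, 1; -1, 1, 0]),
    (-1, !![-1, 0, 0; 0, 0, -1; 0, -1, 0], !![-1, 0, 0; 0, 0, -1; 0, -1, 0]),
    (1, !![-1, 0, 1; -1, 1, 0; -1, 0, 0], !![0, 0, -1; 0, 1, -1; 1, 0, -1]),
    (-1, !![-1, 0, 1; 0, -1, 1; 0, 0, 1], !![-1, 0, 1; 0, -1, 1; 0, 0, 1]),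
    (1, !![-1, 1, 0; -1, 0, 0; -1, 0, 1], !![0, -1, 0; 1, -1, 0; 0, -1, 1]),
    (-1, !![-1, 1, 0; 0, 1, 0; 0, 1, -1], !![-1, 1, 0; 0, 1, 0; 0, 1, -1]),
    (-1, !![0, -1, 0; -1, 0, 0; 0, 0, -1], !![0, -1, 0; -1, 0, 0; 0, 0, -1]),
    (1, !![0, -1, 0; 1, -1, 0; 0, -1, 1], !![-1, 1, 0; -1, 0, 0; -1, 0, 1]),
    (1, !![0, -1, 1; 0, -1, 0; 1, -1, 0], !![0, -1, 1; 0, -1, 0; 1, -1, 0]),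
    (-1, !![0, -1, 1; 0, 0, 1; -1, 0, 1], !![0, 1, -1; -1, 1, 0; 0, 1, 0]),
    (-1, !![0, 0, -1; 0, -1, 0; -1, 0, 0], !![0, 0, -1; 0, -1, 0; -1, 0, 0]),
    (1, !![0, 0, -1; 0, 1, -1; 1, 0, -1], !![-1, 0, 1; -1, 1, 0; -1, 0, 0]),
    (-1, !![0, 0, 1; -1, 0, 1; 0, -1, 1], !![1, -1, 0; 1, 0, -1; 1, 0, 0]),
    (1, !![0, 0, 1; 1, 0, 0; 0, 1, 0], !![0, 1, 0; 0, 0, 1; 1, 0, 0]),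
    (-1, !![0, 1, -1; -1, 1, 0; 0, 1, 0], !![0, -1, 1; 0, 0, 1; -1, 0, 1]),
    (1, !![0, 1, -1; 1, 0, -1; 0, 0, -1], !![0, 1, -1; 1, 0, -1; 0, 0, -1]),
    (1, !![0, 1, 0; 0, 0, 1; 1, 0, 0], !![0, 0, 1; 1, 0, 0; 0, 1, 0]),
    (-1, !![0, 1, 0; 0, 1, -1; -1, 1, 0], !![1, 0, -1; 1, 0, 0; 1, -1, 0]),
    (1, !![1, -1, 0; 0, -1, 1; 0, -1, 0], !![1, 0, -1; 0, 0, -1; 0, 1, -1]),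
    (-1, !![1, -1, 0; 1, 0, -1; 1, 0, 0], !![0, 0, 1; -1, 0, 1; 0, -1, 1]),
    (1, !![1, 0, -1; 0, 0, -1; 0, 1, -1], !![1, -1, 0; 0, -1, 1; 0, -1, 0]),
    (-1, !![1, 0, -1; 1, 0, 0; 1, -1, 0], !![0, 1, 0; 0, 1, -1; -1, 1, 0]),
    (1, !![1, 0, 0; 0, 1, 0; 0, 0, 1], !![1, 0, 0; 0, 1, 0; 0, 0, 1]),
    (-1, !![1, 0, 0; 1, -1, 0; 1, 0, -1], !![1, 0, 0; 1, -1, 0; 1, 0, -1])]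

def W4p : WL :=
  [(-1, !![-1, -1, 0; 0, 1, 0; 0, 0, -1], !![-1, -1, 0; 0, 1, 0; 0, 0, -1]),
    (1, !![-1, -1, 0; 1, 0, 0; 0, 0, 1], !![0, 1, 0; -1, -1, 0; 0, 0, 1]),
    (1, !![-1, 0, 0; 0, -1, 0; 0, 0, 1], !![-1, 0, 0; 0, -1, 0; 0, 0, 1]),
    (-1, !![-1, 0, 0; 1, 1, 0; 0, 0, -1], !![-1, 0, 0; 1, 1, 0; 0, 0, -1]),
    (-1, !![0, -1, 0; -1, 0, 0; 0, 0, -1], !![0, -1, 0; -1, 0, 0; 0, 0, -1]),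
    (1, !![0, -1, 0; 1, 1, 0; 0, 0, 1], !![1, 1, 0; -1, 0, 0; 0, 0, 1]),
    (1, !![0, 1, 0; -1, -1, 0; 0, 0, 1], !![-1, -1, 0; 1, 0, 0; 0, 0, 1]),
    (-1, !![0, 1, 0; 1, 0, 0; 0, 0, -1], !![0, 1, 0; 1, 0, 0; 0, 0, -1]),
    (-1, !![1, 0, 0; -1, -1, 0; 0, 0, -1], !![1, 0, 0; -1, -1, 0; 0, 0, -1]),
    (1, !![1, 0, 0; 0, 1, 0; 0, 0, 1], !![1, 0, 0; 0, 1, 0; 0, 0, 1]),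
    (1, !![1, 1, 0; -1, 0, 0; 0, 0, 1], !![0, -1, 0; 1, 1, 0; 0, 0, 1]),
    (-1, !![1, 1, 0; 0, -1, 0; 0, 0, -1], !![1, 1, 0; 0, -1, 0; 0, 0, -1])]

def W3 : WL :=
  [(1, !![-1, 0, 0; 0, -1, 0; 0, 0, 1], !![-1, 0, 0; 0, -1, 0; 0, 0, 1]),
    (-1, !![-1, 0, 0; 0, 0, -1; 0, -1, 0], !![-1, 0, 0; 0, 0, -1; 0, -1, 0]),
    (-1, !![-1, 0, 0; 0, 0, 1; 0, 1, 0], !![-1, 0, 0; 0, 0, 1; 0, 1, 0]),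
    (1, !![-1, 0, 0; 0, 1, 0; 0, 0, -1], !![-1, 0, 0; 0, 1, 0; 0, 0, -1]),
    (-1, !![0, -1, 0; -1, 0, 0; 0, 0, -1], !![0, -1, 0; -1, 0, 0; 0, 0, -1]),
    (1, !![0, -1, 0; 0, 0, -1; 1, 0, 0], !![0, 0, 1; -1, 0, 0; 0, -1, 0]),
    (1, !![0, -1, 0; 0, 0, 1; -1, 0, 0], !![0, 0, -1; -1, 0, 0; 0, 1, 0]),
    (-1, !![0, -1, 0; 1, 0, 0; 0, 0, 1], !![0, 1, 0; -1, 0, 0; 0, 0, 1]),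
    (1, !![0, 0, -1; -1, 0, 0; 0, 1, 0], !![0, -1, 0; 0, 0, 1; -1, 0, 0]),
    (-1, !![0, 0, -1; 0, -1, 0; -1, 0, 0], !![0, 0, -1; 0, -1, 0; -1, 0, 0]),
    (-1, !![0, 0, -1; 0, 1, 0; 1, 0, 0], !![0, 0, 1; 0, 1, 0; -1, 0, 0]),
    (1, !![0, 0, -1; 1, 0, 0; 0, -1, 0], !![0, 1, 0; 0, 0, -1; -1, 0, 0]),
    (1, !![0, 0, 1; -1, 0, 0; 0, -1, 0], !![0, -1, 0; 0, 0, -1; 1, 0, 0]),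
    (-1, !![0, 0, 1; 0, -1, 0; 1, 0, 0], !![0, 0, 1; 0, -1, 0; 1, 0, 0]),
    (-1, !![0, 0, 1; 0, 1, 0; -1, 0, 0], !![0, 0, -1; 0, 1, 0; 1, 0, 0]),
    (1, !![0, 0, 1; 1, 0, 0; 0, 1, 0], !![0, 1, 0; 0, 0, 1; 1, 0, 0]),
    (-1, !![0, 1, 0; -1, 0, 0; 0, 0, 1], !![0, -1, 0; 1, 0, 0; 0, 0, 1]),
    (1, !![0, 1, 0; 0, 0, -1; -1, 0, 0], !![0, 0, -1; 1, 0, 0; 0, -1, 0]),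
    (1, !![0, 1, 0; 0, 0, 1; 1, 0, 0], !![0, 0, 1; 1, 0, 0; 0, 1, 0]),
    (-1, !![0, 1, 0; 1, 0, 0; 0, 0, -1], !![0, 1, 0; 1, 0, 0; 0, 0, -1]),
    (1, !![1, 0, 0; 0, -1, 0; 0, 0, -1], !![1, 0, 0; 0, -1, 0; 0, 0, -1]),
    (-1, !![1, 0, 0; 0, 0, -1; 0, 1, 0], !![1, 0, 0; 0, 0, 1; 0, -1, 0]),
    (-1, !![1, 0, 0; 0, 0, 1; 0, -1, 0], !![1, 0, 0; 0, 0, -1; 0, 1, 0]),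
    (1, !![1, 0, 0; 0, 1, 0; 0, 0, 1], !![1, 0, 0; 0, 1, 0; 0, 0, 1])]

def WT5_6 : WL :=
  [(-1, !![1, 0, 0; 0, 1, 1; 0, -1, 0], !![1, 0, 0; 0, 0, -1; 0, 1, 1]),
    (1, !![1, 0, 0; 0, 1, 0; 0, 0, 1], !![1, 0, 0; 0, 1, 0; 0, 0, 1])]

def WT4c_5 : WL :=
  [(1, !![-1, 0, 0; 0, 1, 1; 0, 1, 0], !![-1, 0, 0; 0, 0, 1; 0, 1, -1]),
    (-1, !![1, 1, 0; 0, 0, -1; 0, 1, 0], !![1, 0, -1; 0, 0, 1; 0, -1, 0]),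
    (-1, !![0, 1, 0; 1, 1, 0; 0, 0, -1], !![-1, 1, 0; 1, 0, 0; 0, 0, -1])]

def WT4p_5 : WL :=
  [(-1, !![1, 0, 0; 0, 1, 0; 0, 0, 1], !![1, 0, 0; 0, 1, 0; 0, 0, 1]),
    (-1, !![0, 0, 1; 0, 1, 0; -1, 0, 0], !![0, 0, -1; 0, 1, 0; 1, 0, 0]),
    (1, !![0, 1, 1; 0, -1, 0; 1, 0, 0], !![0, 0, 1; 0, -1, 0; 1, 1, 0]),
    (-1, !![0, -1, 0; 1, 1, 0; 0, 0, 1], !![1, 1, 0; -1, 0, 0; 0, 0, 1]),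
    (1, !![0, 1, 0; 0, 0, 1; 1, 0, 0], !![0, 0, 1; 1, 0, 0; 0, 1, 0]),
    (1, !![0, 1, 0; 1, 0, 0; 0, 0, -1], !![0, 1, 0; 1, 0, 0; 0, 0, -1])]

def WT3_4c : WL :=
  [(1, !![-1, 0, 0; 0, 0, 1; 0, 1, 0], !![-1, 0, 0; 0, 0, 1; 0, 1, 0]),
    (1, !![1, 0, 0; 0, 0, -1; 0, 1, 0], !![1, 0, 0; 0, 0, 1; 0, -1, 0]),
    (1, !![1, 0, 0; 0, 0, 1; 0, -1, 0], !![1, 0, 0; 0, 0, -1; 0, 1, 0]),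
    (-1, !![1, 0, 0; 0, 1, 0; 0, 0, 1], !![1, 0, 0; 0, 1, 0; 0, 0, 1])]

def WT3_4p : WL :=
  [(1, !![0, 0, 1; 1, 0, 0; 0, 1, 0], !![0, 1, 0; 0, 0, 1; 1, 0, 0]),
    (-1, !![0, 0, 1; 0, -1, 0; 1, 0, 0], !![0, 0, 1; 0, -1, 0; 1, 0, 0]),
    (1, !![1, 0, 0; 0, 1, 0; 0, 0, 1], !![1, 0, 0; 0, 1, 0; 0, 0, 1]),
    (1, !![0, 1, 0; 0, 0, 1; 1, 0, 0], !![0, 0, 1; 1, 0, 0; 0, 1, 0]),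
    (-1, !![1, 0, 0; 0, 0, 1; 0, -1, 0], !![1, 0, 0; 0, 0, -1; 0, 1, 0]),
    (-1, !![0, -1, 0; 1, 0, 0; 0, 0, 1], !![0, 1, 0; -1, 0, 0; 0, 0, 1])]

/-- basis of the traceless tensors -/
def Bs : Fin 15 → SP :=
  ![[(1, 0, 0, 1), (1, 0, 1, 0), (-1, 1, 1, 1)],
    [(1, 0, 0, 2), (1, 0, 2, 0), (-1, 2, 2, 2)],
    [(1, 0, 1, 1)],
    [(1, 0, 1, 2), (1, 0, 2, 1)],
    [(1, 0, 2, 2)],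
    [(1, 1, 0, 0)],
    [(-1, 0, 0, 0), (1, 1, 0, 1), (1, 1, 1, 0)],
    [(1, 1, 0, 2), (1, 1, 2, 0)],
    [(1, 1, 1, 2), (1, 1, 2, 1), (-1, 2, 2, 2)],
    [(1, 1, 2, 2)],
    [(1, 2, 0, 0)],
    [(1, 2, 0, 1), (1, 2, 1, 0)],
    [(-1, 0, 0, 0), (1, 2, 0, 2), (1, 2, 2, 0)],
    [(1, 2, 1, 1)],
    [(-1, 1, 1, 1), (1, 2, 1, 2), (1, 2, 2, 1)]]

/-- the coordinates -/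
def fr : Fin 15 → Fin 3 × Fin 3 × Fin 3 :=
  ![(0, 0, 1), (0, 0, 2), (0, 1, 1), (0, 1, 2), (0, 2, 2), (1, 0, 0), (1, 0, 1), (1, 0, 2), (1, 1, 2), (1, 2, 2), (2, 0, 0), (2, 0, 1), (2, 0, 2), (2, 1, 1), (2, 1, 2)]

def n50s : SP := [(-1, 0, 0, 1), (-1, 0, 1, 0), (1, 0, 1, 1), (-1, 2, 1, 1), (1, 2, 1, 2), (1, 2, 2, 1)]

def n51s : SP := [(-2, 0, 0, 0), (1, 0, 1, 1), (-1, 0, 1, 2), (-1, 0, 2, 1), (2, 0, 2, 2), (-4, 1, 0, 0), (2, 1, 0, 1), (2, 1, 1, 0), (-2, 1, 1, 2), (-2, 1, 2, 1), (4, 1, 2, 2), (-2, 2, 0, 0), (1, 2, 0, 1), (1, 2, 1, 0), (-1, 2, 1, 1), (2, 2, 2, 2)]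

def ncs : SP := [(2, 0, 0, 0), (-1, 0, 0, 1), (-1, 0, 0, 2), (-1, 0, 1, 0), (-2, 0, 1, 1), (-1, 0, 1, 2), (-1, 0, 2, 0), (-1, 0, 2, 1), (-2, 0, 2, 2), (-2, 1, 0, 0), (-1, 1, 0, 1), (-1, 1, 0, 2), (-1, 1, 1, 0), (2, 1, 1, 1), (-1, 1, 1, 2), (-1, 1, 2, 0), (-1, 1, 2, 1), (-2, 1, 2, 2), (-2, 2, 0, 0), (-1, 2, 0, 1), (-1, 2, 0, 2), (-1, 2, 1, 0), (-2, 2, 1, 1), (-1, 2, 1, 2), (-1, 2, 2, 0), (-1, 2, 2, 1), (2, 2, 2, 2)]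

def nas : SP := [(2, 2, 0, 0), (-1, 2, 0, 1), (-1, 2, 1, 0), (2, 2, 1, 1)]

def nbs : SP := [(-1, 0, 0, 2), (-1, 0, 2, 0), (-1, 1, 1, 2), (-1, 1, 2, 1), (2, 2, 2, 2)]

def n3s : SP := [(1, 0, 1, 2), (1, 0, 2, 1), (1, 1, 0, 2), (1, 1, 2, 0), (1, 2, 0, 1), (1, 2, 1, 0)]

def A5 : Fin 15 → Fin 2 → ℤ :=
  ![![-4, 0], ![-4, 0], ![0, 0], ![0, 0], ![0, 0], ![2, -1], ![4, 0], ![0, 0], ![-4, 0], ![-2, 1], ![0, 0], ![0, 0], ![4, 0], ![0, 0], ![4, 0]]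

def A4c : Fin 15 → Fin 1 → ℤ :=
  ![![-4], ![-4], ![0], ![0], ![0], ![0], ![-4], ![0], ![-4], ![0], ![0], ![0], ![-4], ![0], ![-4]]

def A4p : Fin 15 → Fin 2 → ℤ :=
  ![![0, 0], ![0, -6], ![0, 0], ![0, 0], ![0, 0], ![0, 0], ![0, 0], ![0, 0], ![0, -6], ![0, 0], ![4, 0], ![4, 0], ![0, 0], ![4, 0], ![0, 0]]

def A3 : Fin 15 → Fin 1 → ℤ :=
  ![![0], ![0], ![0], ![8], ![0], ![0], ![0], ![8], ![0], ![0], ![0], ![8], ![0], ![0], ![0]]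

end Pool.Agent.H98
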