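import Pool.Agent.H98.Rays

/-!
Heights of perfect cones, descending rays, top cones of cells.
-/

namespace Pool.Agent.H98

open Matrix

/-- Test forms: a basis of the symmetric matrices, the first one positive definite. -/
def A (k : Fin 6) : Ray := if k = 0 then r 0 + r 1 + r 2 else r k

theorem r_sym (i : Fin 6) : Sym (r i) := vv_sym _

theorem Sym.add {S T : Ray} (hS : Sym S) (hT : Sym T) : Sym (S + T) := by
  unfold Sym at *; rw [mat_add, Matrix.transpose_add, hS, hT]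

theorem A_sym (k : Fin 6) : Sym (A k) := by
  unfold A; split_ifs
  · exact ((r_sym 0).add (r_sym 1)).add (r_sym 2)
  · exact r_sym k

/-- ordered value group -/
abbrev Lam := Lex (Fin 6 → ℤ)

/-- The height of `g`. -/
def ht (g : Gam) : Lam := toLex (fun k => Q g (A k))

/-- The slope of ray `i` at `g`. -/
def lam (g : Gam) (i : Fin 6) : Lam := toLex (fun k => dl i (g⁻¹ • A k))

theorem ht_sub (g g' : Gam) : ht g' - ht g = ∑ i, (Q g' (g • r i) - 1) • lam g i := by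
  have h1 : ∀ k, Q g' (A k) - Q g (A k) = ∑ i, (Q g' (g • r i) - 1) * dl i (g⁻¹ • A k) := by
    intro k
    rw [Q_expand g g' (A_sym k), Q_expand_self, ← Finset.sum_sub_distrib]
    apply Finset.sum_congr rfl
    intros; ring
  have h2 : (∑ i, (Q g' (g • r i) - 1) • lam g i : Lam) =
      toLex (∑ i, (Q g' (g • r i) - 1) • (fun k => dl i (g⁻¹ • A k))) := by
    simp only [Fin.sum_univ_six]; rfl
  rw [h2]
  change toLex ((fun k => Q g' (A k)) - fun k => Q g (A k)) = _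
  congr 1
  funext k
  rw [Pi.sub_apply, h1 k, Finset.sum_apply]
  rfl

theorem lam_ne (g : Gam) (i : Fin 6) : lam g i ≠ 0 := by
  intro h
  have h1 : ∀ k, dl i (g⁻¹ • A k) = 0 := fun k => congrFun (congrArg ofLex h) k
  have hr : ∀ k, dl i (g⁻¹ • r k) = 0 := by
    have hk : ∀ k, k ≠ 0 → dl i (g⁻¹ • r k) = 0 := by
      intro k hk
      have := h1 k
      unfold A at this
      rwa [if_neg hk] at this
    intro k
    by_cases hk0 : k = 0
    · subst hk0
      have := h1 0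
      unfold A at this
      rw [if_pos rfl, smul_add, smul_add, dl_add, dl_add, hk 1 (by decide), hk 2 (by decide)] at this
      linarith
    · exact hk k hk0
  have h2 := sym_eq ((r_sym i).smul g)
  have h3 : dl i (g⁻¹ • (g • r i)) = ∑ j, dl j (g • r i) * dl i (g⁻¹ • r j) := by
    conv_lhs => rw [h2]
    rw [Finset.smul_sum, dl_sum]
    simp only [smul_zsmul', dl_zsmul]
  rw [inv_smul_smul, dl_r, if_pos rfl] at h3
  simp [hr] at h3

theorem pos_of_first {x : Lam} (h : 0 < (ofLex x) 0) : 0 < x := by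
  refine ⟨0, ?_, ?_⟩
  · intro j hj
    exact absurd hj (Fin.not_lt_zero j)
  · exact h

/-- cuts of `K₄` as sets of ray indices -/
def cut : Fin 7 → Finset (Fin 6) :=
  ![{0, 3, 5}, {1, 3, 4}, {2, 4, 5}, {0, 1, 2}, {0, 1, 4, 5}, {0, 2, 3, 4}, {1, 2, 3, 5}]

/-- vectors attached to the cuts -/
def cu : Fin 7 → Fin 3 → ℤ :=
  ![![1, 0, 0], ![0, 1, 0], ![0, 0, 1], ![1, 1, 1], ![1, 1, 0], ![1, 0, 1], ![0, 1, 1]]

theorem cu_ne : ∀ j, cu j ≠ 0 := by decide

theorem cut_vv (j : Fin 7) (v : Fin 3 → ℤ) : ∑ i ∈ cut j, dl i (vv v) = (cu j ⬝ᵥ v) ^ 2 := by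
  fin_cases j
  · have : cut (⟨0, by decide⟩ : Fin 7) = {0, 3, 5} := rfl
    rw [this, Finset.sum_insert (by decide), Finset.sum_insert (by decide), Finset.sum_singleton]
    simp [dl, vv_mat, Matrix.vecMulVec_apply, cu, dotProduct, Fin.sum_univ_three]; ring
  · have : cut (⟨1, by decide⟩ : Fin 7) = {1, 3, 4} := rfl
    rw [this, Finset.sum_insert (by decide), Finset.sum_insert (by decide), Finset.sum_singleton]
    simp [dl, vv_mat, Matrix.vecMulVec_apply, cu, dotProduct, Fin.sum_univ_three]; ring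
  · have : cut (⟨2, by decide⟩ : Fin 7) = {2, 4, 5} := rfl
    rw [this, Finset.sum_insert (by decide), Finset.sum_insert (by decide), Finset.sum_singleton]
    simp [dl, vv_mat, Matrix.vecMulVec_apply, cu, dotProduct, Fin.sum_univ_three]; ring
  · have : cut (⟨3, by decide⟩ : Fin 7) = {0, 1, 2} := rfl
    rw [this, Finset.sum_insert (by decide), Finset.sum_insert (by decide), Finset.sum_singleton]
    simp [dl, vv_mat, Matrix.vecMulVec_apply, cu, dotProduct, Fin.sum_univ_three]; ring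
  · have : cut (⟨4, by decide⟩ : Fin 7) = {0, 1, 4, 5} := rfl
    rw [this, Finset.sum_insert (by decide), Finset.sum_insert (by decide),
      Finset.sum_insert (by decide), Finset.sum_singleton]
    simp [dl, vv_mat, Matrix.vecMulVec_apply, cu, dotProduct, Fin.sum_univ_three]; ring
  · have : cut (⟨5, by decide⟩ : Fin 7) = {0, 2, 3, 4} := rfl
    rw [this, Finset.sum_insert (by decide), Finset.sum_insert (by decide),
      Finset.sum_insert (by decide), Finset.sum_singleton]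
    simp [dl, vv_mat, Matrix.vecMulVec_apply, cu, dotProduct, Fin.sum_univ_three]; ring
  · have : cut (⟨6, by decide⟩ : Fin 7) = {1, 2, 3, 5} := rfl
    rw [this, Finset.sum_insert (by decide), Finset.sum_insert (by decide),
      Finset.sum_insert (by decide), Finset.sum_singleton]
    simp [dl, vv_mat, Matrix.vecMulVec_apply, cu, dotProduct, Fin.sum_univ_three]; ring

theorem cut_pos (g : Gam) (j : Fin 7) : 0 < ∑ i ∈ cut j, lam g i := by
  apply pos_of_first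
  have h1 : (ofLex (∑ i ∈ cut j, lam g i)) 0 = ∑ i ∈ cut j, dl i (g⁻¹ • A 0) := by
    have : ∀ s : Finset (Fin 6), (ofLex (∑ i ∈ s, lam g i)) 0 = ∑ i ∈ s, dl i (g⁻¹ • A 0) := by
      intro s
      induction s using Finset.induction_on with
      | empty => simp; rfl
      | insert a s ha ih =>
        rw [Finset.sum_insert ha, Finset.sum_insert ha, ← ih]; rfl
    exact this _
  rw [h1]
  have hA : A 0 = vv (Pi.single 0 1) + vv (Pi.single 1 1) + vv (Pi.single 2 1) := by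
    unfold A; rw [if_pos rfl]
    decide
  rw [hA, smul_add, smul_add, smul_vv, smul_vv, smul_vv]
  simp only [dl_add, Finset.sum_add_distrib, cut_vv]
  by_contra hcon
  push Not at hcon
  have n0 := sq_nonneg (cu j ⬝ᵥ (g⁻¹ : Gam).1.mulVec (Pi.single 0 1))
  have n1 := sq_nonneg (cu j ⬝ᵥ (g⁻¹ : Gam).1.mulVec (Pi.single 1 1))
  have n2 := sq_nonneg (cu j ⬝ᵥ (g⁻¹ : Gam).1.mulVec (Pi.single 2 1))
  have z0 : cu j ⬝ᵥ (g⁻¹ : Gam).1.mulVec (Pi.single 0 1) = 0 :=
    pow_eq_zero_iff (two_ne_zero) |>.1 (by linarith)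
  have z1 : cu j ⬝ᵥ (g⁻¹ : Gam).1.mulVec (Pi.single 1 1) = 0 :=
    pow_eq_zero_iff (two_ne_zero) |>.1 (by linarith)
  have z2 : cu j ⬝ᵥ (g⁻¹ : Gam).1.mulVec (Pi.single 2 1) = 0 :=
    pow_eq_zero_iff (two_ne_zero) |>.1 (by linarith)
  rw [Matrix.dotProduct_mulVec, dotProduct_single_one] at z0 z1 z2
  have hz : Matrix.vecMul (cu j) (g⁻¹ : Gam).1 = 0 := by
    funext i; fin_cases i
    · exact z0
    · exact z1
    · exact z2
  have hz' : cu j = 0 := by
    have : Matrix.vecMul (Matrix.vecMul (cu j) (g⁻¹ : Gam).1) g.1 = cu j := by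
      rw [Matrix.vecMul_vecMul, ← Matrix.SpecialLinearGroup.coe_mul, inv_mul_cancel]
      simp
    rw [← this, hz, Matrix.zero_vecMul]
  exact cu_ne j hz'

theorem no_cut (g : Gam) {I : Finset (Fin 6)} (hI : ∀ i ∈ I, lam g i < 0) (j : Fin 7) :
    ¬ cut j ⊆ I := by
  intro hsub
  have h1 := cut_pos g j
  have h2 : ∑ i ∈ cut j, lam g i ≤ 0 := Finset.sum_nonpos fun i hi => (hI i (hsub hi)).le
  exact absurd h1 (not_lt.2 h2)

/-- spanning trees of `K₄` -/
def tree : Fin 16 → Finset (Fin 6) :=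
  ![{0, 1, 2}, {0, 1, 4}, {0, 1, 5}, {0, 2, 3}, {0, 2, 4}, {0, 3, 4}, {0, 3, 5}, {0, 4, 5},
    {1, 2, 3}, {1, 2, 5}, {1, 3, 4}, {1, 3, 5}, {1, 4, 5}, {2, 3, 4}, {2, 3, 5}, {2, 4, 5}]

/-- matrices mapping the standard frame to the trees -/
def trM : Fin 16 → Matrix (Fin 3) (Fin 3) ℤ :=
  ![!![1, 0, 0; 0, 1, 0; 0, 0, 1], !![1, 0, 0; 0, 1, -1; 0, 0, 1], !![1, 0, -1; 0, 1, 0; 0, 0, 1],
    !![1, 0, 1; 0, 0, -1; 0, 1, 0], !![1, 0, 0; 0, 0, -1; 0, 1, 1], !![1, 1, 0; 0, -1, 1; 0, 0, -1],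
    !![1, 1, 1; 0, -1, 0; 0, 0, -1], !![1, 0, -1; 0, 1, 0; 0, -1, 1],
    !![0, 0, 1; 1, 0, -1; 0, 1, 0], !![0, 0, 1; 1, 0, 0; 0, 1, -1], !![0, 1, 0; 1, -1, 1; 0, 0, -1],
    !![0, 1, 1; 1, -1, 0; 0, 0, -1], !![0, 0, -1; 1, 1, 0; 0, -1, 1],
    !![0, 1, 0; 0, -1, 1; 1, 0, -1], !![0, 1, 1; 0, -1, 0; 1, 0, -1], !![0, 0, -1; 0, 1, 0; 1, -1, 1]]

theorem trM_det (j : Fin 16) : (trM j).det = 1 := by
  rw [Matrix.det_fin_three]; revert j; decide

/-- as group elements -/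
def tr (j : Fin 16) : Gam := ⟨trM j, trM_det j⟩

theorem tr_spec (j : Fin 16) (i : Fin 6) (hi : i = 0 ∨ i = 1 ∨ i = 2) :
    ∃ l ∈ tree j, tr j • r i = r l := by
  have : ∀ j : Fin 16, ∀ i : Fin 6, (i = 0 ∨ i = 1 ∨ i = 2) →
      ∃ l ∈ tree j, vv ((trM j).mulVec (w i)) = vv (w l) := by decide
  obtain ⟨l, hl, h⟩ := this j i hi
  exact ⟨l, hl, by rw [smul_r_eq]; exact h⟩

theorem exists_tree (I : Finset (Fin 6)) (hI : ∀ j, ¬ cut j ⊆ I) : ∃ j, Disjoint (tree j) I := by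
  revert I; decide

/-- flip matrices -/
def flM : Fin 6 → Matrix (Fin 3) (Fin 3) ℤ :=
  ![!![-1, 0, 0; 1, 0, 1; 1, 1, 0], !![1, 1, 0; -1, 0, 0; 1, 0, 1], !![1, 0, 1; 1, 1, 0; -1, 0, 0],
    !![1, 0, 0; 0, 0, -1; 0, 1, 1], !![1, 0, 1; 0, 0, -1; 0, 1, 0], !![1, 0, 0; 0, 1, 1; 0, -1, 0]]

theorem flM_det (j : Fin 6) : (flM j).det = 1 := by
  rw [Matrix.det_fin_three]; revert j; decide

/-- as group elements -/
def fl (j : Fin 6) : Gam := ⟨flM j, flM_det j⟩

theorem fl_spec (j i : Fin 6) (hij : i ≠ j) : r i ∈ Dc (fl j) := by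
  have : ∀ j i : Fin 6, i ≠ j → ∃ l, vv ((flM j).mulVec (w l)) = vv (w i) := by decide
  obtain ⟨l, hl⟩ := this j i hij
  rw [mem_Dc]
  exact ⟨l, by rw [smul_r_eq]; exact hl⟩

theorem Q_ne_one_of_not_mem {g : Gam} {v : Fin 3 → ℤ} (h : vv v ∉ Dc g) : Q g (vv v) ≠ 1 := by
  intro hq
  apply h
  unfold Q at hq
  rw [smul_vv] at hq
  obtain ⟨j, hj⟩ := q_vv_min hq
  rw [mem_Dc]
  refine ⟨j, ?_⟩
  rw [← hj, ← smul_vv, smul_inv_smul]

theorem fl_not_mem (j : Fin 6) : r j ∉ Dc (fl j) := by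
  have : ∀ j l : Fin 6, vv ((flM j).mulVec (w l)) ≠ vv (w j) := by decide
  intro h
  obtain ⟨l, hl⟩ := mem_Dc.1 h
  rw [smul_r_eq] at hl
  exact this j l hl

end Pool.Agent.H98
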