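import Pool.Agent.H98.InvT

/-!
The invariants are spanned by explicit tensors; coboundaries.
-/

namespace Pool.Agent.H98

open Matrix

/-! ### kernel checks over the integers -/

theorem ck6 : ∀ p : Fin 15, ∀ l i j : Fin 3, evW W6 (Bs p) l i j = 0 := by decide +kernel

theorem ck5 : ∀ p : Fin 15, ∀ l i j : Fin 3,
    evW W5 (Bs p) l i j = A5 p 0 * spt n50s l i j + A5 p 1 * spt n51s l i j := by decide +kernel

theorem ck4c : ∀ p : Fin 15, ∀ l i j : Fin 3,
    evW W4c (Bs p) l i j = A4c p 0 * spt ncs l i j := by decide +kernel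

theorem ck4p : ∀ p : Fin 15, ∀ l i j : Fin 3,
    evW W4p (Bs p) l i j = A4p p 0 * spt nas l i j + A4p p 1 * spt nbs l i j := by decide +kernel

theorem ck3 : ∀ p : Fin 15, ∀ l i j : Fin 3,
    evW W3 (Bs p) l i j = A3 p 0 * spt n3s l i j := by decide +kernel

/-- entries -/
def spe (L : SP) (l i j : Fin 3) : ℤ := spt L l i j

/-- membership test -/
def Tm (L : SP) : Prop := (∀ l, (spt L l)ᵀ = spt L l) ∧ ∀ j, ∑ l, spt L l j l = 0

instance (L : SP) : Decidable (Tm L) := by unfold Tm; infer_instance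

theorem tm50 : Tm n50s := by decide +kernel
theorem tm51 : Tm n51s := by decide +kernel
theorem tmc : Tm ncs := by decide +kernel
theorem tma : Tm nas := by decide +kernel
theorem tmb : Tm nbs := by decide +kernel
theorem tm3 : Tm n3s := by decide +kernel

def n50 : trl ℤ := ⟨spt n50s, tm50⟩
def n51 : trl ℤ := ⟨spt n51s, tm51⟩
def nc : trl ℤ := ⟨spt ncs, tmc⟩
def na : trl ℤ := ⟨spt nas, tma⟩
def nb : trl ℤ := ⟨spt nbs, tmb⟩
def n3 : trl ℤ := ⟨spt n3s, tm3⟩

/-- invariance test -/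
def It (W : WL) (L : SP) : Prop := ∀ t ∈ W, ∀ l i j : Fin 3, evW [t] L l i j = spe L l i j

instance (W : WL) (L : SP) : Decidable (It W L) := by unfold It; infer_instance

theorem it50 : It W5 n50s := by decide +kernel
theorem it51 : It W5 n51s := by decide +kernel
theorem itc : It W4c ncs := by decide +kernel
theorem ita : It W4p nas := by decide +kernel
theorem itb : It W4p nbs := by decide +kernel
theorem it3 : It W3 n3s := by decide +kernel

theorem vT4c_5 : Val WT4c_5 := by decide +kernel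
theorem vT4p_5 : Val WT4p_5 := by decide +kernel
theorem vT3_4c : Val WT3_4c := by decide +kernel
theorem vT3_4p : Val WT3_4p := by decide +kernel

theorem dk1 : ∀ l i j : Fin 3, evW WT4c_5 n50s l i j = spe ncs l i j := by decide +kernel
theorem dk2 : ∀ l i j : Fin 3, evW WT4c_5 n51s l i j = 2 * spt ncs l i j := by decide +kernel
theorem dk3 : ∀ l i j : Fin 3, evW WT4p_5 n50s l i j = 2 * spt nas l i j := by decide +kernel
theorem dk4 : ∀ l i j : Fin 3,
    evW WT4p_5 n51s l i j = 4 * spt nas l i j + (-6) * spt nbs l i j := by decide +kernel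
theorem dk5 : ∀ l i j : Fin 3, evW WT3_4c ncs l i j = 4 * spt n3s l i j := by decide +kernel
theorem dk6 : ∀ l i j : Fin 3, evW WT3_4p nas l i j = (-2) * spt n3s l i j := by decide +kernel
theorem dk7 : ∀ l i j : Fin 3, evW WT3_4p nbs l i j = 0 := by decide +kernel

/-! ### translation -/

theorem trl_ext {x y : trl ℤ} (h : ∀ l i j, (x : Ten ℤ) l i j = (y : Ten ℤ) l i j) : x = y := by
  apply Subtype.ext; funext l; ext i j; exact h l i j

theorem o1 : opW ℤ WT4c_5 n50 = nc := trl_ext fun l i j => by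
  rw [opW_eval vT4c_5 (L := n50s) rfl, dk1]; rfl
theorem o2 : opW ℤ WT4c_5 n51 = (2 : ℤ) • nc := trl_ext fun l i j => by
  rw [opW_eval vT4c_5 (L := n51s) rfl, dk2]; rfl
theorem o3 : opW ℤ WT4p_5 n50 = (2 : ℤ) • na := trl_ext fun l i j => by
  rw [opW_eval vT4p_5 (L := n50s) rfl, dk3]; rfl
theorem o4 : opW ℤ WT4p_5 n51 = (4 : ℤ) • na + (-6 : ℤ) • nb := trl_ext fun l i j => by
  rw [opW_eval vT4p_5 (L := n51s) rfl, dk4]; rfl
theorem o5 : opW ℤ WT3_4c nc = (4 : ℤ) • n3 := trl_ext fun l i j => by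
  rw [opW_eval vT3_4c (L := ncs) rfl, dk5]; rfl
theorem o6 : opW ℤ WT3_4p na = (-2 : ℤ) • n3 := trl_ext fun l i j => by
  rw [opW_eval vT3_4p (L := nas) rfl, dk6]; rfl
theorem o7 : opW ℤ WT3_4p nb = 0 := trl_ext fun l i j => by
  rw [opW_eval vT3_4p (L := nbs) rfl, dk7]; rfl

theorem q6 (p : Fin 15) : opW ℤ W6 (B p) = 0 := trl_ext fun l i j => by
  rw [opW_eval val6 (B_coe p), ck6]; rfl
theorem q5 (p : Fin 15) : opW ℤ W5 (B p) = A5 p 0 • n50 + A5 p 1 • n51 := trl_ext fun l i j => by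
  rw [opW_eval val5 (B_coe p), ck5]; rfl
theorem q4c (p : Fin 15) : opW ℤ W4c (B p) = A4c p 0 • nc := trl_ext fun l i j => by
  rw [opW_eval val4c (B_coe p), ck4c]; rfl
theorem q4p (p : Fin 15) : opW ℤ W4p (B p) = A4p p 0 • na + A4p p 1 • nb := trl_ext fun l i j => by
  rw [opW_eval val4p (B_coe p), ck4p]; rfl
theorem q3 (p : Fin 15) : opW ℤ W3 (B p) = A3 p 0 • n3 := trl_ext fun l i j => by
  rw [opW_eval val3 (B_coe p), ck3]; rfl

theorem it_spec {W : WL} {L : SP} (hW : Val W) (h : It W L) {n : trl ℤ} (hn : (n : Ten ℤ) = spt L) :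
    ∀ t ∈ W, t.1 • mrep ℤ (toG t.2.1) n = n := by
  intro t ht
  have h1 : Val [t] := by
    intro t' ht'
    rw [List.mem_singleton] at ht'
    rw [ht']; exact hW t ht
  apply trl_ext
  intro l i j
  have h2 := opW_eval h1 hn l i j
  rw [h t ht] at h2
  rw [hn]
  change _ = spe L l i j
  rw [← h2, opW_cons, opW_nil, LinearMap.zero_apply, add_zero]

section
variable {k : Type} [Field k]

theorem it_cast {W : WL} {n : trl ℤ} (h : ∀ t ∈ W, t.1 • mrep ℤ (toG t.2.1) n = n) :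
    ∀ t ∈ W, t.1 • mrep k (toG t.2.1) (castT k n) = castT k n := by
  intro t ht
  rw [← castT_mrep, ← map_zsmul, h t ht]

theorem inv_of_W {W : WL} {D : RD} (h : OkW W D) {n : trl k}
    (hn : ∀ t ∈ W, t.1 • mrep k (toG t.2.1) n = n) : Inv (mrep k) D n := by
  intro s hs
  unfold RD.stab at hs
  rw [List.mem_toFinset, List.mem_map] at hs
  obtain ⟨M, _, rfl⟩ := hs
  have h1 : ((((sn (toG M.1) (rp D.L) : ℤˣ) : ℤ)), M.1) ∈ W.map (fun t => (t.1, t.2.1)) := by
    unfold OkW at h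
    rw [h]
    exact List.mem_map.2 ⟨M.1, M.2, rfl⟩
  obtain ⟨t, ht, h2⟩ := List.mem_map.1 h1
  rw [Prod.mk.injEq] at h2
  have h3 := hn t ht
  rw [h2.1, h2.2, toG_mk (D.spec M.1 M.2).1] at h3
  exact h3

theorem iv50 : Inv (mrep k) R5 (castT k n50) := inv_of_W ok5 (it_cast (it_spec val5 it50 rfl))
theorem iv51 : Inv (mrep k) R5 (castT k n51) := inv_of_W ok5 (it_cast (it_spec val5 it51 rfl))
theorem ivc : Inv (mrep k) R4c (castT k nc) := inv_of_W ok4c (it_cast (it_spec val4c itc rfl))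
theorem iva : Inv (mrep k) R4p (castT k na) := inv_of_W ok4p (it_cast (it_spec val4p ita rfl))
theorem ivb : Inv (mrep k) R4p (castT k nb) := inv_of_W ok4p (it_cast (it_spec val4p itb rfl))
theorem iv3 : Inv (mrep k) R3 (castT k n3) := inv_of_W ok3 (it_cast (it_spec val3 it3 rfl))

theorem Inv.add {D : RD} {m m' : trl k} (h : Inv (mrep k) D m) (h' : Inv (mrep k) D m') :
    Inv (mrep k) D (m + m') := by
  intro s hs
  rw [map_add, smul_add, h s hs, h' s hs]

theorem Inv.smul {D : RD} {m : trl k} (h : Inv (mrep k) D m) (c : k) : Inv (mrep k) D (c • m) := by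
  intro s hs
  rw [map_smul, smul_comm, h s hs]

theorem opW_decomp (W : WL) (m : trl k) : opW k W m = ∑ p, co m p • castT k (opW ℤ W (B p)) := by
  conv_lhs => rw [decomp m]
  rw [map_sum]
  apply Finset.sum_congr rfl
  intro p _
  rw [map_smul, opW_cast]

theorem inv_eq {W : WL} {D : RD} (h : OkW W D) {m : trl k} (hm : Inv (mrep k) D m) :
    (D.S.length : k) • m = ∑ p, co m p • castT k (opW ℤ W (B p)) := by
  rw [← val_rep (mrep k) D hm, val_opW h, opW_decomp]

theorem inv6 (h6 : (6 : k) ≠ 0) {m : trl k} (hm : Inv (mrep k) R6 m) : m = 0 := by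
  have h1 := inv_eq ok6 hm
  simp only [q6, map_zero, smul_zero, Finset.sum_const_zero] at h1
  exact (smul_eq_zero.1 h1).resolve_left ((card_ne h6).1 ())

theorem inv1 {W : WL} {D : RD} (h : OkW W D) (hN : (D.S.length : k) ≠ 0) {x : trl ℤ} {A : Fin 15 → ℤ}
    (hA : ∀ p, opW ℤ W (B p) = A p • x) {m : trl k} (hm : Inv (mrep k) D m) :
    ∃ a : k, m = a • castT k x := by
  have h1 := inv_eq h hm
  refine ⟨(D.S.length : k)⁻¹ * ∑ p, co m p * (A p : k), ?_⟩
  rw [mul_smul, Finset.sum_smul, eq_inv_smul_iff₀ hN, h1]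
  apply Finset.sum_congr rfl
  intro p _
  rw [hA, castT_zsmul, smul_smul]

theorem inv2 {W : WL} {D : RD} (h : OkW W D) (hN : (D.S.length : k) ≠ 0) {x y : trl ℤ}
    {A : Fin 15 → Fin 2 → ℤ}
    (hA : ∀ p, opW ℤ W (B p) = A p 0 • x + A p 1 • y) {m : trl k} (hm : Inv (mrep k) D m) :
    ∃ a b : k, m = a • castT k x + b • castT k y := by
  have h1 := inv_eq h hm
  refine ⟨(D.S.length : k)⁻¹ * ∑ p, co m p * (A p 0 : k), (D.S.length : k)⁻¹ * ∑ p, co m p * (A p 1 : k), ?_⟩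
  rw [mul_smul, mul_smul, ← smul_add, Finset.sum_smul, Finset.sum_smul, eq_inv_smul_iff₀ hN, h1,
    ← Finset.sum_add_distrib]
  apply Finset.sum_congr rfl
  intro p _
  rw [hA, map_add, castT_zsmul, castT_zsmul, smul_add, smul_smul, smul_smul]

theorem inv5 (h6 : (6 : k) ≠ 0) {m : trl k} (hm : Inv (mrep k) R5 m) :
    ∃ a b : k, m = a • castT k n50 + b • castT k n51 := inv2 ok5 ((card_ne h6).2.1 ()) q5 hm

theorem inv4c (h6 : (6 : k) ≠ 0) {m : trl k} (hm : Inv (mrep k) R4c m) :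
    ∃ a : k, m = a • castT k nc :=
  inv1 (A := fun p => A4c p 0) ok4c ((card_ne h6).2.2.1 true) q4c hm

theorem inv4p (h6 : (6 : k) ≠ 0) {m : trl k} (hm : Inv (mrep k) R4p m) :
    ∃ a b : k, m = a • castT k na + b • castT k nb := inv2 ok4p ((card_ne h6).2.2.1 false) q4p hm

theorem inv3 (h6 : (6 : k) ≠ 0) {m : trl k} (hm : Inv (mrep k) R3 m) :
    ∃ a : k, m = a • castT k n3 :=
  inv1 (A := fun p => A3 p 0) ok3 ((card_ne h6).2.2.2 ()) q3 hm

end

end Pool.Agent.H98
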