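import Pool.Agent.H98.Aug

/-!
The cell modules as representations; equivariant maps out of them; projectivity.
-/

namespace Pool.Agent.H98

open Matrix CategoryTheory

section
variable (k : Type) [Field k]

/-- chains on cells with `d` rays -/
def P (d : ℕ) : Submodule k (Ch k) where
  carrier := {z | OnDim d z}
  add_mem' := fun h h' => OnDim.add h h'
  zero_mem' := OnDim.zero d
  smul_mem' := by
    intro c z hz σ hσ
    exact hz σ (Finsupp.support_smul hσ)

variable {k}

theorem mem_P {d : ℕ} {z : Ch k} : z ∈ P k d ↔ OnDim d z := Iff.rfl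

theorem ac_mem_P {d : ℕ} (g : Gam) : ∀ z ∈ P k d, ac k g z ∈ P k d := fun _ hz =>
  mem_P.2 (OnDim.ac (mem_P.1 hz) g)

theorem bd_mem_P {d : ℕ} : ∀ z ∈ P k d, bd k z ∈ P k (d + 1) := fun _ hz =>
  mem_P.2 (OnDim.bd (mem_P.1 hz))

variable (k) in
/-- the representation on chains -/
noncomputable def Prep (d : ℕ) : Representation k Gam (P k d) where
  toFun g := (ac k g).restrict (ac_mem_P g)
  map_one' := by
    apply LinearMap.ext
    intro z
    apply Subtype.ext
    rw [LinearMap.coe_restrict_apply, ac_one]; rfl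
  map_mul' g h := by
    apply LinearMap.ext
    intro z
    apply Subtype.ext
    rw [LinearMap.coe_restrict_apply, ac_mul]; rfl

theorem Prep_coe (d : ℕ) (g : Gam) (z : P k d) : ((Prep k d g z : P k d) : Ch k) = ac k g z := rfl

/-- a generator -/
noncomputable def gen {d : ℕ} {σ : Finset Ray} (h : CellD d σ) (x : k) : P k d :=
  ⟨Finsupp.single σ x, OnDim.single h x⟩

theorem gen_coe {d : ℕ} {σ : Finset Ray} (h : CellD d σ) (x : k) :
    ((gen h x : P k d) : Ch k) = Finsupp.single σ x := rfl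

theorem CellD.smul {d : ℕ} {σ : Finset Ray} (h : CellD d σ) (g : Gam) : CellD d (g • σ) :=
  ⟨h.1.smul g, by rw [card_fsmul, h.2]⟩

theorem Prep_gen {d : ℕ} {σ : Finset Ray} (h : CellD d σ) (g : Gam) (x : k) :
    Prep k d g (gen h x) = ((sn g σ : ℤˣ) : ℤ) • gen (h.smul g) x := by
  apply Subtype.ext
  rw [Prep_coe, gen_coe, ac_single]
  rw [← Finsupp.smul_single]
  rfl

theorem gen_smul {d : ℕ} {σ : Finset Ray} (h : CellD d σ) (g : Gam) (x : k) :
    gen (h.smul g) x = ((sn g σ : ℤˣ) : ℤ) • Prep k d g (gen h x) := by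
  rw [Prep_gen, smul_smul, sn_sq, one_smul]

theorem gen_congr {d : ℕ} {σ τ : Finset Ray} (h : CellD d σ) (h' : CellD d τ) (e : σ = τ) (x : k) :
    gen h x = gen h' x := by subst e; rfl

theorem gen_eq_smul {d : ℕ} {σ : Finset Ray} (h : CellD d σ) (x : k) : gen h x = x • gen h (1 : k) := by
  apply Subtype.ext
  rw [Submodule.coe_smul, gen_coe, gen_coe, Finsupp.smul_single, smul_eq_mul, mul_one]

/-- boundary on `P` -/
noncomputable def bdP (d : ℕ) : P k d →ₗ[k] P k (d + 1) := (bd k).restrict bd_mem_P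

theorem bdP_coe (d : ℕ) (z : P k d) : ((bdP d z : P k (d + 1)) : Ch k) = bd k z := rfl

theorem bdP_comm (d : ℕ) (g : Gam) (z : P k d) : bdP d (Prep k d g z) = Prep k (d + 1) g (bdP d z) := by
  apply Subtype.ext
  rw [bdP_coe, Prep_coe, Prep_coe, bdP_coe]
  exact LinearMap.congr_fun (bd_ac g) _

theorem bdP_bdP (d : ℕ) (z : P k d) : bdP (d + 1) (bdP d z) = 0 := by
  apply Subtype.ext
  rw [bdP_coe, bdP_coe]
  exact bd_bd z.2

/-- augmentation on `P 6` -/
noncomputable def augP : P k 6 →ₗ[k] k := (aug k).domRestrict (P k 6)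

theorem augP_apply (z : P k 6) : augP z = aug k z := rfl

theorem augP_comm (g : Gam) (z : P k 6) : augP (Prep k 6 g z) = augP z := by
  rw [augP_apply, augP_apply, Prep_coe, aug_ac]

theorem augP_surj : Function.Surjective (augP (k := k)) := by
  intro x
  obtain ⟨z, hz⟩ := aug_surj x
  exact ⟨⟨z.1, z.2⟩, hz⟩

theorem exact_aug : Function.Exact (bdP (k := k) 5) augP := by
  intro z
  constructor
  · intro h
    obtain ⟨w, hw, h1⟩ := exact_zero z.1 z.2 h
    exact ⟨⟨w, hw⟩, Subtype.ext h1⟩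
  · rintro ⟨w, rfl⟩
    rw [augP_apply, bdP_coe]
    exact aug_bd w.2

theorem exact_bd {d : ℕ} (hd : d + 1 < 6) : Function.Exact (bdP (k := k) d) (bdP (k := k) (d + 1)) := by
  intro z
  constructor
  · intro h
    obtain ⟨w, hw, h1⟩ := exact_pos hd z.1 z.2 (by rw [← bdP_coe, h]; rfl)
    exact ⟨⟨w, hw⟩, Subtype.ext h1⟩
  · rintro ⟨w, rfl⟩
    exact bdP_bdP d w

theorem inj_bd : Function.Injective (bdP (k := k) 3) := by
  intro a b hab
  have hz : bdP (k := k) 3 (a - b) = 0 :=
    (map_sub (bdP (k := k) 3).toAddMonoidHom a b).trans (sub_eq_zero.2 hab)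
  have h0 : (a - b).1 = 0 := inj_top (a - b).1 (mem_P.1 (a - b).2) (by rw [← bdP_coe, hz]; rfl)
  have h1 : a - b = 0 := Subtype.ext h0
  exact sub_eq_zero.1 h1

end

section
variable {k : Type} [Field k] {M : Type} [AddCommGroup M] [Module k M] {ρ : Representation k Gam M}
variable {ι : Type} [Fintype ι] [DecidableEq ι] {d : ℕ} (F : Fam ι d)

/-- equivariance of a map out of `P` -/
def Eqv (ρ : Representation k Gam M) (f : P k d →ₗ[k] M) : Prop := ∀ g z, f (Prep k d g z) = ρ g (f z)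

/-- the generator at a representative -/
noncomputable def Fam.gen (i : ι) : P k d := Pool.Agent.H98.gen (F.cell i) 1

theorem Fam.hom_ext {f f' : P k d →ₗ[k] M} (hf : Eqv ρ f) (hf' : Eqv ρ f')
    (h : ∀ i, f (F.gen i) = f' (F.gen i)) : f = f' := by
  have hg : ∀ (σ : Finset Ray) (hσ : CellD d σ) (x : k),
      f (Pool.Agent.H98.gen hσ x) = f' (Pool.Agent.H98.gen hσ x) := by
    intro σ hσ x
    obtain ⟨i, g, hg⟩ := F.ex σ hσ.1 hσ.2
    rw [gen_congr hσ ((F.cell i).smul g) hg, gen_eq_smul, map_smul f, map_smul f', gen_smul,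
      map_zsmul f, map_zsmul f', hf g, hf' g]
    rw [show f (Pool.Agent.H98.gen (F.cell i) 1) = f' (Pool.Agent.H98.gen (F.cell i) 1) from h i]
  apply LinearMap.ext
  intro z
  have hcell : ∀ σ ∈ z.1.support, CellD d σ := mem_P.1 z.2
  have hz : z = ∑ σ ∈ z.1.support.attach, Pool.Agent.H98.gen (hcell σ.1 σ.2) (z.1 σ.1) := by
    apply Subtype.ext
    rw [AddSubmonoidClass.coe_finsetSum]
    have e1 : ∀ σ ∈ z.1.support.attach,
        ((Pool.Agent.H98.gen (hcell σ.1 σ.2) (z.1 σ.1) : P k d) : Ch k) = Finsupp.single σ.1 (z.1 σ.1) :=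
      fun σ _ => rfl
    rw [Finset.sum_congr rfl e1, Finset.sum_attach z.1.support (fun σ => Finsupp.single σ (z.1 σ))]
    exact (Finsupp.sum_single z.1).symm
  rw [hz, map_sum, map_sum]
  apply Finset.sum_congr rfl
  intro σ _
  exact hg _ _ _

/-- value at a representative is twisted invariant -/
theorem Fam.inv_of_hom {f : P k d →ₗ[k] M} (hf : Eqv ρ f) (i : ι) : Inv ρ (F.D i) (f (F.gen i)) := by
  intro s hs
  rw [← hf s, ← map_zsmul]
  congr 1
  unfold Fam.gen
  rw [← gen_smul]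
  exact gen_congr _ _ ((F.D i).mem_stab.1 hs) 1

variable (ρ) in
/-- the equivariant map with prescribed value -/
noncomputable def Fam.lift (m : ι → M) : P k d →ₗ[k] M := (F.ext ρ m).domRestrict (P k d)

theorem Fam.lift_eqv (m : ι → M) : Eqv ρ (F.lift ρ m) := by
  intro g z
  exact F.ext_ac ρ m g z.1

theorem Fam.lift_gen (m : ι → M) (i : ι) : F.lift ρ m (F.gen i) =
    (((F.D i).S.length : k))⁻¹ • val ρ (F.D i) (m i) (rp (F.D i).L) := by
  have := F.ext_single ρ m i 1 (1 : k)
  rw [one_smul, mul_one] at this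
  exact this

theorem Fam.lift_gen_inv (m : ι → M) (i : ι) (hm : Inv ρ (F.D i) (m i))
    (hN : ((F.D i).S.length : k) ≠ 0) : F.lift ρ m (F.gen i) = m i := by
  rw [F.lift_gen, val_rep ρ (F.D i) hm, smul_smul, inv_mul_cancel₀ hN, one_smul]

theorem val_map {M' : Type} [AddCommGroup M'] [Module k M'] {ρ' : Representation k Gam M'}
    (e : M →ₗ[k] M') (he : ∀ g m, e (ρ g m) = ρ' g (e m)) (D : RD) (m : M) (σ : Finset Ray) :
    e (val ρ D m σ) = val ρ' D (e m) σ := by
  unfold val
  rw [map_sum]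
  apply Finset.sum_congr rfl
  intro g _
  rw [map_zsmul, he]

/-- lifting property of `P d` -/
theorem Fam.proj (hN : ∀ i, ((F.D i).S.length : k) ≠ 0) {M' : Type} [AddCommGroup M'] [Module k M']
    {ρ' : Representation k Gam M'}
    (e : M →ₗ[k] M') (he : ∀ g m, e (ρ g m) = ρ' g (e m)) (hs : Function.Surjective e)
    (f : P k d →ₗ[k] M') (hf : Eqv ρ' f) :
    ∃ f' : P k d →ₗ[k] M, Eqv ρ f' ∧ e ∘ₗ f' = f := by
  choose m hm using fun i => hs (f (F.gen i))
  refine ⟨F.lift ρ m, F.lift_eqv m, ?_⟩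
  apply F.hom_ext (ρ := ρ') _ hf
  · intro i
    rw [LinearMap.comp_apply, F.lift_gen, map_smul, val_map e he, hm, val_rep ρ' (F.D i) (F.inv_of_hom hf i),
      smul_smul, inv_mul_cancel₀ (hN i), one_smul]
  · intro g z
    rw [LinearMap.comp_apply, LinearMap.comp_apply, F.lift_eqv m g z, he]

end

/-- projectivity in the category of representations -/
theorem Fam.projective {k : Type} [Field k] {ι : Type} [Fintype ι] [DecidableEq ι] {d : ℕ}
    (F : Fam ι d) (hN : ∀ i, ((F.D i).S.length : k) ≠ 0) : Projective (Rep.of (k := k) (G := Gam) (X := P k d) (Prep k d)) where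
  factors {E X} f e he := by
    have hs : Function.Surjective e.hom := (Rep.epi_iff_surjective e).1 he
    obtain ⟨f', hf', h1⟩ := F.proj hN (ρ := E.ρ) (ρ' := X.ρ) e.hom.toLinearMap
      (fun g m => Rep.hom_comm_apply e g m) hs f.hom.toLinearMap (fun g z => Rep.hom_comm_apply f g z)
    refine ⟨Rep.ofHom ⟨f', ?_⟩, ?_⟩
    · intro g
      apply LinearMap.ext
      intro z
      exact hf' g z
    · apply Rep.hom_ext
      apply Representation.IntertwiningMap.ext
      exact h1

end Pool.Agent.H98
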