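import Pool.Agent.H98.Ops
import Pool.Agent.H98.Res

/-!
Twisted invariants of the stabilisers on traceless tensors.
-/

namespace Pool.Agent.H98

open Matrix

theorem stab_sum (D : RD) {X : Type} [AddCommMonoid X] (F : Gam → X) :
    ∑ s ∈ D.stab, F s = (D.S.map (fun M => F (toG M))).sum := by
  unfold RD.stab
  rw [List.sum_toFinset]
  · rw [List.map_map]
    have h1 : ∀ M ∈ D.S.attach, (F ∘ fun M : {M // M ∈ D.S} => mkG M.1 (D.spec M.1 M.2).1) M =
        (fun M : {M // M ∈ D.S} => F (toG M.1)) M := by
      intro M _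
      simp only [Function.comp_apply]
      rw [toG_mk (D.spec M.1 M.2).1]
    rw [List.map_congr_left h1]
    exact congrArg List.sum (List.attach_map_val (l := D.S) (f := fun M => F (toG M)))
  · apply List.Nodup.map
    · intro a b hab
      apply Subtype.ext
      have := congrArg (fun g : Gam => g.1) hab
      simpa [mkG_val] using this
    · exact List.nodup_attach.2 D.nodup

/-- the signed list describes the twisted stabiliser -/
def OkW (W : WL) (D : RD) : Prop :=
  W.map (fun t => (t.1, t.2.1)) = D.S.map (fun M => (((sn (toG M) (rp D.L) : ℤˣ) : ℤ), M))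

theorem ok6 : OkW W6 R6 := by unfold OkW; decide +kernel
theorem ok5 : OkW W5 R5 := by unfold OkW; decide +kernel
theorem ok4c : OkW W4c R4c := by unfold OkW; decide +kernel
theorem ok4p : OkW W4p R4p := by unfold OkW; decide +kernel
theorem ok3 : OkW W3 R3 := by unfold OkW; decide +kernel

theorem val6 : Val W6 := by decide +kernel
theorem val5 : Val W5 := by decide +kernel
theorem val4c : Val W4c := by decide +kernel
theorem val4p : Val W4p := by decide +kernel
theorem val3 : Val W3 := by decide +kernel

section
variable {k : Type} [Field k]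

theorem val_opW {W : WL} {D : RD} (h : OkW W D) (m : trl k) :
    val (mrep k) D m (rp D.L) = opW k W m := by
  unfold val
  have h1 : D.tra (rp D.L) = D.stab := by
    have := D.tra_eq 1
    rw [one_smul] at this
    rw [this]; simp
  rw [h1, stab_sum D (fun g => ((sn g (rp D.L) : ℤˣ) : ℤ) • (mrep k g) m), opW_eq]
  unfold OkW at h
  have h2 := congrArg (List.map (fun t : ℤ × Mat => t.1 • (mrep k (toG t.2)) m)) h
  rw [List.map_map, List.map_map] at h2
  exact congrArg List.sum h2.symm

end

theorem Bs_mem : ∀ p : Fin 15, (∀ l, (spt (Bs p) l)ᵀ = spt (Bs p) l) ∧ ∀ j, ∑ l, spt (Bs p) l j l = 0 := by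
  decide +kernel

/-- integral basis of traceless tensors -/
def B (p : Fin 15) : trl ℤ := ⟨spt (Bs p), Bs_mem p⟩

theorem B_coe (p : Fin 15) : ((B p : trl ℤ) : Ten ℤ) = spt (Bs p) := rfl

section
variable {k : Type} [Field k]

/-- coordinates -/
def co (m : trl k) (p : Fin 15) : k := (m : Ten k) (fr p).1 (fr p).2.1 (fr p).2.2

/-- table of entries of the basis tensors: entry `(l,i,j)` of basis tensor `p` -/
theorem decomp (m : trl k) : m = ∑ p, co m p • castT k (B p) := by
  obtain ⟨h1, h2⟩ := m.2
  have hs : ∀ l i j, (m : Ten k) l i j = (m : Ten k) l j i := by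
    intro l i j
    have := congrFun (congrFun (h1 l) j) i
    exact this
  have ht := h2
  simp only [Fin.sum_univ_three] at ht
  apply Subtype.ext
  funext l
  ext i j
  have e1 : ((∑ p, co m p • castT k (B p) : trl k) : Ten k) l i j =
      ∑ p, co m p * ((spt (Bs p) l i j : ℤ) : k) := by
    rw [AddSubmonoidClass.coe_finsetSum, Finset.sum_apply, Matrix.sum_apply]
    rfl
  rw [e1]
  have key : ∀ (f : Fin 15 → k), ∑ p, f p * ((spt (Bs p) l i j : ℤ) : k) =
      ∑ p, (if spt (Bs p) l i j = 0 then 0 else f p * ((spt (Bs p) l i j : ℤ) : k)) := by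
    intro f
    apply Finset.sum_congr rfl
    intro p _
    split_ifs with h
    · rw [h]; simp
    · rfl
  have t0 := ht 0
  have t1 := ht 1
  have t2 := ht 2
  have s0 := hs 0
  have s1 := hs 1
  have s2 := hs 2
  have e2 : ∀ p, co m p = (m : Ten k) (fr p).1 (fr p).2.1 (fr p).2.2 := fun p => rfl
  simp only [e2]
  fin_cases l <;> fin_cases i <;> fin_cases j <;>
    simp [Fin.sum_univ_succ, fr, Bs, spt] <;>
    first
    | done
    | (exact s0 _ _)
    | (exact s1 _ _)
    | (exact s2 _ _)
    | (linear_combination t0)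
    | (linear_combination t1)
    | (linear_combination t2)
    | (linear_combination t0 + s1 1 0)
    | (linear_combination t1 - s0 1 0)
    | (linear_combination t2 - s0 2 0 - s1 2 1)

end

end Pool.Agent.H98
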