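import Pool.Agent.H98.InvS

/-!
Explicit data for the irreducibility of traceless tensors.
-/

namespace Pool.Agent.H98

open Matrix

/-- third difference along the highest root -/
def WA : WL :=
  [(1, !![1, 0, 3; 0, 1, 0; 0, 0, 1], !![1, 0, -3; 0, 1, 0; 0, 0, 1]),
    (-3, !![1, 0, 2; 0, 1, 0; 0, 0, 1], !![1, 0, -2; 0, 1, 0; 0, 0, 1]),
    (3, !![1, 0, 1; 0, 1, 0; 0, 0, 1], !![1, 0, -1; 0, 1, 0; 0, 0, 1]),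
    (-1, !![1, 0, 0; 0, 1, 0; 0, 0, 1], !![1, 0, 0; 0, 1, 0; 0, 0, 1])]

/-- highest weight tensor -/
def hvs : SP := [(1, 2, 0, 0)]

/-- generating the basis from the highest weight tensor -/
def WB : Fin 15 → WL :=
  ![[(1, !![1, 0, 1; 1, 0, 0; 0, 1, 0], !![0, 1, 0; 0, 0, 1; 1, -1, 0]),
    (-1, !![1, 0, 0; -1, 0, 1; 0, -1, 0], !![1, 0, 0; 0, 0, -1; 1, 1, 0]),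
    (2, !![1, 0, 0; 0, 0, 1; 0, -1, 0], !![1, 0, 0; 0, 0, -1; 0, 1, 0])],
    [(1, !![1, 0, 1; 0, -1, 0; 1, 0, 0], !![0, 0, 1; 0, -1, 0; 1, 0, -1]),
    (-1, !![1, 0, 0; 0, 1, 0; -1, 0, 1], !![1, 0, 0; 0, 1, 0; 1, 0, 1]),
    (2, !![1, 0, 0; 0, 1, 0; 0, 0, 1], !![1, 0, 0; 0, 1, 0; 0, 0, 1])],
    [(1, !![0, 0, 1; 1, 0, 0; 0, 1, 0], !![0, 1, 0; 0, 0, 1; 1, 0, 0])],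
    [(1, !![0, 0, 1; 1, 0, 0; 1, 1, 0], !![0, 1, 0; 0, -1, 1; 1, 0, 0]),
    (-1, !![0, 0, 1; 1, 0, 0; 0, 1, 0], !![0, 1, 0; 0, 0, 1; 1, 0, 0]),
    (-1, !![0, 0, 1; 0, -1, 0; 1, 0, 0], !![0, 0, 1; 0, -1, 0; 1, 0, 0])],
    [(1, !![0, 0, 1; 0, -1, 0; 1, 0, 0], !![0, 0, 1; 0, -1, 0; 1, 0, 0])],
    [(1, !![1, 0, 0; 0, 0, 1; 0, -1, 0], !![1, 0, 0; 0, 0, -1; 0, 1, 0])],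
    [(1, !![1, 0, 0; 1, 0, 1; 0, -1, 0], !![1, 0, 0; 0, 0, -1; -1, 1, 0]),
    (-1, !![-1, 0, 0; 1, 0, 1; 0, 1, 0], !![-1, 0, 0; 0, 0, 1; 1, 1, 0]),
    (2, !![0, 0, 1; 1, 0, 0; 0, 1, 0], !![0, 1, 0; 0, 0, 1; 1, 0, 0])],
    [(1, !![1, 1, 0; 0, 0, 1; 1, 0, 0], !![0, 0, 1; 1, 0, -1; 0, 1, 0]),
    (-1, !![1, 0, 0; 0, 0, 1; 0, -1, 0], !![1, 0, 0; 0, 0, -1; 0, 1, 0]),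
    (-1, !![0, 1, 0; 0, 0, 1; 1, 0, 0], !![0, 0, 1; 1, 0, 0; 0, 1, 0])],
    [(1, !![0, 1, 0; 1, 0, 1; 1, 0, 0], !![0, 0, 1; 1, 0, 0; 0, 1, -1]),
    (-1, !![0, -1, 0; 1, 0, 0; -1, 0, 1], !![0, 1, 0; -1, 0, 0; 0, 1, 1]),
    (2, !![0, -1, 0; 1, 0, 0; 0, 0, 1], !![0, 1, 0; -1, 0, 0; 0, 0, 1])],
    [(1, !![0, 1, 0; 0, 0, 1; 1, 0, 0], !![0, 0, 1; 1, 0, 0; 0, 1, 0])],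
    [(1, !![1, 0, 0; 0, 1, 0; 0, 0, 1], !![1, 0, 0; 0, 1, 0; 0, 0, 1])],
    [(1, !![1, 0, 0; 1, 1, 0; 0, 0, 1], !![1, 0, 0; -1, 1, 0; 0, 0, 1]),
    (-1, !![1, 0, 0; 0, 1, 0; 0, 0, 1], !![1, 0, 0; 0, 1, 0; 0, 0, 1]),
    (-1, !![0, -1, 0; 1, 0, 0; 0, 0, 1], !![0, 1, 0; -1, 0, 0; 0, 0, 1])],
    [(1, !![1, 0, 0; 0, 1, 0; 1, 0, 1], !![1, 0, 0; 0, 1, 0; -1, 0, 1]),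
    (-1, !![-1, 0, 0; 0, -1, 0; 1, 0, 1], !![-1, 0, 0; 0, -1, 0; 1, 0, 1]),
    (2, !![0, 0, 1; 0, -1, 0; 1, 0, 0], !![0, 0, 1; 0, -1, 0; 1, 0, 0])],
    [(1, !![0, -1, 0; 1, 0, 0; 0, 0, 1], !![0, 1, 0; -1, 0, 0; 0, 0, 1])],
    [(1, !![0, -1, 0; 1, 0, 0; 1, 0, 1], !![0, 1, 0; -1, 0, 0; 0, -1, 1]),
    (-1, !![0, 1, 0; -1, 0, 0; 1, 0, 1], !![0, -1, 0; 1, 0, 0; 0, 1, 1]),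
    (2, !![0, 1, 0; 0, 0, 1; 1, 0, 0], !![0, 0, 1; 1, 0, 0; 0, 1, 0])]]

def NB : Fin 15 → ℤ := ![2, 2, 1, 1, 1, 1, 2, 1, 2, 1, 1, 1, 2, 1, 2]

/-- detecting coordinates -/
def WC : Fin 15 → WL :=
  ![[(6, !![0, 1, 0; 0, 0, 1; 1, 0, 0], !![0, 0, 1; 1, 0, 0; 0, 1, 0]),
    (-2, !![0, 1, 0; -1, 0, 0; 0, 0, 1], !![0, -1, 0; 1, 0, 0; 0, 0, 1]),
    (3, !![1, 0, 0; 0, 0, -1; 1, 1, 0], !![1, 0, 0; -1, 0, 1; 0, -1, 0]),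
    (-3, !![0, 1, 0; 0, 0, 1; 1, -1, 0], !![1, 0, 1; 1, 0, 0; 0, 1, 0]),
    (1, !![0, 1, 0; -1, 0, 0; 0, 1, 1], !![0, -1, 0; 1, 0, 0; -1, 0, 1]),
    (1, !![0, 0, 1; 1, 0, 0; 0, 1, -1], !![0, 1, 0; 1, 0, 1; 1, 0, 0])],
    [(6, !![0, 0, 1; 0, -1, 0; 1, 0, 0], !![0, 0, 1; 0, -1, 0; 1, 0, 0]),
    (-2, !![0, 0, 1; 1, 0, 0; 0, 1, 0], !![0, 1, 0; 0, 0, 1; 1, 0, 0]),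
    (3, !![1, 0, 0; 0, 1, 0; 1, 0, 1], !![1, 0, 0; 0, 1, 0; -1, 0, 1]),
    (-3, !![0, 0, 1; 0, -1, 0; 1, 0, -1], !![1, 0, 1; 0, -1, 0; 1, 0, 0]),
    (-1, !![0, 1, 0; -1, 0, 0; 0, 1, 1], !![0, -1, 0; 1, 0, 0; -1, 0, 1]),
    (1, !![0, 0, 1; 1, 0, 0; 0, 1, -1], !![0, 1, 0; 1, 0, 1; 1, 0, 0])],
    [(1, !![1, 0, 0; 0, 0, -1; 0, 1, 0], !![1, 0, 0; 0, 0, 1; 0, -1, 0])],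
    [(-1, !![1, 0, 0; 0, 0, -1; 0, 1, 0], !![1, 0, 0; 0, 0, 1; 0, -1, 0]),
    (-1, !![1, 0, 0; 0, 1, 0; 0, 0, 1], !![1, 0, 0; 0, 1, 0; 0, 0, 1]),
    (1, !![1, 0, 0; 0, 1, 0; 0, 1, 1], !![1, 0, 0; 0, 1, 0; 0, -1, 1])],
    [(1, !![1, 0, 0; 0, 1, 0; 0, 0, 1], !![1, 0, 0; 0, 1, 0; 0, 0, 1])],
    [(1, !![0, 1, 0; 0, 0, 1; 1, 0, 0], !![0, 0, 1; 1, 0, 0; 0, 1, 0])],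
    [(6, !![1, 0, 0; 0, 0, -1; 0, 1, 0], !![1, 0, 0; 0, 0, 1; 0, -1, 0]),
    (-2, !![1, 0, 0; 0, 1, 0; 0, 0, 1], !![1, 0, 0; 0, 1, 0; 0, 0, 1]),
    (-3, !![1, 0, 0; 0, 0, -1; 1, 1, 0], !![1, 0, 0; -1, 0, 1; 0, -1, 0]),
    (-3, !![0, 1, 0; 0, 0, 1; 1, -1, 0], !![1, 0, 1; 1, 0, 0; 0, 1, 0]),
    (1, !![1, 0, 0; 0, 1, 0; 1, 0, 1], !![1, 0, 0; 0, 1, 0; -1, 0, 1]),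
    (1, !![0, 0, 1; 0, -1, 0; 1, 0, -1], !![1, 0, 1; 0, -1, 0; 1, 0, 0])],
    [(-1, !![0, 1, 0; 0, 0, 1; 1, 0, 0], !![0, 0, 1; 1, 0, 0; 0, 1, 0]),
    (-1, !![0, 1, 0; -1, 0, 0; 0, 0, 1], !![0, -1, 0; 1, 0, 0; 0, 0, 1]),
    (1, !![0, 1, 0; 0, 0, 1; 1, 0, 1], !![0, -1, 1; 1, 0, 0; 0, 1, 0])],
    [(-2, !![0, 0, 1; 0, -1, 0; 1, 0, 0], !![0, 0, 1; 0, -1, 0; 1, 0, 0]),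
    (6, !![0, 0, 1; 1, 0, 0; 0, 1, 0], !![0, 1, 0; 0, 0, 1; 1, 0, 0]),
    (-1, !![1, 0, 0; 0, 1, 0; 1, 0, 1], !![1, 0, 0; 0, 1, 0; -1, 0, 1]),
    (1, !![0, 0, 1; 0, -1, 0; 1, 0, -1], !![1, 0, 1; 0, -1, 0; 1, 0, 0]),
    (3, !![0, 1, 0; -1, 0, 0; 0, 1, 1], !![0, -1, 0; 1, 0, 0; -1, 0, 1]),
    (-3, !![0, 0, 1; 1, 0, 0; 0, 1, -1], !![0, 1, 0; 1, 0, 1; 1, 0, 0])],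
    [(1, !![0, 1, 0; -1, 0, 0; 0, 0, 1], !![0, -1, 0; 1, 0, 0; 0, 0, 1])],
    [(1, !![0, 0, 1; 0, -1, 0; 1, 0, 0], !![0, 0, 1; 0, -1, 0; 1, 0, 0])],
    [(-1, !![0, 0, 1; 0, -1, 0; 1, 0, 0], !![0, 0, 1; 0, -1, 0; 1, 0, 0]),
    (-1, !![0, 0, 1; 1, 0, 0; 0, 1, 0], !![0, 1, 0; 0, 0, 1; 1, 0, 0]),
    (1, !![0, 0, 1; 1, 0, 0; 1, 1, 0], !![0, 1, 0; 0, -1, 1; 1, 0, 0])],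
    [(-2, !![1, 0, 0; 0, 0, -1; 0, 1, 0], !![1, 0, 0; 0, 0, 1; 0, -1, 0]),
    (6, !![1, 0, 0; 0, 1, 0; 0, 0, 1], !![1, 0, 0; 0, 1, 0; 0, 0, 1]),
    (1, !![1, 0, 0; 0, 0, -1; 1, 1, 0], !![1, 0, 0; -1, 0, 1; 0, -1, 0]),
    (1, !![0, 1, 0; 0, 0, 1; 1, -1, 0], !![1, 0, 1; 1, 0, 0; 0, 1, 0]),
    (-3, !![1, 0, 0; 0, 1, 0; 1, 0, 1], !![1, 0, 0; 0, 1, 0; -1, 0, 1]),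
    (-3, !![0, 0, 1; 0, -1, 0; 1, 0, -1], !![1, 0, 1; 0, -1, 0; 1, 0, 0])],
    [(1, !![0, 0, 1; 1, 0, 0; 0, 1, 0], !![0, 1, 0; 0, 0, 1; 1, 0, 0])],
    [(-2, !![0, 1, 0; 0, 0, 1; 1, 0, 0], !![0, 0, 1; 1, 0, 0; 0, 1, 0]),
    (6, !![0, 1, 0; -1, 0, 0; 0, 0, 1], !![0, -1, 0; 1, 0, 0; 0, 0, 1]),
    (-1, !![1, 0, 0; 0, 0, -1; 1, 1, 0], !![1, 0, 0; -1, 0, 1; 0, -1, 0]),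
    (1, !![0, 1, 0; 0, 0, 1; 1, -1, 0], !![1, 0, 1; 1, 0, 0; 0, 1, 0]),
    (-3, !![0, 1, 0; -1, 0, 0; 0, 1, 1], !![0, -1, 0; 1, 0, 0; -1, 0, 1]),
    (-3, !![0, 0, 1; 1, 0, 0; 0, 1, -1], !![0, 1, 0; 1, 0, 1; 1, 0, 0])]]

def NC : Fin 15 → ℤ := ![16, 16, 1, 2, 1, 1, 16, 2, 16, 1, 1, 2, 16, 1, 16]

end Pool.Agent.H98
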