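import Pool.Agent.H98.IrrData

/-!
Traceless tensors form an irreducible representation of `SL_3(ℤ)` when `6 ≠ 0`.
-/

namespace Pool.Agent.H98

open Matrix

theorem vWA : Val WA := by decide +kernel
theorem vWB : ∀ q, Val (WB q) := by decide +kernel
theorem vWC : ∀ q, Val (WC q) := by decide +kernel

theorem tmhv : Tm hvs := by decide +kernel

/-- the highest weight tensor -/
def hv : trl ℤ := ⟨spt hvs, tmhv⟩

theorem ckA : ∀ p : Fin 15, ∀ l i j : Fin 3,
    evW WA (Bs p) l i j = (if p = 4 then -6 else 0) * spt hvs l i j := by decide +kernel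

theorem ckB : ∀ q : Fin 15, ∀ l i j : Fin 3, evW (WB q) hvs l i j = NB q * spt (Bs q) l i j := by
  decide +kernel

theorem ckC : ∀ q p : Fin 15, evW (WC q) (Bs p) 0 2 2 = if p = q then NC q else 0 := by
  decide +kernel

theorem oA (p : Fin 15) : opW ℤ WA (B p) = (if p = 4 then (-6 : ℤ) else 0) • hv := trl_ext fun l i j => by
  rw [opW_eval vWA (B_coe p), ckA]; rfl

theorem oB (q : Fin 15) : opW ℤ (WB q) hv = NB q • B q := trl_ext fun l i j => by
  rw [opW_eval (vWB q) (L := hvs) rfl, ckB]; rfl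

theorem NB_eq : ∀ q, NB q = 1 ∨ NB q = 2 := by decide
theorem NC_eq : ∀ q, NC q = 1 ∨ NC q = 2 ∨ NC q = 2 * 2 * 2 * 2 := by decide

section
variable {k : Type} [Field k]

theorem opW_mem {U : Submodule k (trl k)} (hU : ∀ g : Gam, ∀ x ∈ U, mrep k g x ∈ U) (W : WL)
    {x : trl k} (hx : x ∈ U) : opW k W x ∈ U := by
  induction W with
  | nil => rw [opW_nil]; exact U.zero_mem
  | cons t W ih =>
    rw [opW_cons]
    exact U.add_mem (zsmul_mem (hU _ _ hx) _) ih

theorem opA (x : trl k) : opW k WA x = (-6 * co x 4) • castT k hv := by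
  rw [opW_decomp, Finset.sum_eq_single 4]
  · rw [oA, if_pos rfl, castT_zsmul, smul_smul]
    congr 1
    push_cast
    ring
  · intro p _ hp
    rw [oA, if_neg hp, zero_smul, map_zero, smul_zero]
  · intro h; exact absurd (Finset.mem_univ _) h

theorem opC (q : Fin 15) (x : trl k) : ((opW k (WC q) x : trl k) : Ten k) 0 2 2 = (NC q : k) * co x q := by
  rw [opW_decomp, AddSubmonoidClass.coe_finsetSum, Finset.sum_apply, Matrix.sum_apply,
    Finset.sum_eq_single q]
  · change co x q * (((opW ℤ (WC q) (B q) : trl ℤ) : Ten ℤ) 0 2 2 : k) = _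
    rw [opW_eval (vWC q) (B_coe q), ckC, if_pos rfl, mul_comm]
  · intro p _ hp
    change co x p * (((opW ℤ (WC q) (B p) : trl ℤ) : Ten ℤ) 0 2 2 : k) = _
    rw [opW_eval (vWC q) (B_coe p), ckC, if_neg hp, Int.cast_zero, mul_zero]
  · intro h; exact absurd (Finset.mem_univ _) h

theorem co4 (x : trl k) : co x 4 = (x : Ten k) 0 2 2 := rfl

theorem NC_ne (h6 : (6 : k) ≠ 0) (q : Fin 15) : (NC q : k) ≠ 0 := by
  have h2 := two_ne' h6
  rcases NC_eq q with h | h | h <;> rw [h]
  · simp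
  · exact_mod_cast h2
  · rw [Int.cast_mul, Int.cast_mul, Int.cast_mul, Int.cast_ofNat]
    exact mul_ne_zero (mul_ne_zero (mul_ne_zero h2 h2) h2) h2
where
  two_ne' (h6 : (6 : k) ≠ 0) : (2 : k) ≠ 0 := by
    intro h; apply h6
    have : (6 : k) = 2 * 3 := by norm_num
    rw [this, h, zero_mul]

theorem NB_ne (h6 : (6 : k) ≠ 0) (q : Fin 15) : (NB q : k) ≠ 0 := by
  have h2 := NC_ne.two_ne' h6
  rcases NB_eq q with h | h <;> rw [h]
  · simp
  · exact_mod_cast h2

/-- **Irreducibility** -/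
theorem irred (h6 : (6 : k) ≠ 0) (U : Submodule k (trl k))
    (hU : ∀ g : Gam, ∀ x ∈ U, mrep k g x ∈ U) (hne : U ≠ ⊥) : U = ⊤ := by
  obtain ⟨x, hx, hx0⟩ := U.ne_bot_iff.1 hne
  -- some coordinate is nonzero
  have h1 : ∃ q, co x q ≠ 0 := by
    by_contra hcon
    push Not at hcon
    apply hx0
    rw [decomp x]
    apply Finset.sum_eq_zero
    intro p _
    rw [hcon p, zero_smul]
  obtain ⟨q, hq⟩ := h1
  -- move it
  set y := opW k (WC q) x with hy
  have hyU : y ∈ U := opW_mem hU _ hx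
  have hy4 : co y 4 ≠ 0 := by
    rw [co4, hy, opC]
    exact mul_ne_zero (NC_ne h6 q) hq
  have hvU : castT k hv ∈ U := by
    have h2 : opW k WA y ∈ U := opW_mem hU _ hyU
    rw [opA] at h2
    have hc : (-6 * co y 4) ≠ 0 := mul_ne_zero (neg_ne_zero.2 h6) hy4
    have h3 := U.smul_mem (-6 * co y 4)⁻¹ h2
    rwa [smul_smul, inv_mul_cancel₀ hc, one_smul] at h3
  have hB : ∀ p, castT k (B p) ∈ U := by
    intro p
    have h2 : opW k (WB p) (castT k hv) ∈ U := opW_mem hU _ hvU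
    rw [← opW_cast, oB, castT_zsmul] at h2
    have h3 := U.smul_mem ((NB p : k))⁻¹ h2
    rwa [smul_smul, inv_mul_cancel₀ (NB_ne h6 p), one_smul] at h3
  rw [eq_top_iff]
  intro z _
  rw [decomp z]
  exact U.sum_mem fun p _ => U.smul_mem _ (hB p)

end

end Pool.Agent.H98
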