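import Mathlib

/-!
The representation of `SL_3` on traceless tensors in `Sym² ⊗ dual`, over any commutative ring.
-/

namespace Pool.Agent.H98

open Matrix

/-- `T l i j` is the coefficient of `e_i e_j ⊗ e_l^*`. -/
abbrev Ten (R : Type) := Fin 3 → Matrix (Fin 3) (Fin 3) R

section
variable {R : Type} [CommRing R]

/-- The action of `g` on tensors. -/
def tact (g : SpecialLinearGroup (Fin 3) R) : Ten R →ₗ[R] Ten R where
  toFun T l := ∑ c, (g⁻¹).1 c l • (g.1 * T c * g.1ᵀ)
  map_add' S T := by
    funext l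
    simp only [Pi.add_apply, Matrix.mul_add, Matrix.add_mul, smul_add, Finset.sum_add_distrib]
  map_smul' x T := by
    funext l
    simp only [Pi.smul_apply, Matrix.mul_smul, Matrix.smul_mul, RingHom.id_apply, Finset.smul_sum,
      smul_comm x]

theorem tact_apply (g : SpecialLinearGroup (Fin 3) R) (T : Ten R) (l : Fin 3) :
    tact g T l = ∑ c, (g⁻¹).1 c l • (g.1 * T c * g.1ᵀ) := rfl

theorem tact_one : tact (1 : SpecialLinearGroup (Fin 3) R) = 1 := by
  apply LinearMap.ext
  intro T
  funext l
  rw [tact_apply]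
  simp only [inv_one, Matrix.SpecialLinearGroup.coe_one, Matrix.one_mul, Matrix.transpose_one,
    Matrix.mul_one, Matrix.one_apply, ite_smul, one_smul, zero_smul, Finset.sum_ite_eq',
    Finset.mem_univ, if_true]
  rfl

theorem tact_mul (g h : SpecialLinearGroup (Fin 3) R) : tact (g * h) = tact g * tact h := by
  apply LinearMap.ext
  intro T
  funext l
  rw [Module.End.mul_apply, tact_apply, tact_apply]
  simp only [tact_apply, Matrix.mul_sum, Matrix.sum_mul, Finset.smul_sum]
  rw [Finset.sum_comm]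
  apply Finset.sum_congr rfl
  intro d _
  rw [_root_.mul_inv_rev, Matrix.SpecialLinearGroup.coe_mul, Matrix.SpecialLinearGroup.coe_mul,
    Matrix.mul_apply, Finset.sum_smul]
  apply Finset.sum_congr rfl
  intro c _
  rw [Matrix.transpose_mul, Matrix.mul_smul, Matrix.smul_mul, smul_smul, mul_comm]
  congr 1
  simp only [Matrix.mul_assoc]

variable (R) in
/-- The tensor representation. -/
def tensRep : Representation R (SpecialLinearGroup (Fin 3) R) (Ten R) where
  toFun := tact
  map_one' := tact_one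
  map_mul' := tact_mul

variable (R) in
/-- Symmetric traceless tensors. -/
def trl : Submodule R (Ten R) where
  carrier := {T | (∀ l, (T l)ᵀ = T l) ∧ ∀ j, ∑ l, T l j l = 0}
  add_mem' := by
    rintro S T ⟨h1, h2⟩ ⟨h3, h4⟩
    refine ⟨fun l => ?_, fun j => ?_⟩
    · rw [Pi.add_apply, Matrix.transpose_add, h1, h3]
    · simp only [Pi.add_apply, Matrix.add_apply, Finset.sum_add_distrib, h2, h4, add_zero]
  zero_mem' := ⟨fun l => by simp, fun j => by simp⟩
  smul_mem' := by
    rintro x T ⟨h1, h2⟩
    refine ⟨fun l => ?_, fun j => ?_⟩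
    · rw [Pi.smul_apply, Matrix.transpose_smul, h1]
    · simp only [Pi.smul_apply, Matrix.smul_apply, ← Finset.smul_sum, h2, smul_zero]

theorem mem_trl {T : Ten R} : T ∈ trl R ↔ (∀ l, (T l)ᵀ = T l) ∧ ∀ j, ∑ l, T l j l = 0 := Iff.rfl

theorem tact_mem (g : SpecialLinearGroup (Fin 3) R) {T : Ten R} (hT : T ∈ trl R) :
    tact g T ∈ trl R := by
  obtain ⟨h1, h2⟩ := hT
  refine ⟨fun l => ?_, fun j => ?_⟩
  · rw [tact_apply, Matrix.transpose_sum]
    apply Finset.sum_congr rfl
    intro c _
    rw [Matrix.transpose_smul, Matrix.transpose_mul, Matrix.transpose_mul, Matrix.transpose_transpose,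
      h1, Matrix.mul_assoc]
  · have key : ∀ l, tact g T l j l = ∑ c, ((g.1 * T c) * (g.1ᵀ)) j l * (g⁻¹).1 c l := by
      intro l
      rw [tact_apply, Matrix.sum_apply]
      apply Finset.sum_congr rfl
      intro c _
      rw [Matrix.smul_apply, smul_eq_mul, mul_comm]
    simp only [key]
    rw [Finset.sum_comm]
    have h3 : ∀ c, ∑ l, ((g.1 * T c) * (g.1ᵀ)) j l * (g⁻¹).1 c l = (g.1 * T c) j c := by
      intro c
      have e1 : ∑ l, ((g.1 * T c) * (g.1ᵀ)) j l * (g⁻¹).1 c l =
          (((g.1 * T c) * (g.1ᵀ)) * ((g⁻¹).1)ᵀ) j c := by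
        rw [Matrix.mul_apply]; rfl
      have e2 : (g.1ᵀ) * ((g⁻¹).1)ᵀ = 1 := by
        rw [← Matrix.transpose_mul, ← Matrix.SpecialLinearGroup.coe_mul, inv_mul_cancel]
        simp
      rw [e1, Matrix.mul_assoc, e2, Matrix.mul_one]
    rw [Finset.sum_congr rfl (fun c _ => h3 c)]
    simp only [Matrix.mul_apply]
    rw [Finset.sum_comm]
    apply Finset.sum_eq_zero
    intro a _
    rw [← Finset.mul_sum, h2, mul_zero]

variable (R) in
/-- The representation of `SL_3(R)` on traceless tensors. -/
def trlRep : Representation R (SpecialLinearGroup (Fin 3) R) (trl R) where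
  toFun g := (tact g).restrict (fun _ hT => tact_mem g hT)
  map_one' := by
    apply LinearMap.ext
    intro T
    apply Subtype.ext
    rw [LinearMap.coe_restrict_apply, tact_one]; rfl
  map_mul' g h := by
    apply LinearMap.ext
    intro T
    apply Subtype.ext
    rw [LinearMap.coe_restrict_apply, tact_mul]; rfl

theorem trlRep_coe (g : SpecialLinearGroup (Fin 3) R) (T : trl R) :
    ((trlRep R g T : trl R) : Ten R) = tact g T := rfl

variable (R) in
/-- The representation of `SL_3(ℤ)` on traceless tensors over `R`. -/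
def mrep : Representation R (SpecialLinearGroup (Fin 3) ℤ) (trl R) :=
  (trlRep R).comp (SpecialLinearGroup.map (Int.castRingHom R))

theorem mrep_coe (g : SpecialLinearGroup (Fin 3) ℤ) (T : trl R) :
    ((mrep R g T : trl R) : Ten R) = tact (SpecialLinearGroup.map (Int.castRingHom R) g) T := rfl

theorem mrep_apply (g : SpecialLinearGroup (Fin 3) ℤ) (T : trl R) (l i j : Fin 3) :
    ((mrep R g T : trl R) : Ten R) l i j =
      ∑ c, (((g⁻¹).1 c l : ℤ) : R) * ∑ b, (∑ a, ((g.1 i a : ℤ) : R) * (T : Ten R) c a b) * ((g.1 j b : ℤ) : R) := by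
  rw [mrep_coe, tact_apply, Matrix.sum_apply]
  apply Finset.sum_congr rfl
  intro c _
  rw [Matrix.smul_apply, smul_eq_mul, ← map_inv, Matrix.mul_apply]
  rfl

end

section cast
variable (R : Type) [CommRing R]

/-- Reduction of integral tensors. -/
def castT : trl ℤ →+ trl R where
  toFun T := ⟨fun l => ((T : Ten ℤ) l).map (Int.cast), by
    obtain ⟨h1, h2⟩ := T.2
    refine ⟨fun l => ?_, fun j => ?_⟩
    · change (((T : Ten ℤ) l).map (Int.cast : ℤ → R))ᵀ = ((T : Ten ℤ) l).map (Int.cast : ℤ → R)
      rw [← Matrix.transpose_map, h1]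
    · change ∑ l, (((T : Ten ℤ) l j l : ℤ) : R) = 0
      rw [← Int.cast_sum, h2, Int.cast_zero]⟩
  map_zero' := by
    apply Subtype.ext; funext l; ext i j; simp
  map_add' S T := by
    apply Subtype.ext; funext l; ext i j; simp

theorem castT_apply (T : trl ℤ) (l i j : Fin 3) :
    ((castT R T : trl R) : Ten R) l i j = (((T : Ten ℤ) l i j : ℤ) : R) := rfl

theorem castT_mrep (g : SpecialLinearGroup (Fin 3) ℤ) (T : trl ℤ) :
    castT R (mrep ℤ g T) = mrep R g (castT R T) := by
  apply Subtype.ext
  funext l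
  ext i j
  rw [castT_apply, mrep_apply, mrep_apply]
  simp only [castT_apply]
  push_cast
  simp

theorem castT_zsmul (n : ℤ) (T : trl ℤ) : castT R (n • T) = (n : R) • castT R T := by
  rw [map_zsmul]
  exact (Int.cast_smul_eq_zsmul R n _).symm

end cast

end Pool.Agent.H98
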