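import Pool.Agent.H98.Data

/-!
Signed sums of group elements acting on tensors.
-/

namespace Pool.Agent.H98

open Matrix

/-- sparse tensor -/
def spt (L : SP) : Ten ℤ := fun l => Matrix.of fun i j =>
  (L.map (fun t => if t.2.1 = l ∧ t.2.2.1 = i ∧ t.2.2.2 = j then t.1 else 0)).sum

/-- fast evaluation of a signed sum on a sparse tensor -/
def evW (W : WL) (L : SP) (l i j : Fin 3) : ℤ :=
  (W.map (fun t => t.1 * (L.map (fun u => u.1 * (t.2.2 u.2.1 l * t.2.1 i u.2.2.1 * t.2.1 j u.2.2.2))).sum)).sum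

/-- total version of `mkG` -/
def toG (M : Mat) : Gam := if h : M.det = 1 then mkG M h else 1

theorem toG_mk {M : Mat} (h : M.det = 1) : toG M = mkG M h := by unfold toG; rw [dif_pos h]

theorem toG_val {M : Mat} (h : M.det = 1) : (toG M).1 = M := by rw [toG_mk h]; rfl

theorem toG_inv {M N : Mat} (h : M.det = 1) (h' : M * N = 1) : ((toG M)⁻¹).1 = N := by
  have h1 : ((toG M)⁻¹).1 * (toG M).1 = 1 := by
    rw [← Matrix.SpecialLinearGroup.coe_mul, inv_mul_cancel]; rfl
  rw [toG_val h] at h1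
  calc ((toG M)⁻¹).1 = ((toG M)⁻¹).1 * (M * N) := by rw [h', Matrix.mul_one]
    _ = N := by rw [← Matrix.mul_assoc, h1, Matrix.one_mul]

/-- validity of the data -/
def Val (W : WL) : Prop := ∀ t ∈ W, t.2.1.det = 1 ∧ t.2.1 * t.2.2 = 1

instance (W : WL) : Decidable (Val W) := by unfold Val; infer_instance

section
variable (R : Type) [CommRing R]

/-- the operator of a signed list -/
def opW : WL → (trl R →ₗ[R] trl R)
  | [] => 0
  | (t :: W) => t.1 • mrep R (toG t.2.1) + opW W

theorem opW_nil : opW R [] = 0 := rfl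

theorem opW_cons (t : ℤ × Mat × Mat) (W : WL) (x : trl R) :
    opW R (t :: W) x = t.1 • mrep R (toG t.2.1) x + opW R W x := rfl

theorem opW_eq (W : WL) (x : trl R) : opW R W x = (W.map (fun t => t.1 • mrep R (toG t.2.1) x)).sum := by
  induction W with
  | nil => rfl
  | cons t W ih => rw [opW_cons, List.map_cons, List.sum_cons, ih]

theorem opW_cast (W : WL) (x : trl ℤ) : castT R (opW ℤ W x) = opW R W (castT R x) := by
  induction W with
  | nil => rw [opW_nil, opW_nil]; simp
  | cons t W ih => rw [opW_cons, opW_cons, map_add, ih, map_zsmul, castT_mrep]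

end

theorem spt_cons (u : ℤ × Fin 3 × Fin 3 × Fin 3) (L : SP) (l i j : Fin 3) :
    spt (u :: L) l i j = (if u.2.1 = l ∧ u.2.2.1 = i ∧ u.2.2.2 = j then u.1 else 0) + spt L l i j := rfl

theorem ev_single (g gi : Mat) (L : SP) (l i j : Fin 3) :
    ∑ c, gi c l * ∑ b, (∑ a, g i a * spt L c a b) * g j b =
      (L.map (fun u => u.1 * (gi u.2.1 l * g i u.2.2.1 * g j u.2.2.2))).sum := by
  induction L with
  | nil => simp [spt]
  | cons u L ih =>
    rw [List.map_cons, List.sum_cons, ← ih]
    simp only [spt_cons, mul_add, Finset.sum_add_distrib, add_mul]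
    congr 1
    obtain ⟨x, c0, a0, b0⟩ := u
    simp only [ite_and, mul_ite, mul_zero, Finset.sum_ite_eq, Finset.sum_ite_irrel, ite_mul, zero_mul,
      Finset.mem_univ, if_true, Finset.sum_const_zero]
    ring

theorem opW_eval {W : WL} (hW : Val W) {x : trl ℤ} {L : SP} (hx : (x : Ten ℤ) = spt L) (l i j : Fin 3) :
    ((opW ℤ W x : trl ℤ) : Ten ℤ) l i j = evW W L l i j := by
  induction W with
  | nil => rfl
  | cons t W ih =>
    have h1 := hW t (List.mem_cons_self ..)
    have h2 : Val W := fun t' ht' => hW t' (List.mem_cons_of_mem _ ht')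
    rw [opW_cons]
    unfold evW
    rw [List.map_cons, List.sum_cons]
    have h3 := ih h2
    unfold evW at h3
    rw [← h3]
    have h4 : ((mrep ℤ (toG t.2.1) x : trl ℤ) : Ten ℤ) l i j =
        (L.map (fun u => u.1 * (t.2.2 u.2.1 l * t.2.1 i u.2.2.1 * t.2.1 j u.2.2.2))).sum := by
      rw [mrep_apply, ← ev_single, hx, toG_inv h1.1 h1.2, toG_val h1.1]
      simp only [Int.cast_id]
    rw [← h4]
    rfl

end Pool.Agent.H98
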