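import Pool.Agent.H98.Table

/-!
Orbit decomposition of the cells; transporters.
-/

namespace Pool.Agent.H98

open Matrix

theorem Dc_one : Dc 1 = rp L6 := by
  have h1 : Dc 1 = Finset.univ.image r := by unfold Dc; simp
  rw [h1]; decide +kernel

theorem frame_one : frame 1 = rp L3 := by
  unfold frame
  simp only [one_smul]
  decide +kernel

theorem smul_rpL6 (g : Gam) : g • rp L6 = Dc g := by rw [← Dc_one, smul_Dc, mul_one]

theorem smul_rpL3 (g : Gam) : g • rp L3 = frame g := by rw [← frame_one, smul_frame, mul_one]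

theorem cell6 : IsCell (rp L6) := by rw [← Dc_one]; exact isCell_Dc 1

theorem cell_of_sub {L : List Vec} (h1 : rp L3 ⊆ rp L) (h2 : rp L ⊆ rp L6) : IsCell (rp L) :=
  ⟨⟨1, by rw [Dc_one]; exact h2⟩, ⟨1, by rw [frame_one]; exact h1⟩⟩

theorem cell5 : IsCell (rp L5) := cell_of_sub (by decide +kernel) (by decide +kernel)
theorem cell4p : IsCell (rp L4p) := cell_of_sub (by decide +kernel) (by decide +kernel)
theorem cell3 : IsCell (rp L3) := cell_of_sub (by decide +kernel) (by decide +kernel)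

theorem cell4c : IsCell (rp L4c) := by
  have h1 := T4c_5_spec (![1, 1, 0], !![0, 1, 0; 1, 1, 0; 0, 0, -1]) (by decide +kernel)
  have h2 : IsCell (insert (vv ![1, 1, 0]) (rp L4c)) := by
    have e : insert (vv ![1, 1, 0]) (rp L4c) = mact !![0, 1, 0; 1, 1, 0; 0, 0, -1] L5 := h1.2.2
    rw [e, ← smul_rp h1.1]
    exact cell5.smul _
  have h3 : rp L3 ⊆ rp L4c := by decide +kernel
  exact cell3.mono h2 h3 (Finset.subset_insert _ _)

/-- description of the cofaces -/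
theorem mem_cof5 {v : Ray} : v ∈ cof (rp L5) ↔ ∃ e ∈ T5_6, v = vv e.1 := by
  constructor
  · intro h
    obtain ⟨u, hu, rfl⟩ := cof_sub (by decide +kernel) chkT5 h
    obtain ⟨e, he, rfl⟩ := List.mem_map.1 hu
    exact ⟨e, he, rfl⟩
  · rintro ⟨e, he, rfl⟩
    obtain ⟨h1, h2, h3⟩ := T5_6_spec e he
    exact mem_cof.2 ⟨cell5, h2, by rw [h3, ← smul_rp h1]; exact cell6.smul _⟩

theorem mem_cof4c {v : Ray} : v ∈ cof (rp L4c) ↔ ∃ e ∈ T4c_5, v = vv e.1 := by
  constructor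
  · intro h
    obtain ⟨u, hu, rfl⟩ := cof_sub (by decide +kernel) chkT4c h
    obtain ⟨e, he, rfl⟩ := List.mem_map.1 hu
    exact ⟨e, he, rfl⟩
  · rintro ⟨e, he, rfl⟩
    obtain ⟨h1, h2, h3⟩ := T4c_5_spec e he
    exact mem_cof.2 ⟨cell4c, h2, by rw [h3, ← smul_rp h1]; exact cell5.smul _⟩

theorem mem_cof4p {v : Ray} : v ∈ cof (rp L4p) ↔ ∃ e ∈ T4p_5, v = vv e.1 := by
  constructor
  · intro h
    obtain ⟨u, hu, rfl⟩ := cof_sub (by decide +kernel) chkT4p h
    obtain ⟨e, he, rfl⟩ := List.mem_map.1 hu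
    exact ⟨e, he, rfl⟩
  · rintro ⟨e, he, rfl⟩
    obtain ⟨h1, h2, h3⟩ := T4p_5_spec e he
    exact mem_cof.2 ⟨cell4p, h2, by rw [h3, ← smul_rp h1]; exact cell5.smul _⟩

theorem mem_cof3 {v : Ray} :
    v ∈ cof (rp L3) ↔ (∃ e ∈ T3_4c, v = vv e.1) ∨ (∃ e ∈ T3_4p, v = vv e.1) := by
  constructor
  · intro h
    obtain ⟨u, hu, rfl⟩ := cof_sub (by decide +kernel) chkT3 h
    obtain ⟨e, he, rfl⟩ := List.mem_map.1 hu
    rw [List.mem_append] at he
    rcases he with he | he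
    · left; exact ⟨e, he, rfl⟩
    · right; exact ⟨e, he, rfl⟩
  · rintro (⟨e, he, rfl⟩ | ⟨e, he, rfl⟩)
    · obtain ⟨h1, h2, h3⟩ := T3_4c_spec e he
      exact mem_cof.2 ⟨cell3, h2, by rw [h3, ← smul_rp h1]; exact cell4c.smul _⟩
    · obtain ⟨h1, h2, h3⟩ := T3_4p_spec e he
      exact mem_cof.2 ⟨cell3, h2, by rw [h3, ← smul_rp h1]; exact cell4p.smul _⟩

/-- every cell with more than three rays is obtained by adding a ray to a cell -/
theorem exists_face {σ : Finset Ray} (h : IsCell σ) (hc : 3 < σ.card) :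
    ∃ v ∈ σ, IsCell (σ.erase v) ∧ v ∈ cof (σ.erase v) := by
  obtain ⟨hg, ⟨f, hf⟩⟩ := h
  have : (frame f).card < σ.card := by rw [card_frame]; exact hc
  obtain ⟨v, hv, hvf⟩ := Finset.exists_mem_notMem_of_card_lt_card this
  have hcell : IsCell (σ.erase v) := by
    refine ⟨?_, ⟨f, ?_⟩⟩
    · obtain ⟨g, hg⟩ := hg
      exact ⟨g, (Finset.erase_subset _ _).trans hg⟩
    · intro S hS
      exact Finset.mem_erase.2 ⟨fun hh => hvf (by rw [← hh]; exact hS), hf hS⟩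
  refine ⟨v, hv, hcell, ?_⟩
  rw [mem_cof]
  refine ⟨hcell, Finset.notMem_erase _ _, ?_⟩
  rw [Finset.insert_erase hv]
  exact ⟨hg, ⟨f, hf⟩⟩

theorem orbit3 {σ : Finset Ray} (h : IsCell σ) (hc : σ.card = 3) : ∃ g : Gam, σ = g • rp L3 := by
  obtain ⟨_, ⟨f, hf⟩⟩ := h
  refine ⟨f, ?_⟩
  rw [smul_rpL3]
  exact (Finset.eq_of_subset_of_card_le hf (by rw [card_frame, hc])).symm

theorem orbit_step {L L' : List Vec} {T : List (Vec × Matrix (Fin 3) (Fin 3) ℤ)}
    (hT : ∀ e ∈ T, e.2.det = 1 ∧ vv e.1 ∉ rp L ∧ insert (vv e.1) (rp L) = mact e.2 L')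
    {g : Gam} {v : Ray} {σ : Finset Ray} (hσ : σ.erase v = g • rp L) (hv : v ∈ σ)
    (he : ∃ e ∈ T, g⁻¹ • v = vv e.1) : ∃ g' : Gam, σ = g' • rp L' := by
  obtain ⟨e, he, h1⟩ := he
  obtain ⟨h2, _, h4⟩ := hT e he
  refine ⟨g * mkG e.2 h2, ?_⟩
  rw [mul_smul, smul_rp h2, ← h4, smul_insert', ← h1, smul_inv_smul, ← hσ, Finset.insert_erase hv]

theorem inv_mem_cof {g : Gam} {v : Ray} {τ : Finset Ray} (h : v ∈ cof (g • τ)) : g⁻¹ • v ∈ cof τ := by
  rw [cof_smul, mem_fsmul] at h; exact h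

theorem orbit4 {σ : Finset Ray} (h : IsCell σ) (hc : σ.card = 4) :
    (∃ g : Gam, σ = g • rp L4c) ∨ (∃ g : Gam, σ = g • rp L4p) := by
  obtain ⟨v, hv, h1, h2⟩ := exists_face h (by omega)
  obtain ⟨g, hg⟩ := orbit3 h1 (by rw [Finset.card_erase_of_mem hv, hc])
  rw [hg] at h2
  rcases mem_cof3.1 (inv_mem_cof h2) with h3 | h3
  · left; exact orbit_step T3_4c_spec hg hv h3
  · right; exact orbit_step T3_4p_spec hg hv h3

theorem orbit5 {σ : Finset Ray} (h : IsCell σ) (hc : σ.card = 5) : ∃ g : Gam, σ = g • rp L5 := by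
  obtain ⟨v, hv, h1, h2⟩ := exists_face h (by omega)
  rcases orbit4 h1 (by rw [Finset.card_erase_of_mem hv, hc]) with ⟨g, hg⟩ | ⟨g, hg⟩
  · rw [hg] at h2
    exact orbit_step T4c_5_spec hg hv (mem_cof4c.1 (inv_mem_cof h2))
  · rw [hg] at h2
    exact orbit_step T4p_5_spec hg hv (mem_cof4p.1 (inv_mem_cof h2))

theorem orbit6 {σ : Finset Ray} (h : IsCell σ) (hc : σ.card = 6) : ∃ g : Gam, σ = g • rp L6 := by
  obtain ⟨⟨g, hg⟩, _⟩ := h
  refine ⟨g, ?_⟩
  rw [smul_rpL6]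
  exact Finset.eq_of_subset_of_card_le hg (by rw [card_Dc, hc])

theorem not_same_orbit (g : Gam) : g • rp L4p ≠ rp L4c := by
  intro h
  have key : ∀ a ∈ L4c, ∀ b ∈ L4c, ∀ c ∈ L4c, a ≠ b → a ≠ c → b ≠ c → det3 a b c ≠ 0 := by
    decide +kernel
  have hm : ∀ x ∈ L4p, ∃ a ∈ L4c, (g.1 *ᵥ x = a ∨ g.1 *ᵥ x = -a) := by
    intro x hx
    have : g • vv x ∈ rp L4c := by rw [← h, smul_mem_fsmul]; exact mem_rp.2 ⟨x, hx, rfl⟩
    obtain ⟨a, ha, h1⟩ := mem_rp.1 this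
    rw [smul_vv] at h1
    exact ⟨a, ha, vv_eq h1.symm⟩
  obtain ⟨a, ha, ha'⟩ := hm ![1, 0, 0] (by decide +kernel)
  obtain ⟨b, hb, hb'⟩ := hm ![0, 1, 0] (by decide +kernel)
  obtain ⟨c, hc, hc'⟩ := hm ![1, -1, 0] (by decide +kernel)
  have hd : det3 (g.1 *ᵥ ![1, 0, 0]) (g.1 *ᵥ ![0, 1, 0]) (g.1 *ᵥ ![1, -1, 0]) = 0 := by
    rw [det3_mulVec]; decide
  have hinj : ∀ x y : Vec, vv x ≠ vv y → g • vv x ≠ g • vv y := fun x y hxy hh =>
    hxy (MulAction.injective g hh)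
  have vneg : ∀ x : Vec, vv (-x) = vv x := by
    intro x; apply Ray.ext'; intro i j; simp [vv_mat, Matrix.vecMulVec_apply]
  have hv : ∀ (x a : Vec), (g.1 *ᵥ x = a ∨ g.1 *ᵥ x = -a) → g • vv x = vv a := by
    intro x a h
    rw [smul_vv]
    rcases h with h | h
    · rw [h]
    · rw [h, vneg]
  have hab : a ≠ b := by
    rintro rfl
    exact hinj ![1, 0, 0] ![0, 1, 0] (by decide +kernel) ((hv _ _ ha').trans (hv _ _ hb').symm)
  have hac : a ≠ c := by
    rintro rfl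
    exact hinj ![1, 0, 0] ![1, -1, 0] (by decide +kernel) ((hv _ _ ha').trans (hv _ _ hc').symm)
  have hbc : b ≠ c := by
    rintro rfl
    exact hinj ![0, 1, 0] ![1, -1, 0] (by decide +kernel) ((hv _ _ hb').trans (hv _ _ hc').symm)
  apply key a ha b hb c hc hab hac hbc
  rcases ha' with h1 | h1 <;> rcases hb' with h2 | h2 <;> rcases hc' with h3 | h3 <;>
    rw [h1, h2, h3] at hd <;>
    simpa [det3_neg1, det3_neg2, det3_neg3] using hd

/-- Data of a representative cell with its stabiliser. -/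
structure RD where
  L : List Vec
  S : List (Matrix (Fin 3) (Fin 3) ℤ)
  chk' : chk L S
  spec : ∀ M ∈ S, M.det = 1 ∧ pres L M
  nodup : S.Nodup
  cell : IsCell (rp L)

/-- the stabiliser -/
def RD.stab (D : RD) : Finset Gam :=
  (D.S.attach.map (fun M => mkG M.1 (D.spec M.1 M.2).1)).toFinset

theorem RD.mem_stab (D : RD) {g : Gam} : g ∈ D.stab ↔ g • rp D.L = rp D.L := by
  unfold RD.stab
  simp only [List.mem_toFinset, List.mem_map, List.mem_attach, true_and, Subtype.exists]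
  constructor
  · rintro ⟨M, hM, rfl⟩
    rw [rp_smul_eq, mkG_val]
    exact (D.spec M hM).2
  · intro h
    refine ⟨g.1, stab_mem D.chk' h, ?_⟩
    rfl

theorem RD.card_stab (D : RD) : D.stab.card = D.S.length := by
  unfold RD.stab
  rw [List.toFinset_card_of_nodup, List.length_map, List.length_attach]
  apply List.Nodup.map
  · intro a b hab
    apply Subtype.ext
    have := congrArg (fun g : Gam => g.1) hab
    simpa [mkG_val] using this
  · exact List.nodup_attach.2 D.nodup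

open Classical in
/-- transporter from the representative to `σ` -/
noncomputable def RD.tra (D : RD) (σ : Finset Ray) : Finset Gam :=
  if h : ∃ g : Gam, g • rp D.L = σ then D.stab.image (fun s => h.choose * s) else ∅

theorem RD.mem_tra (D : RD) {σ : Finset Ray} {g : Gam} : g ∈ D.tra σ ↔ g • rp D.L = σ := by
  unfold RD.tra
  by_cases h : ∃ g : Gam, g • rp D.L = σ
  · rw [dif_pos h, Finset.mem_image]
    have hs := h.choose_spec
    constructor
    · rintro ⟨s, hs', rfl⟩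
      rw [mul_smul, D.mem_stab.1 hs', hs]
    · intro hg
      refine ⟨h.choose⁻¹ * g, ?_, by simp⟩
      rw [D.mem_stab, mul_smul, hg, inv_smul_eq_iff, hs]
  · rw [dif_neg h]
    constructor
    · intro hh; simp at hh
    · intro hg; exact absurd ⟨g, hg⟩ h

theorem RD.tra_eq (D : RD) (h : Gam) : D.tra (h • rp D.L) = D.stab.image (fun s => h * s) := by
  ext g
  rw [D.mem_tra, Finset.mem_image]
  constructor
  · intro hg
    refine ⟨h⁻¹ * g, ?_, by simp⟩
    rw [D.mem_stab, mul_smul, hg, inv_smul_smul]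
  · rintro ⟨s, hs, rfl⟩
    rw [mul_smul, D.mem_stab.1 hs]

theorem RD.tra_smul (D : RD) (h : Gam) (σ : Finset Ray) :
    D.tra (h • σ) = (D.tra σ).image (fun s => h * s) := by
  ext g
  rw [D.mem_tra, Finset.mem_image]
  constructor
  · intro hg
    refine ⟨h⁻¹ * g, ?_, by simp⟩
    rw [D.mem_tra, mul_smul, hg, inv_smul_smul]
  · rintro ⟨s, hs, rfl⟩
    rw [mul_smul, D.mem_tra.1 hs]

def R6 : RD := ⟨L6, S6, chk6, S6_spec, S6_nodup, cell6⟩
def R5 : RD := ⟨L5, S5, chk5, S5_spec, S5_nodup, cell5⟩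
def R4c : RD := ⟨L4c, S4c, chk4c, S4c_spec, S4c_nodup, cell4c⟩
def R4p : RD := ⟨L4p, S4p, chk4p, S4p_spec, S4p_nodup, cell4p⟩
def R3 : RD := ⟨L3, S3, chk3, S3_spec, S3_nodup, cell3⟩

end Pool.Agent.H98
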