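import Mathlib

/-!
Rays and perfect cones for `SL(3, ℤ)` acting on ternary quadratic forms.
-/

namespace Pool.Agent.H98

open Matrix

/-- The group `SL(3, ℤ)`. -/
abbrev Gam := Matrix.SpecialLinearGroup (Fin 3) ℤ

/-- Ambient type for rays: integer `3 × 3` matrices, with `g` acting by `S ↦ g S gᵀ`. -/
def Ray := Matrix (Fin 3) (Fin 3) ℤ

instance : AddCommGroup Ray := inferInstanceAs (AddCommGroup (Matrix (Fin 3) (Fin 3) ℤ))
instance : DecidableEq Ray := inferInstanceAs (DecidableEq (Matrix (Fin 3) (Fin 3) ℤ))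

/-- Underlying matrix. -/
def Ray.mat (S : Ray) : Matrix (Fin 3) (Fin 3) ℤ := S

theorem Ray.ext' {S T : Ray} (h : ∀ i j, S.mat i j = T.mat i j) : S = T := Matrix.ext h

theorem mat_add (S T : Ray) : (S + T).mat = S.mat + T.mat := rfl
theorem mat_sub (S T : Ray) : (S - T).mat = S.mat - T.mat := rfl
theorem mat_neg (S : Ray) : (-S).mat = - S.mat := rfl
theorem mat_zero : (0 : Ray).mat = 0 := rfl
theorem mat_zsmul (n : ℤ) (S : Ray) : (n • S).mat = n • S.mat := rfl

/-- The action on matrices. -/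
def act (g : Gam) (S : Ray) : Ray := (g.1 * S.mat * g.1ᵀ : Matrix (Fin 3) (Fin 3) ℤ)

theorem act_mat (g : Gam) (S : Ray) : (act g S).mat = g.1 * S.mat * g.1ᵀ := rfl

theorem Ray.mat_inj {S T : Ray} (h : S.mat = T.mat) : S = T := h

instance : DistribMulAction Gam Ray where
  smul := act
  one_smul S := by
    change act 1 S = S
    apply Ray.mat_inj
    rw [act_mat]; simp
  mul_smul g h S := by
    change act (g * h) S = act g (act h S)
    apply Ray.mat_inj
    simp only [act_mat, Matrix.SpecialLinearGroup.coe_mul, Matrix.transpose_mul, Matrix.mul_assoc]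
  smul_zero g := by
    change act g 0 = 0
    apply Ray.mat_inj
    rw [act_mat, mat_zero]; simp
  smul_add g S T := by
    change act g (S + T) = act g S + act g T
    apply Ray.mat_inj
    simp only [act_mat, mat_add, Matrix.mul_add, Matrix.add_mul]

theorem smul_def (g : Gam) (S : Ray) : (g • S : Ray).mat = g.1 * S.mat * g.1ᵀ := rfl

/-- symmetric -/
def Sym (S : Ray) : Prop := S.matᵀ = S.mat

theorem Sym.smul {S : Ray} (h : Sym S) (g : Gam) : Sym (g • S) := by
  unfold Sym at *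
  rw [smul_def, Matrix.transpose_mul, Matrix.transpose_mul, Matrix.transpose_transpose, h,
    Matrix.mul_assoc]

theorem smul_zsmul' (g : Gam) (n : ℤ) (S : Ray) : g • (n • S) = n • (g • S) :=
  (DistribSMul.toAddMonoidHom Ray g).map_zsmul n S

/-- rank one form attached to a vector -/
def vv (v : Fin 3 → ℤ) : Ray := (Matrix.vecMulVec v v : Matrix (Fin 3) (Fin 3) ℤ)

theorem vv_mat (v : Fin 3 → ℤ) : (vv v).mat = Matrix.vecMulVec v v := rfl

theorem vv_sym (v : Fin 3 → ℤ) : Sym (vv v) := by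
  unfold Sym
  rw [vv_mat]
  ext i j
  simp [Matrix.vecMulVec_apply, mul_comm]

theorem smul_vv (g : Gam) (v : Fin 3 → ℤ) : g • vv v = vv (g.1.mulVec v) := by
  apply Ray.ext'
  intro i j
  rw [smul_def, vv_mat, vv_mat, Matrix.mul_vecMulVec, Matrix.vecMulVec_mul, Matrix.vecMul_transpose]

/-- The minimal vectors of the perfect form. -/
def w : Fin 6 → Fin 3 → ℤ :=
  ![![1, 0, 0], ![0, 1, 0], ![0, 0, 1], ![1, -1, 0], ![0, 1, -1], ![1, 0, -1]]

/-- The six rays of the standard perfect cone. -/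
def r (i : Fin 6) : Ray := vv (w i)

/-- The dual basis. -/
def dl (i : Fin 6) (S : Ray) : ℤ :=
  ![S.mat 0 0 + S.mat 0 1 + S.mat 0 2, S.mat 0 1 + S.mat 1 1 + S.mat 1 2,
    S.mat 0 2 + S.mat 1 2 + S.mat 2 2, - S.mat 0 1, - S.mat 1 2, - S.mat 0 2] i

theorem dl_add (i : Fin 6) (S T : Ray) : dl i (S + T) = dl i S + dl i T := by
  unfold dl
  rw [mat_add]
  fin_cases i <;> simp <;> ring

theorem dl_zsmul (i : Fin 6) (n : ℤ) (S : Ray) : dl i (n • S) = n * dl i S := by
  unfold dl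
  rw [mat_zsmul]
  fin_cases i <;> simp <;> ring

theorem dl_zero (i : Fin 6) : dl i 0 = 0 := by
  have := dl_zsmul i 0 0
  simpa using this

theorem dl_sum {ι : Type*} (i : Fin 6) (s : Finset ι) (f : ι → Ray) :
    dl i (∑ x ∈ s, f x) = ∑ x ∈ s, dl i (f x) := by
  classical
  induction s using Finset.induction_on with
  | empty => simp [dl_zero]
  | insert a s ha ih => rw [Finset.sum_insert ha, Finset.sum_insert ha, dl_add, ih]

theorem dl_r (i j : Fin 6) : dl i (r j) = if i = j then 1 else 0 := by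
  revert i j; decide

theorem sym_eq {S : Ray} (h : Sym S) : S = ∑ i, dl i S • r i := by
  have h01 : S.mat 1 0 = S.mat 0 1 := congrFun (congrFun h 0) 1
  have h02 : S.mat 2 0 = S.mat 0 2 := congrFun (congrFun h 0) 2
  have h12 : S.mat 2 1 = S.mat 1 2 := congrFun (congrFun h 1) 2
  apply Ray.ext'
  intro i j
  have : (∑ i, dl i S • r i).mat = ∑ i, dl i S • (r i).mat := by
    simp only [Fin.sum_univ_six]; rfl
  rw [this]
  simp only [Fin.sum_univ_six, Matrix.add_apply, Matrix.smul_apply, dl, r, vv_mat,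
    Matrix.vecMulVec_apply, w]
  fin_cases i <;> fin_cases j <;> simp [h01, h02, h12] <;> ring

/-- The perfect form as functional on symmetric matrices. -/
def q (S : Ray) : ℤ := ∑ i, dl i S

theorem q_add (S T : Ray) : q (S + T) = q S + q T := by
  unfold q; rw [← Finset.sum_add_distrib]; simp only [dl_add]

theorem q_zsmul (n : ℤ) (S : Ray) : q (n • S) = n * q S := by
  unfold q; rw [Finset.mul_sum]; simp only [dl_zsmul]

theorem q_sum {ι : Type*} (s : Finset ι) (f : ι → Ray) :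
    q (∑ x ∈ s, f x) = ∑ x ∈ s, q (f x) := by
  unfold q; simp only [dl_sum]; rw [Finset.sum_comm]

theorem q_r (i : Fin 6) : q (r i) = 1 := by
  unfold q; simp [dl_r]

theorem q_vv (v : Fin 3 → ℤ) :
    2 * q (vv v) = v 0 ^ 2 + v 1 ^ 2 + v 2 ^ 2 + (v 0 + v 1 + v 2) ^ 2 := by
  simp only [q, Fin.sum_univ_six, dl, vv_mat, Matrix.vecMulVec_apply]
  simp
  ring

theorem q_vv_pos {v : Fin 3 → ℤ} (hv : v ≠ 0) : 1 ≤ q (vv v) := by
  have h := q_vv v
  by_contra hcon
  have h0 : 2 * q (vv v) ≤ 0 := by omega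
  rw [h] at h0
  have a0 := sq_nonneg (v 0)
  have a1 := sq_nonneg (v 1)
  have a2 := sq_nonneg (v 2)
  have a3 := sq_nonneg (v 0 + v 1 + v 2)
  apply hv
  funext i
  fin_cases i
  · exact pow_eq_zero_iff (two_ne_zero) |>.1 (by linarith : v 0 ^ 2 = 0)
  · exact pow_eq_zero_iff (two_ne_zero) |>.1 (by linarith : v 1 ^ 2 = 0)
  · exact pow_eq_zero_iff (two_ne_zero) |>.1 (by linarith : v 2 ^ 2 = 0)

theorem q_vv_min {v : Fin 3 → ℤ} (hv : q (vv v) = 1) : ∃ i, vv v = r i := by
  have h := q_vv v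
  rw [hv] at h
  have b : ∀ x : ℤ, x ^ 2 ≤ 2 → -1 ≤ x ∧ x ≤ 1 := by
    intro x hx; constructor <;> nlinarith
  have a0 := sq_nonneg (v 0)
  have a1 := sq_nonneg (v 1)
  have a2 := sq_nonneg (v 2)
  have a3 := sq_nonneg (v 0 + v 1 + v 2)
  obtain ⟨l0, u0⟩ := b (v 0) (by linarith)
  obtain ⟨l1, u1⟩ := b (v 1) (by linarith)
  obtain ⟨l2, u2⟩ := b (v 2) (by linarith)
  have hvv : v = ![v 0, v 1, v 2] := by
    ext i; fin_cases i <;> rfl
  rw [hvv]
  generalize v 0 = x at *
  generalize v 1 = y at *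
  generalize v 2 = z at *
  interval_cases x <;> interval_cases y <;> interval_cases z <;> first | omega | decide

theorem w_ne (i : Fin 6) : w i ≠ 0 := by revert i; decide

theorem mulVec_ne {g : Gam} {v : Fin 3 → ℤ} (hv : v ≠ 0) : g.1.mulVec v ≠ 0 := by
  intro h
  apply hv
  have : (g⁻¹ : Gam).1.mulVec (g.1.mulVec v) = v := by
    rw [Matrix.mulVec_mulVec, ← Matrix.SpecialLinearGroup.coe_mul, inv_mul_cancel]
    simp
  rw [h, Matrix.mulVec_zero] at this
  exact this.symm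

/-- Perfect form attached to `g`. -/
def Q (g : Gam) (S : Ray) : ℤ := q (g⁻¹ • S)

theorem Q_add (g : Gam) (S T : Ray) : Q g (S + T) = Q g S + Q g T := by
  unfold Q; rw [smul_add, q_add]

theorem Q_zsmul (g : Gam) (n : ℤ) (S : Ray) : Q g (n • S) = n * Q g S := by
  unfold Q; rw [smul_zsmul', q_zsmul]

theorem Q_sum {ι : Type*} (g : Gam) (s : Finset ι) (f : ι → Ray) :
    Q g (∑ x ∈ s, f x) = ∑ x ∈ s, Q g (f x) := by
  unfold Q; rw [Finset.smul_sum, q_sum]

theorem Q_vv_pos (g : Gam) {v : Fin 3 → ℤ} (hv : v ≠ 0) : 1 ≤ Q g (vv v) := by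
  unfold Q; rw [smul_vv]; exact q_vv_pos (mulVec_ne hv)

theorem smul_r_eq (g : Gam) (i : Fin 6) : g • r i = vv (g.1.mulVec (w i)) := smul_vv _ _

theorem Q_r_pos (g g' : Gam) (i : Fin 6) : 1 ≤ Q g' (g • r i) := by
  rw [smul_r_eq]; exact Q_vv_pos _ (mulVec_ne (w_ne i))

/-- The perfect cone `g • D₀` as set of rays. -/
def Dc (g : Gam) : Finset Ray := Finset.univ.image (fun i => g • r i)

theorem mem_Dc {g : Gam} {S : Ray} : S ∈ Dc g ↔ ∃ i, g • r i = S := by
  unfold Dc; simp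

theorem r_inj : Function.Injective r := by
  intro i j h
  have := dl_r i j
  rw [← h, dl_r] at this
  by_contra hne
  simp [hne] at this

theorem smul_r_inj (g : Gam) : Function.Injective (fun i => g • r i) := by
  intro i j h
  exact r_inj ((MulAction.injective g) h)

theorem card_Dc (g : Gam) : (Dc g).card = 6 := by
  unfold Dc; rw [Finset.card_image_of_injective _ (smul_r_inj g)]; simp

theorem Q_self (g : Gam) (i : Fin 6) : Q g (g • r i) = 1 := by
  unfold Q; rw [inv_smul_smul, q_r]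

theorem Q_of_mem {g : Gam} {S : Ray} (h : S ∈ Dc g) : Q g S = 1 := by
  obtain ⟨i, rfl⟩ := mem_Dc.1 h; exact Q_self g i

theorem sym_eq' (g : Gam) {S : Ray} (h : Sym S) : S = ∑ i, dl i (g⁻¹ • S) • (g • r i) := by
  have := sym_eq (h.smul g⁻¹)
  calc S = g • (g⁻¹ • S) := (smul_inv_smul g S).symm
    _ = g • (∑ i, dl i (g⁻¹ • S) • r i) := by rw [← this]
    _ = _ := by rw [Finset.smul_sum]; simp only [smul_zsmul']

theorem Q_expand (g g' : Gam) {S : Ray} (h : Sym S) :
    Q g' S = ∑ i, dl i (g⁻¹ • S) * Q g' (g • r i) := by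
  conv_lhs => rw [sym_eq' g h]
  rw [Q_sum]; simp only [Q_zsmul]

theorem Q_expand_self (g : Gam) (S : Ray) : Q g S = ∑ i, dl i (g⁻¹ • S) := rfl

theorem Dc_eq_of_Q {g g' : Gam} (h : ∀ i, Q g' (g • r i) = 1) : Dc g = Dc g' := by
  apply Finset.eq_of_subset_of_card_le
  · intro S hS
    obtain ⟨i, rfl⟩ := mem_Dc.1 hS
    have h1 := h i
    unfold Q at h1
    rw [smul_r_eq, smul_vv] at h1
    obtain ⟨j, hj⟩ := q_vv_min h1
    rw [← smul_vv, ← smul_r_eq] at hj
    rw [mem_Dc]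
    exact ⟨j, by rw [← hj, smul_inv_smul]⟩
  · rw [card_Dc, card_Dc]

theorem Q_eq_of_Dc {g g' : Gam} (h : Dc g = Dc g') {S : Ray} (hS : Sym S) : Q g S = Q g' S := by
  rw [Q_expand g g' hS, Q_expand_self]
  apply Finset.sum_congr rfl
  intro i _
  have : Q g' (g • r i) = 1 := Q_of_mem (by rw [← h]; exact mem_Dc.2 ⟨i, rfl⟩)
  rw [this, mul_one]

end Pool.Agent.H98
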