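import Pool.Agent.H98.Cells

/-!
A linear order on rays and the resulting orientation signs.
-/

namespace Pool.Agent.H98

open Matrix

/-- lexicographic key -/
def key (S : Ray) : ℤ ×ₗ ℤ ×ₗ ℤ ×ₗ ℤ ×ₗ ℤ ×ₗ ℤ ×ₗ ℤ ×ₗ ℤ ×ₗ ℤ :=
  toLex (S.mat 0 0, toLex (S.mat 0 1, toLex (S.mat 0 2, toLex (S.mat 1 0, toLex (S.mat 1 1,
    toLex (S.mat 1 2, toLex (S.mat 2 0, toLex (S.mat 2 1, S.mat 2 2))))))))

theorem key_inj : Function.Injective key := by
  intro S T h
  unfold key at h
  simp only [EmbeddingLike.apply_eq_iff_eq, Prod.mk.injEq] at h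
  obtain ⟨h0, h1, h2, h3, h4, h5, h6, h7, h8⟩ := h
  apply Ray.ext'
  intro i j
  fin_cases i <;> fin_cases j <;> assumption

instance : LinearOrder Ray := LinearOrder.lift' key key_inj

/-- `-1` if `u < v`, else `1` -/
def sg (u v : Ray) : ℤˣ := if u < v then -1 else 1

theorem sg_swap {u v : Ray} (h : u ≠ v) : sg u v = - sg v u := by
  unfold sg
  rcases lt_or_gt_of_ne h with h1 | h1
  · rw [if_pos h1, if_neg (not_lt.2 h1.le)]
  · rw [if_neg (not_lt.2 h1.le), if_pos h1]; simp

/-- insertion sign -/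
def ep (v : Ray) (ρ : Finset Ray) : ℤˣ := ∏ u ∈ ρ, sg u v

theorem ep_insert {v w : Ray} {ρ : Finset Ray} (hw : w ∉ ρ) : ep v (insert w ρ) = sg w v * ep v ρ := by
  unfold ep; rw [Finset.prod_insert hw]

theorem ep_anti {v w : Ray} {ρ : Finset Ray} (hv : v ∉ ρ) (hw : w ∉ ρ) (hvw : v ≠ w) :
    ep v (insert w ρ) * ep w ρ = - (ep w (insert v ρ) * ep v ρ) := by
  rw [ep_insert hw, ep_insert hv, sg_swap hvw.symm]
  simp only [neg_mul, mul_assoc, mul_comm (ep v ρ)]

/-- comparison sign of a pair under `g` -/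
def cs (g : Gam) (z : Sym2 Ray) : ℤˣ :=
  Sym2.lift ⟨fun u v => if (u < v ↔ g • u < g • v) then 1 else -1, by
    intro u v
    by_cases h : u = v
    · subst h; rfl
    · have h' : g • u ≠ g • v := fun hh => h (MulAction.injective g hh)
      rcases lt_or_gt_of_ne h with h1 | h1 <;> rcases lt_or_gt_of_ne h' with h2 | h2 <;>
        simp [h1, h2, not_lt.2 h1.le, not_lt.2 h2.le]⟩ z

theorem cs_mk (g : Gam) (u v : Ray) : cs g s(u, v) = if (u < v ↔ g • u < g • v) then 1 else -1 := rfl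

theorem cs_mul (g h : Gam) (z : Sym2 Ray) : cs (g * h) z = cs g (z.map (fun S => h • S)) * cs h z := by
  induction z using Sym2.ind with
  | _ u v =>
    rw [Sym2.map_mk, cs_mk, cs_mk, cs_mk, mul_smul, mul_smul]
    by_cases h1 : u < v <;> by_cases h2 : h • u < h • v <;> by_cases h3 : g • h • u < g • h • v <;>
      simp [h1, h2, h3]

theorem cs_diag (g : Gam) (u : Ray) : cs g s(u, u) = 1 := by rw [cs_mk]; simp

theorem sg_smul (g : Gam) {u v : Ray} : sg (g • u) (g • v) = sg u v * cs g s(u, v) := by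
  rw [cs_mk]; unfold sg
  by_cases h1 : u < v <;> by_cases h2 : g • u < g • v <;> simp [h1, h2]

/-- reordering sign -/
def sn (g : Gam) (σ : Finset Ray) : ℤˣ := ∏ z ∈ σ.sym2, cs g z

theorem sn_mul (g h : Gam) (σ : Finset Ray) : sn (g * h) σ = sn g (h • σ) * sn h σ := by
  unfold sn
  rw [fsmul_def, Finset.sym2_image, Finset.prod_image]
  · rw [← Finset.prod_mul_distrib]
    apply Finset.prod_congr rfl
    intro z _
    exact cs_mul g h z
  · intro a _ b _ hab
    exact (Sym2.map.injective (MulAction.injective h)) hab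

theorem sn_one (σ : Finset Ray) : sn 1 σ = 1 := by
  unfold sn
  apply Finset.prod_eq_one
  intro z _
  induction z using Sym2.ind with
  | _ u v => rw [cs_mk]; simp

theorem sn_insert (g : Gam) {v : Ray} {ρ : Finset Ray} (hv : v ∉ ρ) :
    sn g (insert v ρ) = sn g ρ * ∏ u ∈ ρ, cs g s(u, v) := by
  unfold sn
  rw [Finset.sym2_insert]
  rw [Finset.prod_union]
  · rw [mul_comm]
    congr 1
    rw [Finset.prod_image]
    · rw [Finset.prod_insert hv, cs_diag, one_mul]
      apply Finset.prod_congr rfl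
      intro u _
      rw [Sym2.eq_swap]
    · intro a _ b _ hab
      have : a = b ∨ v = b ∧ a = v := by simpa using hab
      rcases this with h | ⟨h1, h2⟩
      · exact h
      · rw [h2, h1]
  · rw [Finset.disjoint_left]
    intro z hz hz'
    rw [Finset.mem_image] at hz
    obtain ⟨b, _, rfl⟩ := hz
    rw [Finset.mk_mem_sym2_iff] at hz'
    exact hv hz'.1

theorem ep_smul (g : Gam) (v : Ray) (ρ : Finset Ray) :
    ep (g • v) (g • ρ) = ep v ρ * ∏ u ∈ ρ, cs g s(u, v) := by
  unfold ep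
  rw [fsmul_def, Finset.prod_image (fun a _ b _ hab => MulAction.injective g hab),
    ← Finset.prod_mul_distrib]
  apply Finset.prod_congr rfl
  intro u _
  exact sg_smul g

theorem sn_ep (g : Gam) {v : Ray} {ρ : Finset Ray} (hv : v ∉ ρ) :
    sn g (insert v ρ) * ep v ρ = sn g ρ * ep (g • v) (g • ρ) := by
  rw [sn_insert g hv, ep_smul]
  rw [mul_assoc, mul_comm (∏ u ∈ ρ, cs g s(u, v))]

theorem smul_insert' (g : Gam) (v : Ray) (ρ : Finset Ray) : g • insert v ρ = insert (g • v) (g • ρ) := by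
  rw [fsmul_def, Finset.image_insert]; rfl

end Pool.Agent.H98
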