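import Pool.Agent.H98.Exact

/-!
Stabilisers of the representative cells.
-/

namespace Pool.Agent.H98

open Matrix

/-- integer vectors -/
abbrev Vec := Fin 3 → ℤ

/-- representative cell attached to a list of vectors -/
def rp (L : List Vec) : Finset Ray := (L.map vv).toFinset

/-- explicit `3 × 3` determinant of columns -/
def det3 (a b c : Vec) : ℤ :=
  a 0 * (b 1 * c 2 - b 2 * c 1) - b 0 * (a 1 * c 2 - a 2 * c 1) + c 0 * (a 1 * b 2 - a 2 * b 1)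

/-- matrix with given columns -/
def colM (a b c : Vec) : Matrix (Fin 3) (Fin 3) ℤ := !![a 0, b 0, c 0; a 1, b 1, c 1; a 2, b 2, c 2]

/-- `M` maps the rays of `L` to rays of `L` -/
def pres (L : List Vec) (M : Matrix (Fin 3) (Fin 3) ℤ) : Prop :=
  ∀ v ∈ L, ∃ u ∈ L, vv (M *ᵥ v) = vv u

instance (L : List Vec) (M : Matrix (Fin 3) (Fin 3) ℤ) : Decidable (pres L M) := by
  unfold pres; infer_instance

/-- signed version of a list -/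
def pm (L : List Vec) : List Vec := L ++ L.map (fun v => -v)

theorem vv_eq {a b : Vec} (h : vv a = vv b) : a = b ∨ a = -b := by
  have h' : ∀ i j, a i * a j = b i * b j := by
    intro i j
    have := congrArg (fun S : Ray => S.mat i j) h
    simpa [vv_mat, Matrix.vecMulVec_apply] using this
  by_cases ha : a = 0
  · left
    subst ha
    funext i
    have := h' i i
    simp only [Pi.zero_apply, mul_zero] at this
    exact (mul_self_eq_zero.1 this.symm).symm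
  · obtain ⟨i, hi⟩ : ∃ i, a i ≠ 0 := by
      by_contra hcon
      push Not at hcon
      exact ha (funext hcon)
    have hi' : a i ≠ 0 := hi
    rcases mul_self_eq_mul_self_iff.1 (h' i i) with h1 | h1
    · left
      funext j
      have := h' i j
      rw [← h1] at this
      exact mul_left_cancel₀ hi' this
    · right
      funext j
      have h2 := h' i j
      have h3 : b i = - a i := by linarith
      rw [h3] at h2
      have : a i * a j = a i * (- b j) := by linarith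
      exact mul_left_cancel₀ hi' this

theorem mem_rp {L : List Vec} {S : Ray} : S ∈ rp L ↔ ∃ v ∈ L, vv v = S := by
  unfold rp; simp

theorem rp_smul_subset {L : List Vec} {g : Gam} : g • rp L ⊆ rp L ↔ pres L g.1 := by
  constructor
  · intro h v hv
    have : g • vv v ∈ rp L := h (smul_mem_fsmul.2 (mem_rp.2 ⟨v, hv, rfl⟩))
    rw [smul_vv] at this
    obtain ⟨u, hu, h1⟩ := mem_rp.1 this
    exact ⟨u, hu, h1.symm⟩
  · intro h S hS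
    rw [mem_fsmul] at hS
    obtain ⟨v, hv, h1⟩ := mem_rp.1 hS
    obtain ⟨u, hu, h2⟩ := h v hv
    rw [mem_rp]
    refine ⟨u, hu, ?_⟩
    rw [← h2, ← smul_vv, h1, smul_inv_smul]

theorem rp_smul_eq {L : List Vec} {g : Gam} : g • rp L = rp L ↔ pres L g.1 := by
  rw [← rp_smul_subset]
  constructor
  · intro h; rw [h]
  · intro h; exact Finset.eq_of_subset_of_card_le h (by rw [card_fsmul])

theorem mulVec_col {g : Matrix (Fin 3) (Fin 3) ℤ} : g = colM (g *ᵥ ![1, 0, 0]) (g *ᵥ ![0, 1, 0]) (g *ᵥ ![0, 0, 1]) := by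
  ext i j
  fin_cases i <;> fin_cases j <;> simp [colM, Matrix.mulVec, dotProduct, Fin.sum_univ_three]

theorem det_colM (a b c : Vec) : (colM a b c).det = det3 a b c := by
  rw [Matrix.det_fin_three]; simp [colM, det3]; ring

/-- The enumeration check. -/
def chk (L : List Vec) (S : List (Matrix (Fin 3) (Fin 3) ℤ)) : Prop :=
  (![1, 0, 0] ∈ L ∧ ![0, 1, 0] ∈ L ∧ ![0, 0, 1] ∈ L) ∧
  (∀ a ∈ pm L, ∀ b ∈ pm L, ∀ c ∈ pm L, det3 a b c = 1 → pres L (colM a b c) → colM a b c ∈ S)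

instance (L : List Vec) (S : List (Matrix (Fin 3) (Fin 3) ℤ)) : Decidable (chk L S) := by
  unfold chk; infer_instance

theorem col_mem {L : List Vec} {g : Gam} (h : pres L g.1) {v : Vec} (hv : v ∈ L) :
    g.1 *ᵥ v ∈ pm L := by
  obtain ⟨u, hu, h1⟩ := h v hv
  unfold pm
  rw [List.mem_append]
  rcases vv_eq h1 with h2 | h2
  · left; rw [h2]; exact hu
  · right; rw [h2, List.mem_map]; exact ⟨u, hu, rfl⟩

theorem stab_mem {L : List Vec} {S : List (Matrix (Fin 3) (Fin 3) ℤ)} (h : chk L S) {g : Gam}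
    (hg : g • rp L = rp L) : g.1 ∈ S := by
  have hp := rp_smul_eq.1 hg
  obtain ⟨⟨h0, h1, h2⟩, h3⟩ := h
  rw [mulVec_col (g := g.1)]
  apply h3 _ (col_mem hp h0) _ (col_mem hp h1) _ (col_mem hp h2)
  · rw [← det_colM, ← mulVec_col, g.2]
  · rw [← mulVec_col]; exact hp

/-- vector lists -/
def L6 : List Vec := [![1, 0, 0], ![0, 1, 0], ![0, 0, 1], ![1, -1, 0], ![0, 1, -1], ![1, 0, -1]]
def L5 : List Vec := [![1, 0, 0], ![0, 1, 0], ![0, 0, 1], ![1, -1, 0], ![0, 1, -1]]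
def L4c : List Vec := [![1, 0, 0], ![0, 1, 0], ![0, 0, 1], ![1, 1, 1]]
def L4p : List Vec := [![1, 0, 0], ![0, 1, 0], ![0, 0, 1], ![1, -1, 0]]
def L3 : List Vec := [![1, 0, 0], ![0, 1, 0], ![0, 0, 1]]

def S6 : List (Matrix (Fin 3) (Fin 3) ℤ) :=
  [!![-1, -1, -1; 0, 0, 1; 0, 1, 0], !![-1, -1, -1; 0, 1, 0; 1, 0, 0],
    !![-1, -1, -1; 1, 0, 0; 0, 0, 1], !![-1, 0, 0; 0, -1, 0; 1, 1, 1],
    !![-1, 0, 0; 0, 0, -1; 0, -1, 0], !![-1, 0, 0; 1, 1, 1; 0, 0, -1],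
    !![0, -1, 0; -1, 0, 0; 0, 0, -1], !![0, -1, 0; 0, 0, -1; 1, 1, 1],
    !![0, -1, 0; 1, 1, 1; -1, 0, 0], !![0, 0, -1; -1, 0, 0; 1, 1, 1],
    !![0, 0, -1; 0, -1, 0; -1, 0, 0], !![0, 0, -1; 1, 1, 1; 0, -1, 0],
    !![0, 0, 1; -1, -1, -1; 1, 0, 0], !![0, 0, 1; 0, 1, 0; -1, -1, -1],
    !![0, 0, 1; 1, 0, 0; 0, 1, 0], !![0, 1, 0; -1, -1, -1; 0, 0, 1],
    !![0, 1, 0; 0, 0, 1; 1, 0, 0], !![0, 1, 0; 1, 0, 0; -1, -1, -1],
    !![1, 0, 0; -1, -1, -1; 0, 1, 0], !![1, 0, 0; 0, 0, 1; -1, -1, -1],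
    !![1, 0, 0; 0, 1, 0; 0, 0, 1], !![1, 1, 1; -1, 0, 0; 0, -1, 0],
    !![1, 1, 1; 0, -1, 0; 0, 0, -1], !![1, 1, 1; 0, 0, -1; -1, 0, 0]]

def S5 : List (Matrix (Fin 3) (Fin 3) ℤ) :=
  [!![-1, 0, 0; 0, -1, -1; 0, 0, 1], !![-1, 0, 0; 1, 1, 1; 0, 0, -1],
    !![0, 0, -1; 0, -1, 0; -1, 0, 0], !![0, 0, -1; 0, 1, 1; 1, 0, 0],
    !![0, 0, 1; -1, -1, -1; 1, 0, 0], !![0, 0, 1; 1, 1, 0; -1, 0, 0],
    !![1, 0, 0; -1, -1, 0; 0, 0, -1], !![1, 0, 0; 0, 1, 0; 0, 0, 1]]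

def S4c : List (Matrix (Fin 3) (Fin 3) ℤ) :=
  [!![-1, 0, 0; -1, 0, 1; -1, 1, 0], !![-1, 0, 0; 0, 0, -1; 0, -1, 0],
    !![-1, 0, 1; -1, 1, 0; -1, 0, 0], !![-1, 0, 1; 0, -1, 1; 0, 0, 1],
    !![-1, 1, 0; -1, 0, 0; -1, 0, 1], !![-1, 1, 0; 0, 1, 0; 0, 1, -1],
    !![0, -1, 0; -1, 0, 0; 0, 0, -1], !![0, -1, 0; 1, -1, 0; 0, -1, 1],
    !![0, -1, 1; 0, -1, 0; 1, -1, 0], !![0, -1, 1; 0, 0, 1; -1, 0, 1],
    !![0, 0, -1; 0, -1, 0; -1, 0, 0], !![0, 0, -1; 0, 1, -1; 1, 0, -1],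
    !![0, 0, 1; -1, 0, 1; 0, -1, 1], !![0, 0, 1; 1, 0, 0; 0, 1, 0],
    !![0, 1, -1; -1, 1, 0; 0, 1, 0], !![0, 1, -1; 1, 0, -1; 0, 0, -1],
    !![0, 1, 0; 0, 0, 1; 1, 0, 0], !![0, 1, 0; 0, 1, -1; -1, 1, 0],
    !![1, -1, 0; 0, -1, 1; 0, -1, 0], !![1, -1, 0; 1, 0, -1; 1, 0, 0],
    !![1, 0, -1; 0, 0, -1; 0, 1, -1], !![1, 0, -1; 1, 0, 0; 1, -1, 0],
    !![1, 0, 0; 0, 1, 0; 0, 0, 1], !![1, 0, 0; 1, -1, 0; 1, 0, -1]]

def S4p : List (Matrix (Fin 3) (Fin 3) ℤ) :=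
  [!![-1, -1, 0; 0, 1, 0; 0, 0, -1], !![-1, -1, 0; 1, 0, 0; 0, 0, 1],
    !![-1, 0, 0; 0, -1, 0; 0, 0, 1], !![-1, 0, 0; 1, 1, 0; 0, 0, -1],
    !![0, -1, 0; -1, 0, 0; 0, 0, -1], !![0, -1, 0; 1, 1, 0; 0, 0, 1],
    !![0, 1, 0; -1, -1, 0; 0, 0, 1], !![0, 1, 0; 1, 0, 0; 0, 0, -1],
    !![1, 0, 0; -1, -1, 0; 0, 0, -1], !![1, 0, 0; 0, 1, 0; 0, 0, 1],
    !![1, 1, 0; -1, 0, 0; 0, 0, 1], !![1, 1, 0; 0, -1, 0; 0, 0, -1]]

def S3 : List (Matrix (Fin 3) (Fin 3) ℤ) :=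
  [!![-1, 0, 0; 0, -1, 0; 0, 0, 1], !![-1, 0, 0; 0, 0, -1; 0, -1, 0],
    !![-1, 0, 0; 0, 0, 1; 0, 1, 0], !![-1, 0, 0; 0, 1, 0; 0, 0, -1],
    !![0, -1, 0; -1, 0, 0; 0, 0, -1], !![0, -1, 0; 0, 0, -1; 1, 0, 0],
    !![0, -1, 0; 0, 0, 1; -1, 0, 0], !![0, -1, 0; 1, 0, 0; 0, 0, 1],
    !![0, 0, -1; -1, 0, 0; 0, 1, 0], !![0, 0, -1; 0, -1, 0; -1, 0, 0],
    !![0, 0, -1; 0, 1, 0; 1, 0, 0], !![0, 0, -1; 1, 0, 0; 0, -1, 0],
    !![0, 0, 1; -1, 0, 0; 0, -1, 0], !![0, 0, 1; 0, -1, 0; 1, 0, 0],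
    !![0, 0, 1; 0, 1, 0; -1, 0, 0], !![0, 0, 1; 1, 0, 0; 0, 1, 0],
    !![0, 1, 0; -1, 0, 0; 0, 0, 1], !![0, 1, 0; 0, 0, -1; -1, 0, 0],
    !![0, 1, 0; 0, 0, 1; 1, 0, 0], !![0, 1, 0; 1, 0, 0; 0, 0, -1],
    !![1, 0, 0; 0, -1, 0; 0, 0, -1], !![1, 0, 0; 0, 0, -1; 0, 1, 0],
    !![1, 0, 0; 0, 0, 1; 0, -1, 0], !![1, 0, 0; 0, 1, 0; 0, 0, 1]]

theorem chk6 : chk L6 S6 := by decide +kernel

theorem chk5 : chk L5 S5 := by decide +kernel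

theorem chk4c : chk L4c S4c := by decide +kernel

theorem chk4p : chk L4p S4p := by decide +kernel

theorem chk3 : chk L3 S3 := by decide +kernel

theorem S6_spec : ∀ M ∈ S6, M.det = 1 ∧ pres L6 M := by
  simp only [Matrix.det_fin_three]
  decide +kernel

theorem S5_spec : ∀ M ∈ S5, M.det = 1 ∧ pres L5 M := by
  simp only [Matrix.det_fin_three]
  decide +kernel

theorem S4c_spec : ∀ M ∈ S4c, M.det = 1 ∧ pres L4c M := by
  simp only [Matrix.det_fin_three]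
  decide +kernel

theorem S4p_spec : ∀ M ∈ S4p, M.det = 1 ∧ pres L4p M := by
  simp only [Matrix.det_fin_three]
  decide +kernel

theorem S3_spec : ∀ M ∈ S3, M.det = 1 ∧ pres L3 M := by
  simp only [Matrix.det_fin_three]
  decide +kernel

theorem S6_nodup : S6.Nodup := by decide +kernel

theorem S5_nodup : S5.Nodup := by decide +kernel

theorem S4c_nodup : S4c.Nodup := by decide +kernel

theorem S4p_nodup : S4p.Nodup := by decide +kernel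

theorem S3_nodup : S3.Nodup := by decide +kernel

end Pool.Agent.H98
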