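import Pool.Agent.H98.Stab

/-!
Cofaces of the representative cells and orbit decomposition of the cells.
-/

namespace Pool.Agent.H98

open Matrix

theorem det3_mulVec (g : Gam) (a b c : Vec) : det3 (g.1 *ᵥ a) (g.1 *ᵥ b) (g.1 *ᵥ c) = det3 a b c := by
  rw [← det_colM, ← det_colM]
  have : colM (g.1 *ᵥ a) (g.1 *ᵥ b) (g.1 *ᵥ c) = g.1 * colM a b c := by
    ext i j
    fin_cases i <;> fin_cases j <;>
      simp [colM, Matrix.mulVec, dotProduct, Fin.sum_univ_three, Matrix.mul_apply]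
  rw [this, Matrix.det_mul, g.2, one_mul]

theorem det3_w : ∀ i j l : Fin 6, |det3 (w i) (w j) (w l)| ≤ 1 := by decide +kernel

theorem det3_neg1 (a b c : Vec) : det3 (-a) b c = - det3 a b c := by
  simp [det3]; ring
theorem det3_neg2 (a b c : Vec) : det3 a (-b) c = - det3 a b c := by
  simp [det3]; ring
theorem det3_neg3 (a b c : Vec) : det3 a b (-c) = - det3 a b c := by
  simp [det3]; ring

/-- unimodularity -/
theorem det3_le {g : Gam} {a b c : Vec} (ha : vv a ∈ Dc g) (hb : vv b ∈ Dc g) (hc : vv c ∈ Dc g) :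
    |det3 a b c| ≤ 1 := by
  obtain ⟨i, hi⟩ := mem_Dc.1 ha
  obtain ⟨j, hj⟩ := mem_Dc.1 hb
  obtain ⟨l, hl⟩ := mem_Dc.1 hc
  rw [smul_r_eq] at hi hj hl
  have key : ∀ (x y z : Vec), |det3 x y z| ≤ 1 ↔ |det3 x y z| ≤ 1 := fun _ _ _ => Iff.rfl
  have h0 : |det3 (g.1 *ᵥ w i) (g.1 *ᵥ w j) (g.1 *ᵥ w l)| ≤ 1 := by
    rw [det3_mulVec]; exact det3_w i j l
  rcases vv_eq hi with h1 | h1 <;> rcases vv_eq hj with h2 | h2 <;> rcases vv_eq hl with h3 | h3 <;>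
    rw [h1, h2, h3] at h0 <;>
    simpa [det3_neg1, det3_neg2, det3_neg3] using h0

theorem Dc_vec {g : Gam} {S : Ray} (h : S ∈ Dc g) : ∃ u : Vec, S = vv u := by
  obtain ⟨i, hi⟩ := mem_Dc.1 h
  exact ⟨_, by rw [← hi, smul_r_eq]⟩

/-- table check: all vectors compatible with `L` are listed -/
def chkT (L T : List Vec) : Prop :=
  ∀ x ∈ ([-1, 0, 1] : List ℤ), ∀ y ∈ ([-1, 0, 1] : List ℤ), ∀ z ∈ ([-1, 0, 1] : List ℤ),
    (∀ a ∈ L, ∀ b ∈ L, |det3 ![x, y, z] a b| ≤ 1) → vv ![x, y, z] ∉ rp L →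
      (∃ u ∈ T, vv ![x, y, z] = vv u) ∨ vv ![x, y, z] = 0

instance (L T : List Vec) : Decidable (chkT L T) := by unfold chkT; infer_instance

theorem vv_ne_zero {g : Gam} {u : Vec} (h : vv u ∈ Dc g) : vv u ≠ 0 := by
  intro h0
  have h1 := Q_of_mem h
  rw [h0] at h1
  have : Q g 0 = 0 := by
    have := Q_zsmul g 0 0
    simpa using this
  rw [this] at h1
  exact absurd h1 (by norm_num)

theorem cof_sub {L T : List Vec} (hc' : ![1, 0, 0] ∈ L ∧ ![0, 1, 0] ∈ L ∧ ![0, 0, 1] ∈ L)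
    (hT : chkT L T) {v : Ray} (hv : v ∈ cof (rp L)) : ∃ u ∈ T, v = vv u := by
  obtain ⟨h1, h2, ⟨⟨g, hg⟩, _⟩⟩ := mem_cof.1 hv
  have hvg : v ∈ Dc g := hg (Finset.mem_insert_self _ _)
  obtain ⟨u, rfl⟩ := Dc_vec hvg
  have hL : ∀ a ∈ L, vv a ∈ Dc g := fun a ha =>
    hg (Finset.mem_insert_of_mem (mem_rp.2 ⟨a, ha, rfl⟩))
  have hd : ∀ a ∈ L, ∀ b ∈ L, |det3 u a b| ≤ 1 := fun a ha b hb => det3_le hvg (hL a ha) (hL b hb)
  have b0 := hd _ hc'.2.1 _ hc'.2.2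
  have b1 := hd _ hc'.2.2 _ hc'.1
  have b2 := hd _ hc'.1 _ hc'.2.1
  have e0 : det3 u ![0, 1, 0] ![0, 0, 1] = u 0 := by simp [det3]
  have e1 : det3 u ![0, 0, 1] ![1, 0, 0] = u 1 := by simp [det3]
  have e2 : det3 u ![1, 0, 0] ![0, 1, 0] = u 2 := by simp [det3]
  rw [e0, abs_le] at b0
  rw [e1, abs_le] at b1
  rw [e2, abs_le] at b2
  have hu : u = ![u 0, u 1, u 2] := by
    ext i; fin_cases i <;> rfl
  have m : ∀ x : ℤ, -1 ≤ x ∧ x ≤ 1 → x ∈ ([-1, 0, 1] : List ℤ) := by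
    intro x hx
    obtain ⟨hx1, hx2⟩ := hx
    interval_cases x <;> simp
  have := hT (u 0) (m _ b0) (u 1) (m _ b1) (u 2) (m _ b2) (by rw [← hu]; exact hd)
    (by rw [← hu]; exact h2)
  rw [← hu] at this
  rcases this with h | h
  · exact h
  · exact absurd h (vv_ne_zero hvg)

/-- matrix action on rays, for computation -/
def mact (M : Matrix (Fin 3) (Fin 3) ℤ) (L : List Vec) : Finset Ray := (L.map (fun v => vv (M *ᵥ v))).toFinset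

/-- group element from a matrix -/
def mkG (M : Matrix (Fin 3) (Fin 3) ℤ) (h : M.det = 1) : Gam := ⟨M, h⟩

theorem mkG_val (M : Matrix (Fin 3) (Fin 3) ℤ) (h : M.det = 1) : (mkG M h).1 = M := rfl

theorem smul_rp {L : List Vec} {M : Matrix (Fin 3) (Fin 3) ℤ} (h : M.det = 1) :
    mkG M h • rp L = mact M L := by
  ext S
  rw [mem_fsmul, mem_rp]
  unfold mact
  simp only [List.mem_toFinset, List.mem_map]
  constructor
  · rintro ⟨v, hv, h1⟩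
    refine ⟨v, hv, ?_⟩
    have : mkG M h • vv v = S := by rw [h1, smul_inv_smul]
    rw [← this, smul_vv, mkG_val]
  · rintro ⟨v, hv, h1⟩
    refine ⟨v, hv, ?_⟩
    rw [← h1]
    have := smul_vv (mkG M h) v
    rw [mkG_val] at this
    rw [← this, inv_smul_smul]

/-- cofaces of `rp L5` of type `rp L6` -/
def T5_6 : List (Vec × Matrix (Fin 3) (Fin 3) ℤ) :=
  [(![1, -1, 1], !![1, 0, 0; 0, 1, 1; 0, -1, 0]),
    (![1, 0, -1], !![1, 0, 0; 0, 1, 0; 0, 0, 1])]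

/-- cofaces of `rp L4c` of type `rp L5` -/
def T4c_5 : List (Vec × Matrix (Fin 3) (Fin 3) ℤ) :=
  [(![0, 1, 1], !![-1, 0, 0; 0, 1, 1; 0, 1, 0]),
    (![1, 0, 1], !![1, 1, 0; 0, 0, -1; 0, 1, 0]),
    (![1, 1, 0], !![0, 1, 0; 1, 1, 0; 0, 0, -1])]

/-- cofaces of `rp L4p` of type `rp L5` -/
def T4p_5 : List (Vec × Matrix (Fin 3) (Fin 3) ℤ) :=
  [(![0, 1, -1], !![1, 0, 0; 0, 1, 0; 0, 0, 1]),
    (![0, 1, 1], !![0, 0, 1; 0, 1, 0; -1, 0, 0]),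
    (![1, -1, -1], !![0, 1, 1; 0, -1, 0; 1, 0, 0]),
    (![1, -1, 1], !![0, -1, 0; 1, 1, 0; 0, 0, 1]),
    (![1, 0, -1], !![0, 1, 0; 0, 0, 1; 1, 0, 0]),
    (![1, 0, 1], !![0, 1, 0; 1, 0, 0; 0, 0, -1])]

/-- cofaces of `rp L3` of type `rp L4c` -/
def T3_4c : List (Vec × Matrix (Fin 3) (Fin 3) ℤ) :=
  [(![1, -1, -1], !![-1, 0, 0; 0, 0, 1; 0, 1, 0]),
    (![1, -1, 1], !![1, 0, 0; 0, 0, -1; 0, 1, 0]),
    (![1, 1, -1], !![1, 0, 0; 0, 0, 1; 0, -1, 0]),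
    (![1, 1, 1], !![1, 0, 0; 0, 1, 0; 0, 0, 1])]

/-- cofaces of `rp L3` of type `rp L4p` -/
def T3_4p : List (Vec × Matrix (Fin 3) (Fin 3) ℤ) :=
  [(![0, 1, -1], !![0, 0, 1; 1, 0, 0; 0, 1, 0]),
    (![0, 1, 1], !![0, 0, 1; 0, -1, 0; 1, 0, 0]),
    (![1, -1, 0], !![1, 0, 0; 0, 1, 0; 0, 0, 1]),
    (![1, 0, -1], !![0, 1, 0; 0, 0, 1; 1, 0, 0]),
    (![1, 0, 1], !![1, 0, 0; 0, 0, 1; 0, -1, 0]),
    (![1, 1, 0], !![0, -1, 0; 1, 0, 0; 0, 0, 1])]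

theorem T5_6_spec : ∀ e ∈ T5_6, e.2.det = 1 ∧ vv e.1 ∉ rp L5 ∧ insert (vv e.1) (rp L5) = mact e.2 L6 := by
  simp only [Matrix.det_fin_three]
  decide +kernel

theorem T4c_5_spec : ∀ e ∈ T4c_5, e.2.det = 1 ∧ vv e.1 ∉ rp L4c ∧ insert (vv e.1) (rp L4c) = mact e.2 L5 := by
  simp only [Matrix.det_fin_three]
  decide +kernel

theorem T4p_5_spec : ∀ e ∈ T4p_5, e.2.det = 1 ∧ vv e.1 ∉ rp L4p ∧ insert (vv e.1) (rp L4p) = mact e.2 L5 := by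
  simp only [Matrix.det_fin_three]
  decide +kernel

theorem T3_4c_spec : ∀ e ∈ T3_4c, e.2.det = 1 ∧ vv e.1 ∉ rp L3 ∧ insert (vv e.1) (rp L3) = mact e.2 L4c := by
  simp only [Matrix.det_fin_three]
  decide +kernel

theorem T3_4p_spec : ∀ e ∈ T3_4p, e.2.det = 1 ∧ vv e.1 ∉ rp L3 ∧ insert (vv e.1) (rp L3) = mact e.2 L4p := by
  simp only [Matrix.det_fin_three]
  decide +kernel

theorem chkT5 : chkT L5 (T5_6.map Prod.fst) := by decide +kernel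

theorem chkT4c : chkT L4c (T4c_5.map Prod.fst) := by decide +kernel

theorem chkT4p : chkT L4p (T4p_5.map Prod.fst) := by decide +kernel

theorem chkT3 : chkT L3 ((T3_4c ++ T3_4p).map Prod.fst) := by decide +kernel

end Pool.Agent.H98
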